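import Mathlib

/-!
Extension of the polynomial ring preserves exactness.
-/

set_option autoImplicit false
set_option linter.unusedSectionVars false

namespace Run7.h869

open MvPolynomial

lemma ext_exact {R σ : Type*} [CommRing R] {m m' m'' : ℕ}
    (A : Matrix (Fin m) (Fin m') R) (B : Matrix (Fin m') (Fin m'') R)
    (h : ∀ x : Fin m' → R, A.mulVec x = 0 ↔ ∃ z, B.mulVec z = x)
    (x : Fin m' → MvPolynomial σ R) :
    (A.map (C : R → MvPolynomial σ R)).mulVec x = 0 ↔
      ∃ z, (B.map (C : R → MvPolynomial σ R)).mulVec z = x := by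
  classical
  have hco : ∀ {p p' : ℕ} (E : Matrix (Fin p) (Fin p') R) (y : Fin p' → MvPolynomial σ R)
      (μ : σ →₀ ℕ) (j : Fin p), coeff μ ((E.map (C : R → MvPolynomial σ R)).mulVec y j) =
        E.mulVec (fun k => coeff μ (y k)) j := by
    intro p p' E y μ j
    show coeff μ (∑ k, C (E j k) * y k) = ∑ k, E j k * coeff μ (y k)
    rw [coeff_sum]
    exact Finset.sum_congr rfl fun k _ => coeff_C_mul _ _ _
  constructor
  · intro hx
    have h1 : ∀ μ, A.mulVec (fun k => coeff μ (x k)) = 0 := by
      intro μ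
      funext j
      rw [← hco, hx]
      simp
    have h2 : ∀ μ, ∃ z, B.mulVec z = fun k => coeff μ (x k) := fun μ => (h _).1 (h1 μ)
    choose z hz using h2
    set F := Finset.univ.biUnion fun k => (x k).support with hF
    refine ⟨fun k => ∑ μ ∈ F, monomial μ (z μ k), ?_⟩
    funext j
    ext ν
    rw [hco]
    by_cases hν : ν ∈ F
    · have h3 : (fun k => coeff ν (∑ μ ∈ F, monomial μ (z μ k))) = z ν := by
        funext k
        rw [coeff_sum, Finset.sum_eq_single ν]
        · rw [coeff_monomial, if_pos rfl]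
        · intro μ _ hne
          rw [coeff_monomial, if_neg hne]
        · intro hn
          exact absurd hν hn
      rw [h3, hz]
    · have h3 : (fun k => coeff ν (∑ μ ∈ F, monomial μ (z μ k))) = 0 := by
        funext k
        rw [coeff_sum]
        refine Finset.sum_eq_zero fun μ hμ => ?_
        rw [coeff_monomial, if_neg]
        intro hn
        exact hν (hn ▸ hμ)
      rw [h3, Matrix.mulVec_zero]
      by_contra hne
      apply hν
      rw [hF, Finset.mem_biUnion]
      refine ⟨j, Finset.mem_univ _, ?_⟩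
      rw [mem_support_iff]
      exact fun h => hne h.symm
  · rintro ⟨z, rfl⟩
    funext j
    ext μ
    rw [hco]
    have h4 : (fun k => coeff μ ((B.map (C : R → MvPolynomial σ R)).mulVec z k)) =
        B.mulVec (fun k => coeff μ (z k)) := funext fun k => hco B z μ k
    rw [h4, (h _).2 ⟨_, rfl⟩]
    simp

/-- renaming of variables as an extension of scalars -/
lemma exists_equiv {k : Type*} [Field k] {s n : ℕ} (hsn : s ≤ n) :
    ∃ e : MvPolynomial (Fin n) k ≃+* MvPolynomial (Fin (n - s)) (MvPolynomial (Fin s) k),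
      ∀ p : MvPolynomial (Fin s) k, e (rename (Fin.castLE hsn) p) = C p := by
  have hn : (n - s) + s = n := Nat.sub_add_cancel hsn
  let f : Fin (n - s) ⊕ Fin s ≃ Fin n :=
    (Equiv.sumComm _ _).trans (finSumFinEquiv.trans (finCongr (by omega)))
  have hf : ∀ i : Fin s, f (Sum.inr i) = Fin.castLE hsn i := by
    intro i
    apply Fin.ext
    simp [f]
  refine ⟨((renameEquiv k f.symm).trans (sumAlgEquiv k (Fin (n - s)) (Fin s))).toRingEquiv, ?_⟩
  intro p
  show sumAlgEquiv k (Fin (n - s)) (Fin s) (rename f.symm (rename (Fin.castLE hsn) p)) = C p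
  rw [rename_rename]
  have h1 : (f.symm ∘ Fin.castLE hsn : Fin s → Fin (n - s) ⊕ Fin s) = Sum.inr := by
    funext i
    simp only [Function.comp]
    rw [Equiv.symm_apply_eq, hf]
  rw [h1]
  induction p using MvPolynomial.induction_on with
  | C a =>
    rw [rename_C, sumAlgEquiv_C_inl]
  | add p q hp hq => rw [map_add, map_add, hp, hq, map_add]
  | mul_X p i hp =>
    rw [map_mul, map_mul, hp, rename_X, map_mul]
    congr 1
    exact sumAlgEquiv_X_inr k _ _ i

lemma ren_exact {k : Type*} [Field k] {s n : ℕ} (hsn : s ≤ n) {m m' m'' : ℕ}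
    (A : Matrix (Fin m) (Fin m') (MvPolynomial (Fin s) k))
    (B : Matrix (Fin m') (Fin m'') (MvPolynomial (Fin s) k))
    (h : LinearMap.range B.mulVecLin = LinearMap.ker A.mulVecLin) :
    LinearMap.range (B.map (rename (R := k) (Fin.castLE hsn))).mulVecLin =
      LinearMap.ker (A.map (rename (R := k) (Fin.castLE hsn))).mulVecLin := by
  obtain ⟨e, he⟩ := exists_equiv (k := k) hsn
  have h' : ∀ x : Fin m' → MvPolynomial (Fin s) k, A.mulVec x = 0 ↔ ∃ z, B.mulVec z = x := by
    intro x
    have h1 : x ∈ LinearMap.range B.mulVecLin ↔ x ∈ LinearMap.ker A.mulVecLin := by rw [h]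
    rw [LinearMap.mem_ker, LinearMap.mem_range] at h1
    exact h1.symm
  have key : ∀ {p p' : ℕ} (E : Matrix (Fin p) (Fin p') (MvPolynomial (Fin s) k))
      (y : Fin p' → MvPolynomial (Fin n) k) (j : Fin p),
      e ((E.map (rename (R := k) (Fin.castLE hsn))).mulVec y j) =
        (E.map (C : MvPolynomial (Fin s) k → MvPolynomial (Fin (n - s)) _)).mulVec
          (fun i => e (y i)) j := by
    intro p p' E y j
    show e (∑ i, rename (Fin.castLE hsn) (E j i) * y i) = ∑ i, C (E j i) * e (y i)
    rw [map_sum]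
    refine Finset.sum_congr rfl fun i _ => ?_
    rw [map_mul, he]
  ext x
  rw [LinearMap.mem_ker, LinearMap.mem_range]
  have h2 := ext_exact (σ := Fin (n - s)) A B h' (fun i => e (x i))
  constructor
  · rintro ⟨z, rfl⟩
    show (A.map _).mulVec _ = 0
    funext j
    apply e.injective
    rw [key]
    have h3 := h2.2 ⟨fun i => e (z i), by
      funext j
      rw [← key]
      rfl⟩
    have h4 := congrFun h3 j
    rw [Pi.zero_apply, map_zero]
    exact h4
  · intro hx
    have hx' : (A.map (rename (R := k) (Fin.castLE hsn))).mulVec x = 0 := hx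
    obtain ⟨z, hz⟩ := h2.1 (by
      funext j
      rw [← key, hx']
      simp)
    refine ⟨fun i => e.symm (z i), ?_⟩
    show (B.map _).mulVec _ = x
    funext j
    apply e.injective
    rw [key, ← congrFun hz j]
    simp

end Run7.h869
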