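import Mathlib

/-!
Leading indices of subspaces of coordinate spaces, and growth of sets of exponents.
-/

set_option autoImplicit false

namespace Run7.h869

section Lead

variable {K : Type*} [Field K] {ι Λ : Type*} [Fintype ι] [LinearOrder Λ]

open Classical in
/-- leading indices of a subspace -/
noncomputable def ld (ω : ι → Λ) (U : Submodule K (ι → K)) : Finset ι :=
  Finset.univ.filter fun i => ∃ u ∈ U, u i ≠ 0 ∧ ∀ j, ω i < ω j → u j = 0

lemma mem_ld {ω : ι → Λ} {U : Submodule K (ι → K)} {i : ι} :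
    i ∈ ld ω U ↔ ∃ u ∈ U, u i ≠ 0 ∧ ∀ j, ω i < ω j → u j = 0 := by
  classical
  simp [ld]

lemma exists_ld (ω : ι → Λ) {U : Submodule K (ι → K)} {u : ι → K} (hu : u ∈ U) (h0 : u ≠ 0) :
    ∃ i ∈ ld ω U, u i ≠ 0 := by
  classical
  obtain ⟨i, hi, hmax⟩ := Finset.exists_max_image (Finset.univ.filter fun i => u i ≠ 0) ω (by
    by_contra hne
    rw [Finset.not_nonempty_iff_eq_empty, Finset.filter_eq_empty_iff] at hne
    exact h0 (funext fun i => by simpa using hne (Finset.mem_univ i)))
  rw [Finset.mem_filter] at hi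
  refine ⟨i, mem_ld.2 ⟨u, hu, hi.2, fun j hj => ?_⟩, hi.2⟩
  by_contra hne
  exact absurd (hmax j (by simp [hne])) (not_le.2 hj)

lemma finrank_le_ld (ω : ι → Λ) (U : Submodule K (ι → K)) :
    Module.finrank K U ≤ (ld ω U).card := by
  classical
  let L : U →ₗ[K] (ld ω U → K) :=
    { toFun := fun u i => u.1 i.1
      map_add' := fun u v => rfl
      map_smul' := fun c u => rfl }
  have hL : Function.Injective L := by
    rw [injective_iff_map_eq_zero]
    intro u hu
    by_contra hne
    obtain ⟨i, hi, hi2⟩ := exists_ld ω u.2 (fun h => hne (Subtype.ext h))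
    exact hi2 (congrFun hu ⟨i, hi⟩)
  have := LinearMap.finrank_le_finrank_of_injective hL
  simpa using this

lemma ld_le_finrank {ω : ι → Λ} (hω : Function.Injective ω) (U : Submodule K (ι → K)) :
    (ld ω U).card ≤ Module.finrank K U := by
  classical
  have hch : ∀ i : ld ω U, ∃ u ∈ U, u i.1 ≠ 0 ∧ ∀ j, ω i.1 < ω j → u j = 0 :=
    fun i => mem_ld.1 i.2
  choose u u1 u2 u3 using hch
  have hli : LinearIndependent K (fun i : ld ω U => (⟨u i, u1 i⟩ : U)) := by
    rw [Fintype.linearIndependent_iff]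
    intro c hc
    by_contra hne
    push Not at hne
    obtain ⟨i0, hi0⟩ := hne
    obtain ⟨i, hi, hmax⟩ := Finset.exists_max_image
      (Finset.univ.filter fun i : ld ω U => c i ≠ 0) (fun i => ω i.1) ⟨i0, by simp [hi0]⟩
    rw [Finset.mem_filter] at hi
    have h1 := congrFun (congrArg Subtype.val hc) i.1
    have h2 : (∑ j, c j • (⟨u j, u1 j⟩ : U)).1 i.1 = ∑ j, c j * u j i.1 := by
      rw [AddSubmonoidClass.coe_finsetSum, Finset.sum_apply]
      rfl
    rw [h2, Finset.sum_eq_single i] at h1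
    · rcases mul_eq_zero.1 h1 with h | h
      · exact hi.2 h
      · exact u2 i h
    · intro j _ hj
      by_cases hcj : c j = 0
      · rw [hcj, zero_mul]
      · have h3 := hmax j (by simp [hcj])
        have h4 : ω j.1 ≠ ω i.1 := fun h => hj (Subtype.ext (hω h))
        rw [u3 j i.1 (lt_of_le_of_ne h3 h4), mul_zero]
    · intro h
      exact absurd (Finset.mem_univ i) h
  have := hli.fintype_card_le_finrank
  simpa using this

end Lead

section Grow

variable {s : ℕ}

/-- exponents of degree `q` -/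
def Mo (s q : ℕ) : Finset (Fin s →₀ ℕ) := Finset.univ.finsuppAntidiag q

lemma mem_Mo {q : ℕ} {μ : Fin s →₀ ℕ} : μ ∈ Mo s q ↔ ∑ i, μ i = q := by
  simp [Mo]

lemma card_Mo (s q : ℕ) : (Mo s q).card = (s + q - 1).choose q := by
  rw [Mo, Finset.card_finsuppAntidiag_nat_eq_choose, Finset.card_univ, Fintype.card_fin]

/-- exponents of degree `q + a` above a set -/
noncomputable def Up (a q : ℕ) (A : Finset (Fin s →₀ ℕ)) : Finset (Fin s →₀ ℕ) :=
  (Mo s (q + a)).filter fun ν => ∃ μ ∈ A, μ ≤ ν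

lemma Up_sub (a q : ℕ) (A : Finset (Fin s →₀ ℕ)) : Up a q A ⊆ Mo s (q + a) :=
  Finset.filter_subset _ _

lemma add_mem_Mo {q a : ℕ} {μ ν : Fin s →₀ ℕ} (h1 : μ ∈ Mo s q) (h2 : ν ∈ Mo s a) :
    μ + ν ∈ Mo s (q + a) := by
  rw [mem_Mo] at *
  simp only [Finsupp.add_apply, Finset.sum_add_distrib, h1, h2]

lemma single_mem_Mo (i : Fin s) : Finsupp.single i 1 ∈ Mo s 1 := by
  rw [mem_Mo]
  simp [Finsupp.single_apply]

/-- one step of growth, with the equality discussion -/
lemma step_le {q : ℕ} {A : Finset (Fin s →₀ ℕ)} (hA : A ⊆ Mo s q) :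
    (q + s) * A.card ≤ (q + 1) * (Up 1 q A).card ∧
      (A.Nonempty → A ≠ Mo s q → (q + s) * A.card < (q + 1) * (Up 1 q A).card) := by
  classical
  set g : (Fin s →₀ ℕ) × Fin s → (Fin s →₀ ℕ) × Fin s :=
    fun x => (x.1 + Finsupp.single x.2 1, x.2) with hg
  have hginj : Function.Injective g := by
    rintro ⟨μ, i⟩ ⟨ν, j⟩ h
    simp only [hg, Prod.mk.injEq] at h
    obtain ⟨h1, rfl⟩ := h
    simp only [Prod.mk.injEq, and_true]
    exact add_right_cancel h1
  set I := (A ×ˢ (Finset.univ : Finset (Fin s))).image g with hI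
  have hIsub : I ⊆ (Up 1 q A) ×ˢ (Finset.univ : Finset (Fin s)) := by
    intro x hx
    rw [hI, Finset.mem_image] at hx
    obtain ⟨⟨μ, i⟩, h1, rfl⟩ := hx
    rw [Finset.mem_product] at h1 ⊢
    refine ⟨?_, Finset.mem_univ _⟩
    rw [Up, Finset.mem_filter]
    exact ⟨add_mem_Mo (hA h1.1) (single_mem_Mo i), μ, h1.1, by simp [hg]⟩
  have hsumI : ∑ x ∈ I, x.1 x.2 = (q + s) * A.card := by
    rw [hI, Finset.sum_image (fun x _ y _ h => hginj h), Finset.sum_product]
    have : ∀ μ ∈ A, ∑ i : Fin s, (g (μ, i)).1 (g (μ, i)).2 = q + s := by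
      intro μ hμ
      have h1 := mem_Mo.1 (hA hμ)
      have h2 : ∀ i : Fin s, (g (μ, i)).1 (g (μ, i)).2 = μ i + 1 := by
        intro i
        simp [hg]
      rw [Finset.sum_congr rfl fun i _ => h2 i, Finset.sum_add_distrib, h1]
      simp
    rw [Finset.sum_congr rfl this]
    simp [mul_comm]
  have hsumU : ∑ x ∈ (Up 1 q A) ×ˢ (Finset.univ : Finset (Fin s)), x.1 x.2 =
      (q + 1) * (Up 1 q A).card := by
    rw [Finset.sum_product]
    have : ∀ ν ∈ Up 1 q A, ∑ i : Fin s, ν i = q + 1 := fun ν hν => mem_Mo.1 (Up_sub 1 q A hν)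
    rw [Finset.sum_congr rfl this]
    simp [mul_comm]
  refine ⟨?_, ?_⟩
  · rw [← hsumI, ← hsumU]
    exact Finset.sum_le_sum_of_subset hIsub
  · intro hne hfull
    rw [← hsumI, ← hsumU]
    by_contra hno
    have hzero : ∀ x ∈ (Up 1 q A) ×ˢ (Finset.univ : Finset (Fin s)), x ∉ I → x.1 x.2 = 0 := by
      intro x hx hxI
      by_contra hx0
      apply hno
      exact Finset.sum_lt_sum_of_subset hIsub hx hxI (Nat.pos_of_ne_zero hx0)
        (fun _ _ _ => Nat.zero_le _)
    apply hfull
    apply Finset.Subset.antisymm hA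
    intro τ hτ
    obtain ⟨μ, hμ, hmax⟩ := Finset.exists_max_image A (fun μ => ∑ i, min (μ i) (τ i)) hne
    by_cases hμτ : μ = τ
    · rwa [← hμτ]
    exfalso
    have h1 := mem_Mo.1 (hA hμ)
    have h2 := mem_Mo.1 hτ
    have hi : ∃ i, μ i < τ i := by
      by_contra hno
      push Not at hno
      apply hμτ
      have : ∀ i ∈ Finset.univ, τ i = μ i :=
        (Finset.sum_eq_sum_iff_of_le fun i _ => hno i).1 (by rw [h1, h2])
      ext i
      exact (this i (Finset.mem_univ i)).symm
    have hj : ∃ j, τ j < μ j := by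
      by_contra hno
      push Not at hno
      apply hμτ
      have : ∀ i ∈ Finset.univ, μ i = τ i :=
        (Finset.sum_eq_sum_iff_of_le fun i _ => hno i).1 (by rw [h1, h2])
      ext i
      exact this i (Finset.mem_univ i)
    obtain ⟨i, hi⟩ := hi
    obtain ⟨j, hj⟩ := hj
    have hij : i ≠ j := by rintro rfl; omega
    have hUp : μ + Finsupp.single i 1 ∈ Up 1 q A := by
      rw [Up, Finset.mem_filter]
      exact ⟨add_mem_Mo (hA hμ) (single_mem_Mo i), μ, hμ, by simp⟩
    have hval : (μ + Finsupp.single i 1 : Fin s →₀ ℕ) j ≠ 0 := by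
      rw [Finsupp.add_apply]
      omega
    have hmem : ((μ + Finsupp.single i 1, j) : (Fin s →₀ ℕ) × Fin s) ∈ I := by
      by_contra hnot
      exact hval (hzero (μ + Finsupp.single i 1, j)
        (Finset.mem_product.2 ⟨hUp, Finset.mem_univ _⟩) hnot)
    rw [hI, Finset.mem_image] at hmem
    obtain ⟨⟨μ', j'⟩, h3, h4⟩ := hmem
    simp only [hg, Prod.mk.injEq] at h4
    obtain ⟨h4, rfl⟩ := h4
    rw [Finset.mem_product] at h3
    have h5 := hmax μ' h3.1
    have h6 : ∀ l, μ' l + (if l = j' then 1 else 0) = μ l + (if l = i then 1 else 0) := by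
      intro l
      have := DFunLike.congr_fun h4 l
      simp only [Finsupp.add_apply, Finsupp.single_apply] at this
      simpa [eq_comm] using this
    have h7 : ∑ l, min (μ l) (τ l) < ∑ l, min (μ' l) (τ l) := by
      apply Finset.sum_lt_sum
      · intro l _
        have := h6 l
        by_cases hlj : l = j'
        · subst hlj
          simp only [if_true] at this
          split_ifs at this <;> omega
        · simp only [if_neg hlj] at this
          split_ifs at this <;> omega
      · refine ⟨i, Finset.mem_univ _, ?_⟩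
        have := h6 i
        simp only [if_true, if_neg hij] at this
        omega
    exact absurd h5 (not_le.2 h7)

lemma card_Mo_succ (hs : 1 ≤ s) (q : ℕ) :
    (q + s) * (Mo s q).card = (q + 1) * (Mo s (q + 1)).card := by
  rw [card_Mo, card_Mo]
  obtain ⟨s, rfl⟩ : ∃ t, s = t + 1 := ⟨s - 1, by omega⟩
  have h1 : s + 1 + q - 1 = s + q := by omega
  have h2 : s + 1 + (q + 1) - 1 = s + q + 1 := by omega
  rw [h1, h2]
  have h := Nat.add_one_mul_choose_eq (s + q) q
  have h3 : q + (s + 1) = s + q + 1 := by omega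
  rw [h3, h, mul_comm]

lemma Up_succ {a q : ℕ} {A : Finset (Fin s →₀ ℕ)} :
    Up 1 (q + a) (Up a q A) ⊆ Up (a + 1) q A := by
  intro ν hν
  rw [Up, Finset.mem_filter] at hν ⊢
  obtain ⟨h1, μ, h2, h3⟩ := hν
  rw [Up, Finset.mem_filter] at h2
  obtain ⟨h4, μ', h5, h6⟩ := h2
  exact ⟨by rw [← add_assoc]; exact h1, μ', h5, h6.trans h3⟩

lemma card_Mo_pos (hs : 1 ≤ s) (q : ℕ) : 0 < (Mo s q).card := by
  rw [card_Mo]
  exact Nat.choose_pos (by omega)

lemma grow_aux (hs : 1 ≤ s) {q : ℕ} {A : Finset (Fin s →₀ ℕ)} (hA : A ⊆ Mo s q) :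
    (Mo s (q + 1)).card * A.card ≤ (Mo s q).card * (Up 1 q A).card ∧
      (A.Nonempty → A ≠ Mo s q →
        (Mo s (q + 1)).card * A.card < (Mo s q).card * (Up 1 q A).card) := by
  have h1 := card_Mo_succ hs q
  obtain ⟨h2, h3⟩ := step_le hA
  have h4 := card_Mo_pos hs q
  constructor
  · have : (q + 1) * ((Mo s (q + 1)).card * A.card) ≤
        (q + 1) * ((Mo s q).card * (Up 1 q A).card) := by
      calc (q + 1) * ((Mo s (q + 1)).card * A.card) = (Mo s q).card * ((q + s) * A.card) := by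
            rw [← mul_assoc, ← h1]; ring
        _ ≤ (Mo s q).card * ((q + 1) * (Up 1 q A).card) := Nat.mul_le_mul_left _ h2
        _ = _ := by ring
    exact Nat.le_of_mul_le_mul_left this (by omega)
  · intro g1 g2
    have g3 := h3 g1 g2
    have : (q + 1) * ((Mo s (q + 1)).card * A.card) <
        (q + 1) * ((Mo s q).card * (Up 1 q A).card) := by
      calc (q + 1) * ((Mo s (q + 1)).card * A.card) = (Mo s q).card * ((q + s) * A.card) := by
            rw [← mul_assoc, ← h1]; ring
        _ < (Mo s q).card * ((q + 1) * (Up 1 q A).card) := Nat.mul_lt_mul_of_pos_left g3 h4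
        _ = _ := by ring
    exact Nat.lt_of_mul_lt_mul_left this

lemma grow (hs : 1 ≤ s) {q : ℕ} (a : ℕ) {A : Finset (Fin s →₀ ℕ)} (hA : A ⊆ Mo s q)
    (h0 : A.Nonempty) (h1 : A ≠ Mo s q) :
    (Mo s (q + (a + 1))).card * A.card < (Mo s q).card * (Up (a + 1) q A).card := by
  induction a with
  | zero => exact (grow_aux hs hA).2 h0 h1
  | succ a ih =>
    have h2 := (grow_aux hs (Up_sub (a + 1) q A)).1
    have h3 : (Up 1 (q + (a + 1)) (Up (a + 1) q A)).card ≤ (Up (a + 1 + 1) q A).card :=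
      Finset.card_le_card Up_succ
    have h4 := card_Mo_pos hs (q + (a + 1))
    have h5 : (Mo s (q + (a + 1))).card * ((Mo s (q + (a + 1 + 1))).card * A.card) <
        (Mo s (q + (a + 1))).card * ((Mo s q).card * (Up (a + 1 + 1) q A).card) := by
      calc (Mo s (q + (a + 1))).card * ((Mo s (q + (a + 1 + 1))).card * A.card)
          = (Mo s (q + (a + 1 + 1))).card * ((Mo s (q + (a + 1))).card * A.card) := by ring
        _ < (Mo s (q + (a + 1 + 1))).card * ((Mo s q).card * (Up (a + 1) q A).card) :=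
            Nat.mul_lt_mul_of_pos_left ih (card_Mo_pos hs _)
        _ = (Mo s q).card * ((Mo s (q + (a + 1) + 1)).card * (Up (a + 1) q A).card) := by
            rw [← add_assoc q (a + 1) 1]; ring
        _ ≤ (Mo s q).card * ((Mo s (q + (a + 1))).card *
              (Up 1 (q + (a + 1)) (Up (a + 1) q A)).card) := Nat.mul_le_mul_left _ h2
        _ ≤ (Mo s q).card * ((Mo s (q + (a + 1))).card * (Up (a + 1 + 1) q A).card) :=
            Nat.mul_le_mul_left _ (Nat.mul_le_mul_left _ h3)
        _ = _ := by ring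
    exact Nat.lt_of_mul_lt_mul_left h5

end Grow

end Run7.h869
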