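import Mathlib

/-!
The counting lemma over a finite field.
-/

set_option autoImplicit false
set_option linter.unusedSectionVars false

namespace Run7.h869

variable {K : Type*} [Field K] {α ι₁ ι₂ : Type*} [Fintype α] [Fintype ι₁] [Fintype ι₂]

/-- action of one symbol -/
def wk (c : α → ι₁ → ι₂ → ℤ) (κ : α) : (ι₁ → K) →ₗ[K] (ι₂ → K) where
  toFun u := fun ν => ∑ μ, (c κ μ ν : K) * u μ
  map_add' u v := by
    funext ν
    simp only [Pi.add_apply, mul_add, Finset.sum_add_distrib]
  map_smul' r u := by
    funext ν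
    simp only [Pi.smul_apply, smul_eq_mul, RingHom.id_apply, Finset.mul_sum]
    exact Finset.sum_congr rfl fun μ _ => by ring

/-- span of all images -/
def WU (c : α → ι₁ → ι₂ → ℤ) (U : Submodule K (ι₁ → K)) : Submodule K (ι₂ → K) :=
  ⨆ κ, U.map (wk c κ)

/-- the multiplication map attached to a family of matrices -/
def Ph {P Q : ℕ} (c : α → ι₁ → ι₂ → ℤ) (v : Fin P → ι₁ → K) :
    (α → Fin Q → Fin P → K) →ₗ[K] (Fin Q → ι₂ → K) where
  toFun X := fun j => ∑ i, ∑ κ, X κ j i • wk c κ (v i)
  map_add' X Y := by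
    funext j
    simp only [Pi.add_apply, add_smul, Finset.sum_add_distrib]
  map_smul' r X := by
    funext j
    simp only [Pi.smul_apply, smul_eq_mul, RingHom.id_apply, Finset.smul_sum, mul_smul]

lemma Ph_apply {P Q : ℕ} (c : α → ι₁ → ι₂ → ℤ) (v : Fin P → ι₁ → K)
    (X : α → Fin Q → Fin P → K) (j : Fin Q) :
    Ph c v X j = ∑ i, ∑ κ, X κ j i • wk c κ (v i) := rfl

lemma WU_span {P : ℕ} (c : α → ι₁ → ι₂ → ℤ) (v : Fin P → ι₁ → K) :
    WU c (Submodule.span K (Set.range v)) =
      Submodule.span K (Set.range fun x : α × Fin P => wk c x.1 (v x.2)) := by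
  apply le_antisymm
  · refine iSup_le fun κ => ?_
    rw [Submodule.map_span, Submodule.span_le]
    rintro _ ⟨_, ⟨i, rfl⟩, rfl⟩
    exact Submodule.subset_span ⟨(κ, i), rfl⟩
  · rw [Submodule.span_le]
    rintro _ ⟨⟨κ, i⟩, rfl⟩
    exact Submodule.mem_iSup_of_mem κ
      (Submodule.mem_map_of_mem (Submodule.subset_span ⟨i, rfl⟩))

lemma Ph_mem {P Q : ℕ} (c : α → ι₁ → ι₂ → ℤ) (v : Fin P → ι₁ → K)
    (X : α → Fin Q → Fin P → K) (j : Fin Q) :
    Ph c v X j ∈ WU c (Submodule.span K (Set.range v)) := by
  rw [Ph_apply]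
  refine Submodule.sum_mem _ fun i _ => Submodule.sum_mem _ fun κ _ => Submodule.smul_mem _ _ ?_
  exact Submodule.mem_iSup_of_mem κ
    (Submodule.mem_map_of_mem (Submodule.subset_span ⟨i, rfl⟩))

/-- corestriction -/
def Ph' {P Q : ℕ} (c : α → ι₁ → ι₂ → ℤ) (v : Fin P → ι₁ → K) :
    (α → Fin Q → Fin P → K) →ₗ[K] (Fin Q → WU c (Submodule.span K (Set.range v))) where
  toFun X := fun j => ⟨Ph c v X j, Ph_mem c v X j⟩
  map_add' X Y := by
    funext j
    apply Subtype.ext
    show Ph c v (X + Y) j = Ph c v X j + Ph c v Y j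
    rw [map_add]; rfl
  map_smul' r X := by
    funext j
    apply Subtype.ext
    show Ph c v (r • X) j = r • Ph c v X j
    rw [map_smul]; rfl

lemma Ph'_surj {P Q : ℕ} (c : α → ι₁ → ι₂ → ℤ) (v : Fin P → ι₁ → K) :
    Function.Surjective (Ph' (Q := Q) c v) := by
  intro z
  have hz : ∀ j, ∃ x : α × Fin P → K, ∑ y, x y • wk c y.1 (v y.2) = (z j).1 := by
    intro j
    have h0 : ∀ w ∈ WU c (Submodule.span K (Set.range v)),
        ∃ x : α × Fin P → K, ∑ y, x y • wk c y.1 (v y.2) = w := by
      intro w hw
      rw [WU_span, Submodule.mem_span_range_iff_exists_fun] at hw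
      exact hw
    exact h0 _ (z j).2
  choose x hx using hz
  refine ⟨fun κ j i => x j (κ, i), ?_⟩
  funext j
  apply Subtype.ext
  show Ph c v _ j = _
  rw [Ph_apply, ← hx j, Fintype.sum_prod_type, Finset.sum_comm]

lemma card_ker [Finite K] {P Q : ℕ} (c : α → ι₁ → ι₂ → ℤ) (v : Fin P → ι₁ → K) :
    Nat.card (α → Fin Q → Fin P → K) =
      Nat.card {X : α → Fin Q → Fin P → K // Ph c v X = 0} *
        Nat.card K ^ (Q * Module.finrank K (WU c (Submodule.span K (Set.range v)))) := by
  have h1 := Submodule.card_eq_card_quotient_mul_card (LinearMap.ker (Ph' (Q := Q) c v))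
  have h2 : Nat.card ((α → Fin Q → Fin P → K) ⧸ LinearMap.ker (Ph' (Q := Q) c v)) =
      Nat.card (Fin Q → WU c (Submodule.span K (Set.range v))) :=
    Nat.card_congr ((Ph' (Q := Q) c v).quotKerEquivOfSurjective (Ph'_surj c v)).toEquiv
  have h3 : Nat.card (Fin Q → WU c (Submodule.span K (Set.range v))) =
      Nat.card K ^ (Q * Module.finrank K (WU c (Submodule.span K (Set.range v)))) := by
    rw [Nat.card_fun, Module.natCard_eq_pow_finrank (K := K), ← pow_mul, mul_comm]
    simp
  have h4 : Nat.card (LinearMap.ker (Ph' (Q := Q) c v)) =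
      Nat.card {X : α → Fin Q → Fin P → K // Ph c v X = 0} := by
    refine Nat.card_congr (Equiv.subtypeEquivRight fun X => ?_)
    rw [LinearMap.mem_ker]
    constructor
    · intro h
      funext j
      exact congrArg Subtype.val (congrFun h j)
    · intro h
      funext j
      exact Subtype.ext (congrFun h j)
  rw [h1, h2, h3, h4, mul_comm]

open Classical in
/-- the counting lemma -/
theorem count_exists [Finite K] (hK : 3 ≤ Nat.card K) (c : α → ι₁ → ι₂ → ℤ)
    (h1 : 0 < Fintype.card ι₁)
    (htop : WU c (⊤ : Submodule K (ι₁ → K)) = ⊤)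
    (hgrow : ∀ U : Submodule K (ι₁ → K), U ≠ ⊥ → U ≠ ⊤ →
      Fintype.card ι₂ * Module.finrank K U < Fintype.card ι₁ * Module.finrank K (WU c U)) :
    ∃ N : ℕ, ∀ Q : ℕ, N ≤ Q → ∀ P : ℕ, P * Fintype.card ι₁ = Q * Fintype.card ι₂ →
      ∃ X : α → Fin Q → Fin P → K, ∀ v : Fin P → ι₁ → K, Ph c v X = 0 → v = 0 := by
  have : Fintype K := Fintype.ofFinite K
  have : Finite (Submodule K (ι₁ → K)) :=
    Finite.of_injective (fun U : Submodule K (ι₁ → K) => (U : Set (ι₁ → K))) SetLike.coe_injective
  have : Fintype (Submodule K (ι₁ → K)) := Fintype.ofFinite _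
  set q := Nat.card K with hq
  set C := Fintype.card (Submodule K (ι₁ → K)) with hC
  obtain ⟨t, ht⟩ : ∃ t : ℕ, C < q ^ t := ⟨C, Nat.lt_pow_self (by omega)⟩
  refine ⟨Fintype.card ι₁ * t, fun Q hQ P hPQ => ?_⟩
  by_contra hno
  push Not at hno
  -- total count
  set XX := (α → Fin Q → Fin P → K) with hXX
  set VV := (Fin P → ι₁ → K) with hVV
  have hq0 : (0 : ℚ) < q := by
    have : 0 < q := by omega
    exact_mod_cast this
  have hX0 : (0 : ℚ) < Nat.card XX := by
    have : 0 < Nat.card XX := Nat.card_pos
    exact_mod_cast this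
  have hNv : ∀ v : VV, ((Finset.univ.filter fun X : XX => Ph c v X = 0).card : ℚ) =
      Nat.card XX / (q : ℚ) ^ (Q * Module.finrank K (WU c (Submodule.span K (Set.range v)))) := by
    intro v
    have h2 := card_ker (Q := Q) c v
    rw [Nat.card_eq_fintype_card (α := {X : α → Fin Q → Fin P → K // Ph c v X = 0}),
      Fintype.card_subtype] at h2
    rw [eq_div_iff (pow_ne_zero _ hq0.ne')]
    exact_mod_cast h2.symm
  have hlow : ∀ X : XX, q - 1 ≤ (Finset.univ.filter fun v : VV => v ≠ 0 ∧ Ph c v X = 0).card := by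
    intro X
    obtain ⟨v, hv1, hv2⟩ := hno X
    have hsm : ∀ r : K, Ph c (r • v) X = r • Ph c v X := by
      intro r
      funext j
      rw [Pi.smul_apply, Ph_apply, Ph_apply, Finset.smul_sum]
      refine Finset.sum_congr rfl fun i _ => ?_
      rw [Finset.smul_sum]
      refine Finset.sum_congr rfl fun κ _ => ?_
      rw [Pi.smul_apply, map_smul, smul_comm]
    have hinj : Function.Injective fun r : K => r • v := by
      intro r r' h
      have h3 : (r - r') • v = 0 := by
        rw [sub_smul]; exact sub_eq_zero.2 h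
      rcases smul_eq_zero.1 h3 with h4 | h4
      · exact sub_eq_zero.1 h4
      · exact absurd h4 hv2
    have hsub : ((Finset.univ : Finset K).erase 0).image (fun r : K => r • v) ⊆
        (Finset.univ.filter fun v : VV => v ≠ 0 ∧ Ph c v X = 0) := by
      intro w hw
      rw [Finset.mem_image] at hw
      obtain ⟨r, hr, rfl⟩ := hw
      rw [Finset.mem_erase] at hr
      rw [Finset.mem_filter]
      refine ⟨Finset.mem_univ _, smul_ne_zero hr.1 hv2, ?_⟩
      rw [hsm, hv1, smul_zero]
    have h5 := Finset.card_le_card hsub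
    rw [Finset.card_image_of_injective _ hinj, Finset.card_erase_of_mem (Finset.mem_univ _),
      Finset.card_univ, ← Nat.card_eq_fintype_card] at h5
    exact h5
  have hdouble : ∑ X : XX, (Finset.univ.filter fun v : VV => v ≠ 0 ∧ Ph c v X = 0).card =
      ∑ v ∈ (Finset.univ : Finset VV).filter (fun v => v ≠ 0),
        (Finset.univ.filter fun X : XX => Ph c v X = 0).card := by
    simp only [Finset.card_filter]
    rw [Finset.sum_filter, Finset.sum_comm]
    refine Finset.sum_congr rfl fun v _ => ?_
    by_cases hv : v = 0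
    · simp [hv]
    · simp [hv]
  have htot : ((q : ℚ) - 1) * Nat.card XX ≤
      ∑ v ∈ (Finset.univ : Finset VV).filter (fun v => v ≠ 0),
        ((Finset.univ.filter fun X : XX => Ph c v X = 0).card : ℚ) := by
    have h6 : (q - 1) * Nat.card XX ≤
        ∑ X : XX, (Finset.univ.filter fun v : VV => v ≠ 0 ∧ Ph c v X = 0).card := by
      calc (q - 1) * Nat.card XX = ∑ X : XX, (q - 1) := by
            rw [Finset.sum_const, Finset.card_univ, Nat.card_eq_fintype_card, smul_eq_mul,
              mul_comm]
        _ ≤ _ := Finset.sum_le_sum fun X _ => hlow X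
    rw [hdouble] at h6
    have h7 : ((q - 1 : ℕ) : ℚ) = (q : ℚ) - 1 := by
      rw [Nat.cast_sub (by omega)]; simp
    rw [← h7]
    exact_mod_cast h6
  -- upper bound
  have hfib : ∀ U : Submodule K (ι₁ → K),
      (((Finset.univ : Finset VV).filter
        (fun v => Submodule.span K (Set.range v) = U)).card : ℚ) ≤
        (q : ℚ) ^ (P * Module.finrank K U) := by
    intro U
    have h8 : Fintype.card {v : VV // Submodule.span K (Set.range v) = U} ≤
        Nat.card (Fin P → U) := by
      rw [← Nat.card_eq_fintype_card]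
      refine Nat.card_le_card_of_injective
        (fun v : {v : VV // Submodule.span K (Set.range v) = U} =>
          fun i => (⟨v.1 i, v.2.le (Submodule.subset_span ⟨i, rfl⟩)⟩ : U)) ?_
      intro v w h
      apply Subtype.ext
      funext i
      exact congrArg Subtype.val (congrFun h i)
    rw [Fintype.card_subtype, Nat.card_fun, Module.natCard_eq_pow_finrank (K := K), ← pow_mul,
      mul_comm (Module.finrank K U)] at h8
    simp only [Nat.card_eq_fintype_card, Fintype.card_fin] at h8
    rw [hq, Nat.card_eq_fintype_card]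
    exact_mod_cast h8
  have hup : ∑ v ∈ (Finset.univ : Finset VV).filter (fun v => v ≠ 0),
        ((Finset.univ.filter fun X : XX => Ph c v X = 0).card : ℚ) ≤
      ∑ U ∈ (Finset.univ : Finset (Submodule K (ι₁ → K))).filter (fun U => U ≠ ⊥),
        Nat.card XX * ((q : ℚ) ^ (P * Module.finrank K U) /
          (q : ℚ) ^ (Q * Module.finrank K (WU c U))) := by
    rw [← Finset.sum_fiberwise_of_maps_to (s := (Finset.univ : Finset VV).filter (fun v => v ≠ 0))
      (t := (Finset.univ : Finset (Submodule K (ι₁ → K))).filter (fun U => U ≠ ⊥))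
      (g := fun v : VV => Submodule.span K (Set.range v))]
    · refine Finset.sum_le_sum fun U _ => ?_
      calc ∑ v ∈ ((Finset.univ : Finset VV).filter (fun v => v ≠ 0)).filter
              (fun v => Submodule.span K (Set.range v) = U),
            ((Finset.univ.filter fun X : XX => Ph c v X = 0).card : ℚ)
          = ∑ v ∈ ((Finset.univ : Finset VV).filter (fun v => v ≠ 0)).filter
              (fun v => Submodule.span K (Set.range v) = U),
            (Nat.card XX / (q : ℚ) ^ (Q * Module.finrank K (WU c U))) := by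
            refine Finset.sum_congr rfl fun v hv => ?_
            rw [Finset.mem_filter] at hv
            rw [hNv, hv.2]
        _ ≤ ∑ v ∈ (Finset.univ : Finset VV).filter
              (fun v => Submodule.span K (Set.range v) = U),
            (Nat.card XX / (q : ℚ) ^ (Q * Module.finrank K (WU c U))) := by
            refine Finset.sum_le_sum_of_subset_of_nonneg ?_ (fun _ _ _ => by positivity)
            intro v hv
            rw [Finset.mem_filter] at hv ⊢
            exact ⟨Finset.mem_univ _, hv.2⟩
        _ = ((Finset.univ : Finset VV).filter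
              (fun v => Submodule.span K (Set.range v) = U)).card *
            (Nat.card XX / (q : ℚ) ^ (Q * Module.finrank K (WU c U))) := by
            rw [Finset.sum_const, nsmul_eq_mul]
        _ ≤ (q : ℚ) ^ (P * Module.finrank K U) *
            (Nat.card XX / (q : ℚ) ^ (Q * Module.finrank K (WU c U))) :=
            mul_le_mul_of_nonneg_right (hfib U) (by positivity)
        _ = _ := by ring
    · intro v hv
      rw [Finset.mem_filter] at hv ⊢
      refine ⟨Finset.mem_univ _, fun h => hv.2 ?_⟩
      rw [Submodule.span_eq_bot] at h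
      funext i
      exact h _ ⟨i, rfl⟩
  have hterm : ∀ U : Submodule K (ι₁ → K), U ≠ ⊥ → U ≠ ⊤ →
      (q : ℚ) ^ (P * Module.finrank K U) / (q : ℚ) ^ (Q * Module.finrank K (WU c U)) ≤
        1 / (q : ℚ) ^ t := by
    intro U hU1 hU2
    have h9 := hgrow U hU1 hU2
    have h10 : P * Module.finrank K U + t ≤ Q * Module.finrank K (WU c U) := by
      have h11 : Fintype.card ι₁ * (P * Module.finrank K U + t) ≤
          Fintype.card ι₁ * (Q * Module.finrank K (WU c U)) := by
        calc Fintype.card ι₁ * (P * Module.finrank K U + t)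
            = (P * Fintype.card ι₁) * Module.finrank K U + Fintype.card ι₁ * t := by ring
          _ = Q * (Fintype.card ι₂ * Module.finrank K U) + Fintype.card ι₁ * t := by
              rw [hPQ]; ring
          _ ≤ Q * (Fintype.card ι₂ * Module.finrank K U) + Q := by omega
          _ = Q * (Fintype.card ι₂ * Module.finrank K U + 1) := by ring
          _ ≤ Q * (Fintype.card ι₁ * Module.finrank K (WU c U)) := Nat.mul_le_mul_left _ h9
          _ = _ := by ring
      exact Nat.le_of_mul_le_mul_left h11 h1
    rw [div_le_div_iff₀ (by positivity) (by positivity), one_mul, ← pow_add]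
    exact pow_le_pow_right₀ (by
      have : 1 ≤ q := by omega
      exact_mod_cast this) h10
  have htopt : (q : ℚ) ^ (P * Module.finrank K (⊤ : Submodule K (ι₁ → K))) /
      (q : ℚ) ^ (Q * Module.finrank K (WU c (⊤ : Submodule K (ι₁ → K)))) = 1 := by
    rw [htop]
    simp only [finrank_top, Module.finrank_fintype_fun_eq_card]
    rw [hPQ, div_self (pow_ne_zero _ hq0.ne')]
  have hfin : ∑ U ∈ (Finset.univ : Finset (Submodule K (ι₁ → K))).filter (fun U => U ≠ ⊥),
        Nat.card XX * ((q : ℚ) ^ (P * Module.finrank K U) /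
          (q : ℚ) ^ (Q * Module.finrank K (WU c U))) ≤
      Nat.card XX * (1 + C * (1 / (q : ℚ) ^ t)) := by
    rw [← Finset.mul_sum]
    refine mul_le_mul_of_nonneg_left ?_ hX0.le
    calc ∑ U ∈ (Finset.univ : Finset (Submodule K (ι₁ → K))).filter (fun U => U ≠ ⊥),
          ((q : ℚ) ^ (P * Module.finrank K U) / (q : ℚ) ^ (Q * Module.finrank K (WU c U)))
        ≤ ∑ U ∈ (Finset.univ : Finset (Submodule K (ι₁ → K))).filter (fun U => U ≠ ⊥),
          ((if U = ⊤ then (1 : ℚ) else 0) + 1 / (q : ℚ) ^ t) := by
          refine Finset.sum_le_sum fun U hU => ?_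
          rw [Finset.mem_filter] at hU
          by_cases hUt : U = ⊤
          · subst hUt
            rw [htopt, if_pos rfl]
            have : (0 : ℚ) ≤ 1 / (q : ℚ) ^ t := by positivity
            linarith
          · rw [if_neg hUt, zero_add]
            exact hterm U hU.2 hUt
      _ ≤ ∑ U : Submodule K (ι₁ → K), ((if U = ⊤ then (1 : ℚ) else 0) + 1 / (q : ℚ) ^ t) := by
          refine Finset.sum_le_sum_of_subset_of_nonneg (Finset.filter_subset _ _) ?_
          intro U _ _
          split_ifs <;> positivity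
      _ = 1 + C * (1 / (q : ℚ) ^ t) := by
          rw [Finset.sum_add_distrib, Finset.sum_ite_eq' Finset.univ (⊤ : Submodule K (ι₁ → K)),
            if_pos (Finset.mem_univ _), Finset.sum_const, nsmul_eq_mul, Finset.card_univ]
  have hlt : (C : ℚ) * (1 / (q : ℚ) ^ t) < 1 := by
    rw [mul_one_div, div_lt_one (by positivity)]
    exact_mod_cast ht
  have h12 := htot.trans (hup.trans hfin)
  have h13 : ((q : ℚ) - 1) ≥ 2 := by
    have : (3 : ℚ) ≤ q := by exact_mod_cast hK
    linarith
  nlinarith

end Run7.h869
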