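import Mathlib
import Pool.Agent.Run7.h869.Count

/-!
Transfer of the counting lemma to all fields.
-/

set_option autoImplicit false
set_option linter.unusedSectionVars false

namespace Run7.h869

variable {α ι₁ ι₂ : Type*} [Fintype α] [Fintype ι₁] [Fintype ι₂]

/-- there are matrices such that the multiplication map is injective -/
def Good (c : α → ι₁ → ι₂ → ℤ) (K : Type*) [Field K] (B A : Type*) [Fintype A] : Prop :=
  ∃ X : α → B → A → K, ∀ v : A → ι₁ → K,
    (∀ j ν, ∑ i, ∑ κ, ∑ μ, X κ j i * ((c κ μ ν : K) * v i μ) = 0) → v = 0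

lemma Ph_val {K : Type*} [Field K] {P Q : ℕ} (c : α → ι₁ → ι₂ → ℤ) (v : Fin P → ι₁ → K)
    (X : α → Fin Q → Fin P → K) (j : Fin Q) (ν : ι₂) :
    Ph c v X j ν = ∑ i, ∑ κ, ∑ μ, X κ j i * ((c κ μ ν : K) * v i μ) := by
  rw [Ph_apply]
  simp only [Finset.sum_apply, Pi.smul_apply, smul_eq_mul]
  refine Finset.sum_congr rfl fun i _ => Finset.sum_congr rfl fun κ _ => ?_
  rw [← Finset.mul_sum]
  rfl

lemma good_count {K : Type*} [Field K] [Finite K] (hK : 3 ≤ Nat.card K) (c : α → ι₁ → ι₂ → ℤ)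
    (h1 : 0 < Fintype.card ι₁)
    (htop : WU c (⊤ : Submodule K (ι₁ → K)) = ⊤)
    (hgrow : ∀ U : Submodule K (ι₁ → K), U ≠ ⊥ → U ≠ ⊤ →
      Fintype.card ι₂ * Module.finrank K U < Fintype.card ι₁ * Module.finrank K (WU c U)) :
    ∃ N : ℕ, ∀ Q : ℕ, N ≤ Q → ∀ P : ℕ, P * Fintype.card ι₁ = Q * Fintype.card ι₂ →
      Good c K (Fin Q) (Fin P) := by
  obtain ⟨N, hN⟩ := count_exists hK c h1 htop hgrow
  refine ⟨N, fun Q hQ P hPQ => ?_⟩
  obtain ⟨X, hX⟩ := hN Q hQ P hPQ
  refine ⟨X, fun v hv => hX v ?_⟩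
  funext j ν
  rw [Ph_val]
  exact hv j ν

lemma Good.reindex {c : α → ι₁ → ι₂ → ℤ} {K : Type*} [Field K] {B A B' A' : Type*} [Fintype A]
    [Fintype A'] (eB : B ≃ B') (eA : A ≃ A') (h : Good c K B A) : Good c K B' A' := by
  obtain ⟨X, hX⟩ := h
  refine ⟨fun κ j i => X κ (eB.symm j) (eA.symm i), fun v hv => ?_⟩
  have h1 := hX (fun i => v (eA i)) (by
    intro j ν
    have h2 := hv (eB j) ν
    rw [← Equiv.sum_comp eA] at h2
    simpa using h2)
  funext i
  have h3 := congrFun h1 (eA.symm i)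
  simpa using h3

lemma Good.sum {c : α → ι₁ → ι₂ → ℤ} {K : Type*} [Field K] {B A B' A' : Type*} [Fintype A]
    [Fintype A'] (h : Good c K B A) (h' : Good c K B' A') : Good c K (B ⊕ B') (A ⊕ A') := by
  obtain ⟨X, hX⟩ := h
  obtain ⟨X', hX'⟩ := h'
  refine ⟨fun κ j i => match j, i with
    | Sum.inl j, Sum.inl i => X κ j i
    | Sum.inr j, Sum.inr i => X' κ j i
    | Sum.inl _, Sum.inr _ => 0
    | Sum.inr _, Sum.inl _ => 0, fun v hv => ?_⟩
  have h1 := hX (fun i => v (Sum.inl i)) (by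
    intro j ν
    have h2 := hv (Sum.inl j) ν
    simpa [Fintype.sum_sum_type] using h2)
  have h1' := hX' (fun i => v (Sum.inr i)) (by
    intro j ν
    have h2 := hv (Sum.inr j) ν
    simpa [Fintype.sum_sum_type] using h2)
  funext i
  rcases i with i | i
  · exact congrFun h1 i
  · exact congrFun h1' i

lemma Good.map {c : α → ι₁ → ι₂ → ℤ} {K L : Type*} [Field K] [Field L] {B A : Type*} [Fintype A]
    (f : K ≃+* L) (h : Good c K B A) : Good c L B A := by
  obtain ⟨X, hX⟩ := h
  refine ⟨fun κ j i => f (X κ j i), fun v hv => ?_⟩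
  have h1 := hX (fun i μ => f.symm (v i μ)) (by
    intro j ν
    apply f.injective
    rw [map_zero, ← hv j ν]
    simp only [map_sum, map_mul, map_intCast, RingEquiv.apply_symm_apply])
  funext i μ
  have h2 := congrFun (congrFun h1 i) μ
  apply f.symm.injective
  rw [h2]
  simp

lemma Good.restrict {c : α → ι₁ → ι₂ → ℤ} {k K : Type*} [Field k] [Field K] [Algebra k K]
    {r : ℕ} (b : Module.Basis (Fin r) k K) {B A : Type*} [Fintype A]
    (h : Good c K B A) : Good c k (B × Fin r) (A × Fin r) := by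
  obtain ⟨X, hX⟩ := h
  refine ⟨fun κ j i => b.repr (X κ j.1 i.1 * b i.2) j.2, fun v hv => ?_⟩
  have h1 := hX (fun i μ => ∑ l, v (i, l) μ • b l) (by
    intro j ν
    apply b.repr.injective
    ext l
    rw [map_zero, Finsupp.zero_apply]
    have h2 := hv (j, l) ν
    rw [← h2]
    simp only [map_sum, Finsupp.finsetSum_apply]
    rw [Fintype.sum_prod_type]
    refine Finset.sum_congr rfl fun i _ => ?_
    refine Eq.trans ?_ Finset.sum_comm
    refine Finset.sum_congr rfl fun κ _ => ?_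
    refine Eq.trans ?_ Finset.sum_comm
    refine Finset.sum_congr rfl fun μ _ => ?_
    have h3 : X κ j i * ((c κ μ ν : K) * ∑ l, v (i, l) μ • b l) =
        ∑ l, ((c κ μ ν : k) * v (i, l) μ) • (X κ j i * b l) := by
      rw [Finset.mul_sum, Finset.mul_sum]
      refine Finset.sum_congr rfl fun l _ => ?_
      rw [Algebra.smul_def, Algebra.smul_def, map_mul, map_intCast]
      ring
    rw [h3, map_sum, Finsupp.finsetSum_apply]
    refine Finset.sum_congr rfl fun l' _ => ?_
    rw [map_smul, Finsupp.smul_apply, smul_eq_mul]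
    ring)
  funext x μ
  have h4 : ∑ l, v (x.1, l) μ • b l = 0 := congrFun (congrFun h1 x.1) μ
  exact Fintype.linearIndependent_iff.1 b.linearIndependent (fun l => v (x.1, l) μ) h4 x.2

/-- the matrix of the multiplication map -/
def GM {R : Type*} [CommRing R] {B A : Type*} (c : α → ι₁ → ι₂ → ℤ) (X : α → B → A → R) :
    Matrix (ι₂ × B) (ι₁ × A) R :=
  fun y x => ∑ κ, X κ y.2 x.2 * (c κ x.1 y.1 : R)

lemma good_iff_det {K : Type*} [Field K] {B A : Type*} [Fintype A] [Fintype B]
    [DecidableEq ι₁] [DecidableEq A]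
    (c : α → ι₁ → ι₂ → ℤ) (e : ι₁ × A ≃ ι₂ × B) (X : α → B → A → K) :
    (∀ v : A → ι₁ → K,
      (∀ j ν, ∑ i, ∑ κ, ∑ μ, X κ j i * ((c κ μ ν : K) * v i μ) = 0) → v = 0) ↔
      ((GM c X).submatrix e id).det ≠ 0 := by
  have key : ∀ (w : ι₁ × A → K) (y : ι₂ × B), (GM c X).mulVec w y =
      ∑ i, ∑ κ, ∑ μ, X κ y.2 i * ((c κ μ y.1 : K) * w (μ, i)) := by
    intro w y
    show ∑ x, GM c X y x * w x = _
    rw [Fintype.sum_prod_type, Finset.sum_comm]
    refine Finset.sum_congr rfl fun i _ => ?_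
    rw [Finset.sum_comm (f := fun κ μ => X κ y.2 i * ((c κ μ y.1 : K) * w (μ, i)))]
    refine Finset.sum_congr rfl fun μ _ => ?_
    show (∑ κ, X κ y.2 i * (c κ μ y.1 : K)) * w (μ, i) = _
    rw [Finset.sum_mul]
    exact Finset.sum_congr rfl fun κ _ => by ring
  rw [Ne, ← Matrix.exists_mulVec_eq_zero_iff, not_exists]
  constructor
  · intro h w hw
    apply hw.1
    have h1 := h (fun i μ => w (μ, i)) (by
      intro j ν
      rw [← key w (ν, j)]
      have h2 := congrFun hw.2 (e.symm (ν, j))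
      have h3 : ((GM c X).submatrix e id).mulVec w (e.symm (ν, j)) =
          (GM c X).mulVec w (e (e.symm (ν, j))) := rfl
      rw [h3, Equiv.apply_symm_apply] at h2
      exact h2)
    funext x
    exact congrFun (congrFun h1 x.2) x.1
  · intro h v hv
    by_contra hne
    apply h (fun x => v x.2 x.1)
    refine ⟨fun h0 => hne ?_, ?_⟩
    · funext i μ
      exact congrFun h0 (μ, i)
    · funext x
      have h3 : ((GM c X).submatrix e id).mulVec (fun x => v x.2 x.1) x =
          (GM c X).mulVec (fun x => v x.2 x.1) (e x) := rfl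
      rw [h3, key, hv]
      rfl

/-- generic matrices -/
noncomputable def gX {B A : Type*} : α → B → A → MvPolynomial (α × B × A) ℤ :=
  fun κ j i => MvPolynomial.X (κ, j, i)

lemma det_ev {L : Type*} [Field L] {B A : Type*} [Fintype A] [Fintype B]
    [DecidableEq ι₁] [DecidableEq A]
    (c : α → ι₁ → ι₂ → ℤ) (e : ι₁ × A ≃ ι₂ × B) (Y : α → B → A → L) :
    MvPolynomial.eval₂Hom (Int.castRingHom L) (fun x : α × B × A => Y x.1 x.2.1 x.2.2)
      ((GM c (gX (α := α) (B := B) (A := A))).submatrix e id).det =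
        ((GM c Y).submatrix e id).det := by
  rw [RingHom.map_det]
  congr 1
  ext x y
  rw [RingHom.mapMatrix_apply, Matrix.map_apply, Matrix.submatrix_apply, Matrix.submatrix_apply]
  unfold GM gX
  rw [map_sum]
  refine Finset.sum_congr rfl fun κ _ => ?_
  rw [map_mul, map_intCast, MvPolynomial.coe_eval₂Hom, MvPolynomial.eval₂_X]

/-- transfer from a field to an infinite field of compatible characteristic -/
lemma Good.transfer {c : α → ι₁ → ι₂ → ℤ} {F k : Type*} [Field F] [Field k] [Infinite k]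
    (H : ∀ m : ℤ, (m : k) = 0 → (m : F) = 0) {B A : Type*} [Fintype A] [Fintype B]
    (hcard : Fintype.card ι₁ * Fintype.card A = Fintype.card ι₂ * Fintype.card B)
    (h : Good c F B A) : Good c k B A := by
  classical
  obtain ⟨X, hX⟩ := h
  have e : ι₁ × A ≃ ι₂ × B := Fintype.equivOfCardEq (by simp [hcard])
  rw [good_iff_det c e] at hX
  set D := ((GM c (gX (α := α) (B := B) (A := A))).submatrix e id).det with hD
  have hDk : MvPolynomial.map (Int.castRingHom k) D ≠ 0 := by
    intro h0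
    apply hX
    rw [← det_ev]
    have hco : ∀ m, ((MvPolynomial.coeff m D : ℤ) : F) = 0 := by
      intro m
      apply H
      have := congrArg (MvPolynomial.coeff m) h0
      rwa [MvPolynomial.coeff_map, MvPolynomial.coeff_zero] at this
    rw [MvPolynomial.coe_eval₂Hom, MvPolynomial.eval₂_eq]
    refine Finset.sum_eq_zero fun m _ => ?_
    show ((MvPolynomial.coeff m D : ℤ) : F) * _ = 0
    rw [hco m, zero_mul]
  obtain ⟨Y, hY⟩ : ∃ Y : α × B × A → k,
      MvPolynomial.eval Y (MvPolynomial.map (Int.castRingHom k) D) ≠ 0 := by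
    by_contra hno
    push Not at hno
    exact hDk (MvPolynomial.funext fun Y => by rw [hno Y, map_zero])
  refine ⟨fun κ j i => Y (κ, j, i), ?_⟩
  rw [good_iff_det c e, ← det_ev]
  rw [MvPolynomial.eval_map] at hY
  exact hY

end Run7.h869
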