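import Mathlib
import Pool.Agent.Run7.h869.Trans
import Pool.Agent.Run7.h869.Lead

/-!
Good families of matrices exist over every field, in all large sizes.
-/

set_option autoImplicit false
set_option linter.unusedSectionVars false

namespace Run7.h869

variable {α ι₁ ι₂ : Type*} [Fintype α] [Fintype ι₁] [Fintype ι₂]

theorem good_two (c : α → ι₁ → ι₂ → ℤ) (h1 : 0 < Fintype.card ι₁)
    (htop : ∀ (F : Type) [Field F] [Finite F], WU c (⊤ : Submodule F (ι₁ → F)) = ⊤)
    (hgrow : ∀ (F : Type) [Field F] [Finite F] (U : Submodule F (ι₁ → F)), U ≠ ⊥ → U ≠ ⊤ →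
      Fintype.card ι₂ * Module.finrank F U < Fintype.card ι₁ * Module.finrank F (WU c U)) :
    ∃ N : ℕ, ∀ Q : ℕ, N ≤ Q → ∀ P : ℕ, P * Fintype.card ι₁ = Q * Fintype.card ι₂ →
      Good c (ZMod 2) (Fin Q) (Fin P) := by
  have : Fact (Nat.Prime 2) := ⟨Nat.prime_two⟩
  obtain ⟨N2, hN2⟩ := good_count (K := GaloisField 2 2) (by
    rw [GaloisField.card 2 2 (by norm_num)]; norm_num) c h1 (htop _) (hgrow _)
  obtain ⟨N3, hN3⟩ := good_count (K := GaloisField 2 3) (by
    rw [GaloisField.card 2 3 (by norm_num)]; norm_num) c h1 (htop _) (hgrow _)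
  have b2 : Module.Basis (Fin 2) (ZMod 2) (GaloisField 2 2) :=
    Module.finBasisOfFinrankEq _ _ (GaloisField.finrank 2 (by norm_num))
  have b3 : Module.Basis (Fin 3) (ZMod 2) (GaloisField 2 3) :=
    Module.finBasisOfFinrankEq _ _ (GaloisField.finrank 2 (by norm_num))
  set M := N2 + N3 with hM
  refine ⟨Fintype.card ι₁ * (5 * M + 3), fun Q hQ P hPQ => ?_⟩
  obtain ⟨g, a, b, hg, hab, ha, hb⟩ : ∃ g a b : ℕ, 0 < g ∧ Nat.Coprime a b ∧
      Fintype.card ι₁ = a * g ∧ Fintype.card ι₂ = b * g := by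
    have hg : 0 < Nat.gcd (Fintype.card ι₁) (Fintype.card ι₂) := Nat.gcd_pos_of_pos_left _ h1
    obtain ⟨g, a, b, h2, h3, h4, h5⟩ := Nat.exists_coprime' hg
    exact ⟨g, a, b, h2, h3, h4, h5⟩
  have ha0 : 0 < a := by
    rcases Nat.eq_zero_or_pos a with h | h
    · rw [ha, h, zero_mul] at h1; omega
    · exact h
  have hPQ' : P * a = Q * b := by
    have h6 : (P * a) * g = (Q * b) * g := by
      rw [mul_assoc, mul_assoc, ← ha, ← hb]; exact hPQ
    exact Nat.eq_of_mul_eq_mul_right hg h6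
  obtain ⟨m, rfl⟩ : a ∣ Q := by
    apply hab.dvd_of_dvd_mul_right
    exact ⟨P, by rw [← hPQ']; ring⟩
  have hP : P = b * m := by
    have h7 : P * a = (b * m) * a := by rw [hPQ']; ring
    exact Nat.eq_of_mul_eq_mul_right ha0 h7
  subst hP
  have hm : 5 * M + 3 ≤ m := by
    have h8 : a * (5 * M + 3) ≤ a * m := by
      calc a * (5 * M + 3) ≤ (a * g) * (5 * M + 3) :=
            Nat.mul_le_mul_right _ (Nat.le_mul_of_pos_right a hg)
        _ ≤ a * m := by rw [← ha]; exact hQ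
    exact Nat.le_of_mul_le_mul_left h8 ha0
  obtain ⟨m1, m2, hm12, hm1, hm2⟩ : ∃ m1 m2 : ℕ, m = 2 * m1 + 3 * m2 ∧ M ≤ m1 ∧ M ≤ m2 := by
    rcases Nat.even_or_odd (m - 3 * M) with h | h
    · obtain ⟨r, hr⟩ := h
      exact ⟨r, M, by omega, by omega, le_refl _⟩
    · obtain ⟨r, hr⟩ := h
      exact ⟨r - 1, M + 1, by omega, by omega, by omega⟩
  have g2 := (hN2 (a * m1) (by
    calc N2 ≤ m1 := by omega
      _ ≤ a * m1 := Nat.le_mul_of_pos_left _ ha0) (b * m1) (by
    rw [ha, hb]; ring)).restrict b2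
  have g3 := (hN3 (a * m2) (by
    calc N3 ≤ m2 := by omega
      _ ≤ a * m2 := Nat.le_mul_of_pos_left _ ha0) (b * m2) (by
    rw [ha, hb]; ring)).restrict b3
  have e1 : ((Fin (a * m1) × Fin 2) ⊕ (Fin (a * m2) × Fin 3)) ≃ Fin (a * m) :=
    Fintype.equivOfCardEq (by simp [hm12]; ring)
  have e2 : ((Fin (b * m1) × Fin 2) ⊕ (Fin (b * m2) × Fin 3)) ≃ Fin (b * m) :=
    Fintype.equivOfCardEq (by simp [hm12]; ring)
  exact (g2.sum g3).reindex e1 e2

theorem good_all (c : α → ι₁ → ι₂ → ℤ) (h1 : 0 < Fintype.card ι₁)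
    (htop : ∀ (F : Type) [Field F] [Finite F], WU c (⊤ : Submodule F (ι₁ → F)) = ⊤)
    (hgrow : ∀ (F : Type) [Field F] [Finite F] (U : Submodule F (ι₁ → F)), U ≠ ⊥ → U ≠ ⊤ →
      Fintype.card ι₂ * Module.finrank F U < Fintype.card ι₁ * Module.finrank F (WU c U))
    (k : Type) [Field k] :
    ∃ N : ℕ, ∀ Q : ℕ, N ≤ Q → ∀ P : ℕ, P * Fintype.card ι₁ = Q * Fintype.card ι₂ →
      Good c k (Fin Q) (Fin P) := by
  rcases finite_or_infinite k with hk | hk
  · by_cases h3 : 3 ≤ Nat.card k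
    · exact good_count h3 c h1 (htop _) (hgrow _)
    · have h4 : Nat.card k = 2 := by
        have := Finite.one_lt_card (α := k)
        omega
      have : Fact (Nat.Prime 2) := ⟨Nat.prime_two⟩
      have : Fintype k := Fintype.ofFinite k
      have : CharP k 2 := by
        obtain ⟨p, hp⟩ := CharP.exists k
        obtain ⟨m, hp', hm⟩ := FiniteField.card k p
        rw [Nat.card_eq_fintype_card, hm] at h4
        have h5 : p ∣ 2 := by
          rw [← h4]
          exact dvd_pow_self _ m.pos.ne'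
        rwa [(Nat.prime_dvd_prime_iff_eq hp' Nat.prime_two).1 h5] at hp
      have e : ZMod 2 ≃+* k := ZMod.ringEquiv k (by rw [← Nat.card_eq_fintype_card]; exact h4)
      obtain ⟨N, hN⟩ := good_two c h1 htop hgrow
      exact ⟨N, fun Q hQ P hPQ => (hN Q hQ P hPQ).map e⟩
  · obtain ⟨p, hp⟩ := CharP.exists k
    rcases Nat.eq_zero_or_pos p with h0 | h0
    · subst h0
      have : CharZero k := CharP.charP_to_charZero k
      have : Fact (Nat.Prime 3) := ⟨Nat.prime_three⟩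
      obtain ⟨N, hN⟩ := good_count (K := ZMod 3) (by simp) c h1 (htop _) (hgrow _)
      refine ⟨N, fun Q hQ P hPQ => (hN Q hQ P hPQ).transfer ?_ ?_⟩
      · intro m hm
        rw [Int.cast_eq_zero] at hm
        rw [hm, Int.cast_zero]
      · simp only [Fintype.card_fin]
        rw [mul_comm, hPQ, mul_comm]
    · have hpp : Nat.Prime p := (CharP.char_is_prime_or_zero k p).resolve_right (by omega)
      have : Fact (Nat.Prime p) := ⟨hpp⟩
      obtain ⟨N, hN⟩ := good_count (K := GaloisField p 2) (by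
        rw [GaloisField.card p 2 (by norm_num)]
        have := hpp.two_le
        nlinarith) c h1 (htop _) (hgrow _)
      refine ⟨N, fun Q hQ P hPQ => (hN Q hQ P hPQ).transfer ?_ ?_⟩
      · intro m hm
        rw [CharP.intCast_eq_zero_iff k p] at hm
        rw [CharP.intCast_eq_zero_iff (GaloisField p 2) p]
        exact hm
      · simp only [Fintype.card_fin]
        rw [mul_comm, hPQ, mul_comm]

section F1

variable {s : ℕ}

open Classical in
/-- structure constants of the multiplication of monomials -/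
noncomputable def cM (s a q : ℕ) : Mo s a → Mo s q → Mo s (q + a) → ℤ :=
  fun κ μ ν => if κ.1 + μ.1 = ν.1 then 1 else 0

lemma exists_le_Mo {a q : ℕ} : ∀ {ν : Fin s →₀ ℕ}, ν ∈ Mo s (q + a) →
    ∃ μ ∈ Mo s q, ∃ κ ∈ Mo s a, κ + μ = ν := by
  induction a with
  | zero =>
    intro ν hν
    exact ⟨ν, hν, 0, by simp [mem_Mo], zero_add _⟩
  | succ a ih =>
    intro ν hν
    have h1 := mem_Mo.1 hν
    obtain ⟨i, hi⟩ : ∃ i, 0 < ν i := by
      by_contra hno
      push Not at hno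
      have : ∑ i, ν i = 0 := Finset.sum_eq_zero fun i _ => by have := hno i; omega
      omega
    have h2 : (ν - Finsupp.single i 1) + Finsupp.single i 1 = ν := by
      apply tsub_add_cancel_of_le
      rw [Finsupp.single_le_iff]
      exact hi
    have h3 : ν - Finsupp.single i 1 ∈ Mo s (q + a) := by
      rw [mem_Mo]
      have h4 : ∑ j, ν j = ∑ j, (ν - Finsupp.single i 1 : Fin s →₀ ℕ) j +
          ∑ j, (Finsupp.single i 1 : Fin s →₀ ℕ) j := by
        rw [← Finset.sum_add_distrib]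
        refine Finset.sum_congr rfl fun j _ => ?_
        rw [← Finsupp.add_apply, h2]
      rw [mem_Mo.1 (single_mem_Mo i)] at h4
      omega
    obtain ⟨μ, hμ, κ, hκ, h5⟩ := ih h3
    refine ⟨μ, hμ, κ + Finsupp.single i 1, add_mem_Mo hκ (single_mem_Mo i), ?_⟩
    rw [← h2, ← h5]
    abel

lemma wk_cM {K : Type*} [Field K] {a q : ℕ} (κ : Mo s a) (u : Mo s q → K) (ν : Mo s (q + a)) :
    (∀ μ : Mo s q, κ.1 + μ.1 = ν.1 → wk (cM s a q) κ u ν = u μ) ∧
      ((∀ μ : Mo s q, κ.1 + μ.1 = ν.1 → u μ = 0) → wk (cM s a q) κ u ν = 0) := by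
  classical
  have h0 : wk (cM s a q) κ u ν = ∑ μ, ((cM s a q κ μ ν : ℤ) : K) * u μ := rfl
  constructor
  · intro μ hμ
    rw [h0, Finset.sum_eq_single μ]
    · simp [cM, hμ]
    · intro μ' _ hne
      have : κ.1 + μ'.1 ≠ ν.1 := by
        intro h
        rw [← hμ] at h
        exact hne (Subtype.ext (add_left_cancel h))
      simp [cM, this]
    · intro h
      exact absurd (Finset.mem_univ _) h
  · intro h
    rw [h0]
    refine Finset.sum_eq_zero fun μ _ => ?_
    by_cases hμ : κ.1 + μ.1 = ν.1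
    · rw [h μ hμ, mul_zero]
    · simp [cM, hμ]

lemma top_cM {K : Type*} [Field K] {a q : ℕ} :
    WU (cM s a q) (⊤ : Submodule K (Mo s q → K)) = ⊤ := by
  classical
  rw [eq_top_iff]
  intro w _
  have hw : w = ∑ ν, w ν • (Pi.single ν (1 : K) : Mo s (q + a) → K) := by
    funext ν'
    rw [Finset.sum_apply]
    simp [Pi.single_apply]
  rw [hw]
  refine Submodule.sum_mem _ fun ν _ => Submodule.smul_mem _ _ ?_
  obtain ⟨μ, hμ, κ, hκ, h⟩ := exists_le_Mo ν.2
  refine Submodule.mem_iSup_of_mem ⟨κ, hκ⟩ ⟨Pi.single ⟨μ, hμ⟩ 1, Submodule.mem_top, ?_⟩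
  funext ν'
  by_cases hν : ν' = ν
  · subst hν
    rw [(wk_cM ⟨κ, hκ⟩ _ ν').1 ⟨μ, hμ⟩ h]
    simp
  · rw [(wk_cM ⟨κ, hκ⟩ _ ν').2]
    · simp [Pi.single_apply, hν]
    · intro μ' h'
      have : μ' ≠ ⟨μ, hμ⟩ := by
        rintro rfl
        apply hν
        apply Subtype.ext
        rw [← h', ← h]
      simp [Pi.single_apply, this]

lemma grow_cM {K : Type*} [Field K] (hs : 1 ≤ s) {a q : ℕ} (ha : 1 ≤ a)
    (U : Submodule K (Mo s q → K)) (h0 : U ≠ ⊥) (h1 : U ≠ ⊤) :
    Fintype.card (Mo s (q + a)) * Module.finrank K U <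
      Fintype.card (Mo s q) * Module.finrank K (WU (cM s a q) U) := by
  classical
  set ω₁ : Mo s q → Lex (Fin s →₀ ℕ) := fun μ => toLex μ.1 with hω₁
  set ω₂ : Mo s (q + a) → Lex (Fin s →₀ ℕ) := fun μ => toLex μ.1 with hω₂
  have i₁ : Function.Injective ω₁ := fun x y h => Subtype.ext (toLex.injective h)
  have i₂ : Function.Injective ω₂ := fun x y h => Subtype.ext (toLex.injective h)
  set A := (ld ω₁ U).image Subtype.val with hA
  have hAc : A.card = Module.finrank K U := by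
    rw [hA, Finset.card_image_of_injective _ Subtype.val_injective]
    exact le_antisymm (ld_le_finrank i₁ U) (finrank_le_ld ω₁ U)
  have hAs : A ⊆ Mo s q := by
    intro μ hμ
    rw [hA, Finset.mem_image] at hμ
    obtain ⟨μ', _, rfl⟩ := hμ
    exact μ'.2
  have hA0 : A.Nonempty := by
    rw [← Finset.card_pos, hAc, Module.finrank_pos_iff]
    exact Submodule.nontrivial_iff_ne_bot.2 h0
  have hA1 : A ≠ Mo s q := by
    intro h
    apply h1
    apply Submodule.eq_top_of_finrank_eq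
    rw [← hAc, h, Module.finrank_fintype_fun_eq_card, Fintype.card_coe]
  have hUp : (Up a q A).card ≤ Module.finrank K (WU (cM s a q) U) := by
    refine le_trans ?_ (ld_le_finrank i₂ (WU (cM s a q) U))
    rw [← Finset.card_image_of_injective (ld ω₂ (WU (cM s a q) U)) Subtype.val_injective]
    apply Finset.card_le_card
    intro ν hν
    rw [Up, Finset.mem_filter] at hν
    obtain ⟨hν1, μ, hμ, hle⟩ := hν
    rw [hA, Finset.mem_image] at hμ
    obtain ⟨μ', hμ', rfl⟩ := hμ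
    obtain ⟨u, hu, hu1, hu2⟩ := mem_ld.1 hμ'
    have hsub : (ν - μ'.1) + μ'.1 = ν := tsub_add_cancel_of_le hle
    have hκ : ν - μ'.1 ∈ Mo s a := by
      rw [mem_Mo]
      have h4 : ∑ j, ν j = ∑ j, (ν - μ'.1 : Fin s →₀ ℕ) j + ∑ j, μ'.1 j := by
        rw [← Finset.sum_add_distrib]
        refine Finset.sum_congr rfl fun j _ => ?_
        rw [← Finsupp.add_apply, hsub]
      rw [mem_Mo.1 hν1, mem_Mo.1 μ'.2] at h4
      omega
    rw [Finset.mem_image]
    refine ⟨⟨ν, hν1⟩, mem_ld.2 ⟨wk (cM s a q) ⟨ν - μ'.1, hκ⟩ u, ?_, ?_, ?_⟩, rfl⟩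
    · exact Submodule.mem_iSup_of_mem _ (Submodule.mem_map_of_mem hu)
    · rw [(wk_cM _ u ⟨ν, hν1⟩).1 μ' hsub]
      exact hu1
    · intro ν' hν'
      apply (wk_cM _ u ν').2
      intro μ'' h''
      apply hu2
      have h5 : toLex ν < toLex ν'.1 := hν'
      rw [← hsub, ← h''] at h5
      have h6 : toLex (ν - μ'.1) + toLex μ'.1 < toLex (ν - μ'.1) + toLex μ''.1 := h5
      exact lt_of_add_lt_add_left h6
  obtain ⟨a', rfl⟩ : ∃ a', a = a' + 1 := ⟨a - 1, by omega⟩
  have h7 := grow hs a' hAs hA0 hA1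
  rw [Fintype.card_coe, Fintype.card_coe, ← hAc]
  exact lt_of_lt_of_le h7 (Nat.mul_le_mul_left _ hUp)

/-- good families for the multiplication of monomials -/
theorem good_cM (hs : 1 ≤ s) {a q : ℕ} (ha : 1 ≤ a) (k : Type) [Field k] :
    ∃ N : ℕ, ∀ Q : ℕ, N ≤ Q → ∀ P : ℕ, P * (Mo s q).card = Q * (Mo s (q + a)).card →
      Good (cM s a q) k (Fin Q) (Fin P) := by
  obtain ⟨N, hN⟩ := good_all (cM s a q) (by rw [Fintype.card_coe]; exact card_Mo_pos hs q)
    (fun F _ _ => top_cM) (fun F _ _ U h0 h1 => grow_cM hs ha U h0 h1) k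
  refine ⟨N, fun Q hQ P hPQ => hN Q hQ P ?_⟩
  rw [Fintype.card_coe, Fintype.card_coe]
  exact hPQ

end F1

end Run7.h869
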