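import Mathlib
import Pool.Agent.Run7.h869.AllF
import Pool.Agent.H803R3.Grd

/-!
The matrix of forms attached to a good family, and Koszul vanishing for its kernel.
-/

set_option autoImplicit false
set_option linter.unusedSectionVars false

namespace Run7.h869

open MvPolynomial Pool.Agent.H803R3

variable {K : Type*} [Field K] {s : ℕ}

lemma hom_iff_Mo {p : MvPolynomial (Fin s) K} {q : ℕ} :
    p.IsHomogeneous q ↔ ∀ μ, coeff μ p ≠ 0 → μ ∈ Mo s q := by
  unfold IsHomogeneous IsWeightedHomogeneous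
  have h : ∀ μ : Fin s →₀ ℕ, Finsupp.weight 1 μ = ∑ i, μ i := by
    intro μ
    rw [Finsupp.weight_apply, Finsupp.sum_fintype _ _ (by simp)]
    simp
  constructor
  · intro hp μ hμ
    rw [mem_Mo, ← h]
    exact hp hμ
  · intro hp μ hμ
    rw [h]
    exact mem_Mo.1 (hp μ hμ)

lemma hom_expand {p : MvPolynomial (Fin s) K} {q : ℕ} (hp : p.IsHomogeneous q) :
    p = ∑ μ : Mo s q, monomial μ.1 (coeff μ.1 p) := by
  classical
  rw [hom_iff_Mo] at hp
  ext ν
  rw [coeff_sum]
  simp only [coeff_monomial]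
  by_cases hν : ν ∈ Mo s q
  · rw [Finset.sum_eq_single (⟨ν, hν⟩ : Mo s q)]
    · simp
    · intro μ _ hne
      rw [if_neg]
      intro h
      exact hne (Subtype.ext h)
    · intro h
      exact absurd (Finset.mem_univ _) h
  · rw [Finset.sum_eq_zero]
    · by_contra h
      exact hν (hp ν h)
    · intro μ _
      rw [if_neg]
      intro h
      exact hν (h ▸ μ.2)

/-- polynomial with given coefficients in degree `q` -/
noncomputable def ofC {q : ℕ} (u : Mo s q → K) : MvPolynomial (Fin s) K :=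
  ∑ μ : Mo s q, monomial μ.1 (u μ)

lemma coeff_ofC {q : ℕ} (u : Mo s q → K) (μ : Mo s q) : coeff μ.1 (ofC u) = u μ := by
  classical
  rw [ofC, coeff_sum]
  simp only [coeff_monomial]
  rw [Finset.sum_eq_single μ]
  · simp
  · intro μ' _ hne
    rw [if_neg]
    intro h
    exact hne (Subtype.ext h)
  · intro h
    exact absurd (Finset.mem_univ _) h

lemma ofC_hom {q : ℕ} (u : Mo s q → K) : (ofC u).IsHomogeneous q := by
  unfold ofC
  refine IsHomogeneous.sum _ _ _ fun μ _ => ?_
  rw [hom_iff_Mo]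
  intro ν hν
  classical
  rw [coeff_monomial] at hν
  split_ifs at hν with h
  · exact h ▸ μ.2
  · exact absurd rfl hν

/-- matrix of forms -/
noncomputable def phM {a P Q : ℕ} (X : Mo s a → Fin Q → Fin P → K) :
    Matrix (Fin Q) (Fin P) (MvPolynomial (Fin s) K) :=
  fun j i => ofC fun κ => X κ j i

lemma phM_coeff {a q P Q : ℕ} (X : Mo s a → Fin Q → Fin P → K)
    (v : Fin P → Mo s q → K) (j : Fin Q) (ν : Mo s (q + a)) :
    coeff ν.1 ((phM X).mulVec (fun i => ofC (v i)) j) =
      ∑ i, ∑ κ, ∑ μ, X κ j i * ((cM s a q κ μ ν : K) * v i μ) := by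
  classical
  show coeff ν.1 (∑ i, phM X j i * ofC (v i)) = _
  rw [coeff_sum]
  refine Finset.sum_congr rfl fun i _ => ?_
  show coeff ν.1 ((∑ κ : Mo s a, monomial κ.1 (X κ j i)) * ∑ μ : Mo s q, monomial μ.1 (v i μ)) = _
  rw [Finset.sum_mul_sum, coeff_sum]
  refine Finset.sum_congr rfl fun κ _ => ?_
  rw [coeff_sum]
  refine Finset.sum_congr rfl fun μ _ => ?_
  rw [monomial_mul, coeff_monomial]
  unfold cM
  split_ifs <;> simp

lemma phM_hom {a P Q : ℕ} (X : Mo s a → Fin Q → Fin P → K) (j : Fin Q) (i : Fin P) :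
    (phM X j i).IsHomogeneous a := ofC_hom _

lemma phM_gd {a P Q : ℕ} (X : Mo s a → Fin Q → Fin P → K) :
    Gd (phM X) (fun _ => 0) (fun _ => a) := by
  intro j i
  right
  exact ⟨Nat.zero_le _, phM_hom X j i⟩

/-- goodness of a family -/
def IsGood {a P Q : ℕ} (q : ℕ) (X : Mo s a → Fin Q → Fin P → K) : Prop :=
  ∀ v : Fin P → Mo s q → K,
    (∀ j ν, ∑ i, ∑ κ, ∑ μ, X κ j i * ((cM s a q κ μ ν : K) * v i μ) = 0) → v = 0

lemma inj_q {a q P Q : ℕ} {X : Mo s a → Fin Q → Fin P → K} (hX : IsGood q X)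
    {v : Fin P → MvPolynomial (Fin s) K} (hv : ∀ i, (v i).IsHomogeneous q)
    (h0 : (phM X).mulVec v = 0) : v = 0 := by
  have h1 : v = fun i => ofC fun μ : Mo s q => coeff μ.1 (v i) := funext fun i => hom_expand (hv i)
  have h2 := hX (fun i μ => coeff μ.1 (v i)) (by
    intro j ν
    rw [← phM_coeff, ← h1, h0]
    simp)
  rw [h1]
  funext i
  have h3 : (fun μ : Mo s q => coeff μ.1 (v i)) = 0 := congrFun h2 i
  rw [h3]
  simp [ofC]

lemma inj_le {a q P Q : ℕ} (hs : 1 ≤ s) {X : Mo s a → Fin Q → Fin P → K} (hX : IsGood q X)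
    {c : ℕ} (hc : c ≤ q + a) {v : Fin P → MvPolynomial (Fin s) K} (hv : ∀ i, Hm a c (v i))
    (h0 : (phM X).mulVec v = 0) : v = 0 := by
  by_cases hac : a ≤ c
  · have hv' : ∀ i, (v i).IsHomogeneous (c - a) := by
      intro i
      rcases hv i with h | h
      · rw [h]; exact isHomogeneous_zero _ _ _
      · exact h.2
    set x : MvPolynomial (Fin s) K := MvPolynomial.X (⟨0, hs⟩ : Fin s) ^ (q - (c - a)) with hx
    have hx0 : x ≠ 0 := pow_ne_zero _ (MvPolynomial.X_ne_zero _)
    have h1 : x • v = 0 := by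
      apply inj_q hX
      · intro i
        have h2 : (x * v i).IsHomogeneous ((q - (c - a)) + (c - a)) :=
          (isHomogeneous_X_pow _ _).mul (hv' i)
        have h3 : (q - (c - a)) + (c - a) = q := by omega
        rw [h3] at h2
        exact h2
      · rw [Matrix.mulVec_smul, h0, smul_zero]
    rcases smul_eq_zero.1 h1 with h | h
    · exact absurd h hx0
    · exact h
  · funext i
    rcases hv i with h | h
    · exact h
    · exact absurd h.1 hac

lemma surj_q {a q P Q : ℕ} {X : Mo s a → Fin Q → Fin P → K} (hX : IsGood q X)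
    (hPQ : P * (Mo s q).card = Q * (Mo s (q + a)).card)
    (w : Fin Q → Mo s (q + a) → K) :
    ∃ v : Fin P → Mo s q → K, ∀ j ν, ∑ i, ∑ κ, ∑ μ,
      X κ j i * ((cM s a q κ μ ν : K) * v i μ) = w j ν := by
  let L : (Fin P → Mo s q → K) →ₗ[K] (Fin Q → Mo s (q + a) → K) :=
    { toFun := fun v j ν => ∑ i, ∑ κ, ∑ μ, X κ j i * ((cM s a q κ μ ν : K) * v i μ)
      map_add' := by
        intro v w
        funext j ν
        simp only [Pi.add_apply, mul_add, Finset.sum_add_distrib]
      map_smul' := by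
        intro r v
        funext j ν
        simp only [Pi.smul_apply, smul_eq_mul, RingHom.id_apply, Finset.mul_sum]
        exact Finset.sum_congr rfl fun i _ => Finset.sum_congr rfl fun κ _ =>
          Finset.sum_congr rfl fun μ _ => by ring }
  have hL : Function.Injective L := by
    rw [injective_iff_map_eq_zero]
    intro v hv
    apply hX
    intro j ν
    exact congrFun (congrFun hv j) ν
  have hfr : Module.finrank K (Fin P → Mo s q → K) =
      Module.finrank K (Fin Q → Mo s (q + a) → K) := by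
    have g1 : ∀ (m t : ℕ), Module.finrank K (Fin m → Mo s t → K) = m * (Mo s t).card := by
      intro m t
      rw [Module.finrank_pi_fintype]
      simp
    rw [g1, g1]
    exact hPQ
  obtain ⟨v, hv⟩ := (LinearMap.injective_iff_surjective_of_finrank_eq_finrank hfr).1 hL w
  exact ⟨v, fun j ν => congrFun (congrFun hv j) ν⟩

lemma surj_mono {a q P Q : ℕ} {X : Mo s a → Fin Q → Fin P → K} (hX : IsGood q X)
    (hPQ : P * (Mo s q).card = Q * (Mo s (q + a)).card)
    (w : Fin Q → MvPolynomial (Fin s) K) (hw : ∀ j, (w j).IsHomogeneous (q + a)) :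
    w ∈ LinearMap.range (phM X).mulVecLin := by
  obtain ⟨v, hv⟩ := surj_q hX hPQ (fun j ν => coeff ν.1 (w j))
  refine ⟨fun i => ofC (v i), ?_⟩
  show (phM X).mulVec (fun i => ofC (v i)) = w
  funext j
  have h1 : ((phM X).mulVec (fun i => ofC (v i)) j).IsHomogeneous (q + a) := by
    show (∑ i, phM X j i * ofC (v i)).IsHomogeneous (q + a)
    refine IsHomogeneous.sum _ _ _ fun i _ => ?_
    rw [add_comm]
    exact (phM_hom X j i).mul (ofC_hom _)
  rw [hom_expand h1, hom_expand (hw j)]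
  refine Finset.sum_congr rfl fun ν _ => ?_
  rw [phM_coeff, hv]

lemma surj_ge {a q P Q : ℕ} {X : Mo s a → Fin Q → Fin P → K} (hX : IsGood q X)
    (hPQ : P * (Mo s q).card = Q * (Mo s (q + a)).card) {c : ℕ} (hc : q + a ≤ c)
    (w : Fin Q → MvPolynomial (Fin s) K) (hw : ∀ j, (w j).IsHomogeneous c) :
    w ∈ LinearMap.range (phM X).mulVecLin := by
  classical
  obtain ⟨e, rfl⟩ : ∃ e, c = (q + a) + e := ⟨c - (q + a), by omega⟩
  have h1 : w = ∑ j, ∑ ν : Mo s (q + a + e),
      Pi.single j (monomial ν.1 (coeff ν.1 (w j)) : MvPolynomial (Fin s) K) := by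
    funext j'
    rw [Finset.sum_apply, Finset.sum_eq_single j']
    · rw [Finset.sum_apply]
      simp only [Pi.single_eq_same]
      exact hom_expand (hw j')
    · intro j _ hne
      rw [Finset.sum_apply]
      exact Finset.sum_eq_zero fun ν _ => Pi.single_eq_of_ne hne.symm _
    · intro h
      exact absurd (Finset.mem_univ _) h
  rw [h1]
  refine Submodule.sum_mem _ fun j _ => Submodule.sum_mem _ fun ν _ => ?_
  obtain ⟨μ, hμ, κ, hκ, h2⟩ := exists_le_Mo ν.2
  have h3 : (Pi.single j (monomial ν.1 (coeff ν.1 (w j))) : Fin Q → MvPolynomial (Fin s) K) =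
      (monomial κ (coeff ν.1 (w j)) : MvPolynomial (Fin s) K) •
        (Pi.single j (monomial μ (1 : K)) : Fin Q → MvPolynomial (Fin s) K) := by
    rw [← Pi.single_smul, smul_eq_mul, monomial_mul, h2, mul_one]
  rw [h3]
  refine Submodule.smul_mem _ _ (surj_mono hX hPQ _ fun j' => ?_)
  by_cases hj : j' = j
  · subst hj
    rw [Pi.single_eq_same]
    rw [hom_iff_Mo]
    intro ν' hν'
    rw [coeff_monomial] at hν'
    split_ifs at hν' with h
    · exact h ▸ hμ
    · exact absurd rfl hν'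
  · rw [Pi.single_eq_of_ne hj]
    exact isHomogeneous_zero _ _ _

/-- top degree cycles of a free module vanish -/
lemma top_cyc {m i : ℕ} (hs : 1 ≤ s) (hi : s ≤ i)
    {f : Finset (Fin s) → Fin m → MvPolynomial (Fin s) K}
    (h1 : ∀ T : Finset (Fin s), T.card ≠ i → f T = 0) (h3 : ∀ T, kd f T = 0)
    (T : Finset (Fin s)) : f T = 0 := by
  classical
  by_cases hT : T.card = i
  · have h4 : T = Finset.univ := by
      apply Finset.eq_univ_of_card
      rw [Fintype.card_fin]
      have := Finset.card_le_univ T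
      rw [Fintype.card_fin] at this
      omega
    subst h4
    set t : Fin s := ⟨0, hs⟩
    have h5 := h3 (Finset.univ.erase t)
    rw [kd_eq] at h5
    have h6 : Finset.univ \ (Finset.univ.erase t) = {t} := by
      ext x
      simp
    rw [h6, Finset.sum_singleton, Finset.insert_erase (Finset.mem_univ t)] at h5
    rcases smul_eq_zero.1 h5 with h | h
    · exfalso
      rcases mul_eq_zero.1 h with h | h
      · exact pow_ne_zero _ (by simp) h
      · exact MvPolynomial.X_ne_zero _ h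
    · exact h
  · exact h1 T hT

/-- refined step: from the range to the kernel -/
theorem step_c {m m' : ℕ} {D : Matrix (Fin m) (Fin m') (MvPolynomial (Fin s) K)}
    {δ : Fin m → ℕ} {δ' : Fin m' → ℕ} (hD : Gd D δ δ') (i c : ℕ)
    (h4 : 1 ≤ i ∨ ∀ k, δ' k < c + 1)
    (h : Van (LinearMap.range D.mulVecLin) δ (i + 1) c) :
    Van (LinearMap.ker D.mulVecLin) δ' i (c + 1) := by
  classical
  intro z z1 z2 z3 z4
  obtain ⟨w, w1, w2⟩ := free_ex δ' i (c + 1) z z1 z3 z4 h4
  have hw' : ∀ T, z T = kd (fun U => tr δ' c (w U)) T := by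
    intro T
    rw [← tr_kd, ← w2, tr_eq (z3 T)]
  obtain ⟨v, v1, v2, v3⟩ := h (fun U => D.mulVec (tr δ' c (w U))) (by
      intro T hT
      show D.mulVec (tr δ' c (w T)) = 0
      rw [w1 T hT, tr_zero]
      exact map_zero D.mulVecLin) (fun T => ⟨_, rfl⟩) (by
      intro T k
      show Hm (δ k) c (D.mulVec (tr δ' c (w T)) k)
      rw [← tr_mulVec hD]
      exact tr_hm _ _ _ _) (by
      intro T
      rw [kd_mulVec, ← hw']
      exact z2 T)
  have hv' : ∀ U, ∃ x : Fin m' → MvPolynomial (Fin s) K, D.mulVec x = v U ∧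
      (U.card ≠ i + 1 + 1 → x = 0) := by
    intro U
    by_cases hU : U.card = i + 1 + 1
    · obtain ⟨x, hx⟩ := v2 U
      exact ⟨x, hx, fun h => absurd hU h⟩
    · refine ⟨0, ?_, fun _ => rfl⟩
      rw [v1 U hU]
      exact map_zero D.mulVecLin
  choose v' v'1 v'2 using hv'
  refine ⟨fun U => tr δ' c (w U) - kd v' U, ?_, ?_, ?_⟩
  · intro U hU
    show tr δ' c (w U) - kd v' U = 0
    rw [w1 U hU, tr_zero, kd_card v'2 hU, sub_zero]
  · intro U
    rw [LinearMap.mem_ker, map_sub]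
    show D.mulVec (tr δ' c (w U)) - D.mulVec (kd v' U) = 0
    rw [← kd_mulVec, kd_congr v'1, ← v3, sub_self]
  · intro T
    rw [kd_sub, kd_kd, sub_zero, ← hw']

lemma van_of_zero {m : ℕ} {M : Submodule (MvPolynomial (Fin s) K) (Fin m → MvPolynomial (Fin s) K)}
    {δ : Fin m → ℕ} {i c : ℕ}
    (h : ∀ v ∈ M, (∀ k, Hm (δ k) c (v k)) → v = 0) : Van M δ i c := by
  intro f f1 f2 f3 f4
  refine ⟨fun _ => 0, fun _ _ => rfl, fun _ => M.zero_mem, fun T => ?_⟩
  rw [h (f T) (f2 T) (f3 T), kd_eq]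
  simp

lemma van_top {m : ℕ} (hs : 1 ≤ s)
    {M : Submodule (MvPolynomial (Fin s) K) (Fin m → MvPolynomial (Fin s) K)}
    {δ : Fin m → ℕ} {i c : ℕ} (hi : s ≤ i) : Van M δ i c := by
  intro f f1 f2 f3 f4
  refine ⟨fun _ => 0, fun _ _ => rfl, fun _ => M.zero_mem, fun T => ?_⟩
  rw [top_cyc hs hi f1 f4 T, kd_eq]
  simp

/-- Koszul vanishing for the kernel of the matrix of forms -/
theorem van_phM {a q P Q : ℕ} (hs : 1 ≤ s) {X : Mo s a → Fin Q → Fin P → K} (hX : IsGood q X)
    (hPQ : P * (Mo s q).card = Q * (Mo s (q + a)).card) (i c : ℕ)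
    (hc : c ≠ q + a + 1 ∨ s ≤ i + 1) :
    Van (LinearMap.ker (phM X).mulVecLin) (fun _ => a) i c := by
  classical
  by_cases h1 : c ≤ q + a
  · exact van_of_zero fun v hv hvc => inj_le hs hX h1 hvc hv
  obtain ⟨c, rfl⟩ : ∃ c', c = c' + 1 := ⟨c - 1, by omega⟩
  have hca : ∀ k : Fin P, (fun _ : Fin P => a) k < c + 1 := fun _ => by show a < c + 1; omega
  by_cases hi : s ≤ i + 1
  · exact step_c (phM_gd X) i c (Or.inr hca) (van_top hs hi)
  have hc2 : q + a + 1 ≤ c := by omega
  refine step_c (phM_gd X) i c (Or.inr hca) ?_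
  intro f f1 f2 f3 f4
  obtain ⟨c, rfl⟩ : ∃ c', c = c' + 1 := ⟨c - 1, by omega⟩
  obtain ⟨w, w1, w2⟩ := free_ex (fun _ : Fin Q => 0) (i + 1) (c + 1) f f1 f3 f4 (Or.inl (by omega))
  have hw' : ∀ T, f T = kd (fun U => tr (fun _ : Fin Q => 0) c (w U)) T := by
    intro T
    rw [← tr_kd, ← w2, tr_eq (f3 T)]
  refine ⟨fun U => tr (fun _ : Fin Q => 0) c (w U), ?_, ?_, hw'⟩
  · intro U hU
    show tr (fun _ : Fin Q => 0) c (w U) = 0
    rw [w1 U hU, tr_zero]
  · intro U
    apply surj_ge hX hPQ (c := c) (by omega)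
    intro j
    show (tr (fun _ : Fin Q => 0) c (w U) j).IsHomogeneous c
    rcases tr_hm (fun _ : Fin Q => 0) c (w U) j with h | h
    · rw [h]; exact isHomogeneous_zero _ _ _
    · exact h.2

end Run7.h869
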