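import Mathlib
import Pool.Agent.Run7.h869.Phi

/-!
Building a pure resolution from Koszul vanishing.
-/

set_option autoImplicit false
set_option linter.unusedSectionVars false

namespace Run7.h869

open MvPolynomial Pool.Agent.H803R3

variable {K : Type*} [Field K] {s : ℕ}

lemma hcd_zero_mul_one {δ : ℕ} {p : MvPolynomial (Fin s) K} (hp : p.IsHomogeneous 1)
    (x : MvPolynomial (Fin s) K) : hcd δ 0 (p * x) = 0 := by
  unfold hcd
  split_ifs with h
  · rw [comp_mul hp, if_neg (by omega)]
  · rfl

/-- `K`-subspace of homogeneous vectors of a submodule -/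
def Vs {m : ℕ} (M : Submodule (MvPolynomial (Fin s) K) (Fin m → MvPolynomial (Fin s) K))
    (d c : ℕ) : Submodule K (Fin m → MvPolynomial (Fin s) K) where
  carrier := {v | v ∈ M ∧ ∀ k, Hm d c (v k)}
  add_mem' := by
    rintro v w ⟨h1, h2⟩ ⟨h3, h4⟩
    refine ⟨M.add_mem h1 h3, fun k => ?_⟩
    by_cases h : d ≤ c
    · refine Or.inr ⟨h, ?_⟩
      have g1 : (v k).IsHomogeneous (c - d) := by
        rcases h2 k with g | g
        · rw [g]; exact isHomogeneous_zero _ _ _
        · exact g.2
      have g2 : (w k).IsHomogeneous (c - d) := by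
        rcases h4 k with g | g
        · rw [g]; exact isHomogeneous_zero _ _ _
        · exact g.2
      exact g1.add g2
    · left
      rcases h2 k with g | g
      · rcases h4 k with g' | g'
        · rw [Pi.add_apply, g, g', add_zero]
        · exact absurd g'.1 h
      · exact absurd g.1 h
  zero_mem' := ⟨M.zero_mem, fun _ => Or.inl rfl⟩
  smul_mem' := by
    rintro r v ⟨h1, h2⟩
    refine ⟨?_, fun k => ?_⟩
    · have : r • v = (C r : MvPolynomial (Fin s) K) • v := by
        funext k
        rw [Pi.smul_apply, Pi.smul_apply, smul_eq_C_mul, smul_eq_mul]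
      rw [this]
      exact M.smul_mem _ h1
    · rcases h2 k with g | g
      · left
        rw [Pi.smul_apply, g, smul_zero]
      · right
        refine ⟨g.1, ?_⟩
        rw [Pi.smul_apply, smul_eq_C_mul]
        exact g.2.C_mul _

lemma mem_Vs {m : ℕ} {M : Submodule (MvPolynomial (Fin s) K) (Fin m → MvPolynomial (Fin s) K)}
    {d c : ℕ} {v : Fin m → MvPolynomial (Fin s) K} :
    v ∈ Vs M d c ↔ v ∈ M ∧ ∀ k, Hm d c (v k) := Iff.rfl

lemma hm_hom {d c : ℕ} {p : MvPolynomial (Fin s) K} (h : Hm d c p) : p.IsHomogeneous (c - d) := by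
  rcases h with g | g
  · rw [g]; exact isHomogeneous_zero _ _ _
  · exact g.2

lemma fin_Vs {m : ℕ} (M : Submodule (MvPolynomial (Fin s) K) (Fin m → MvPolynomial (Fin s) K))
    (d c : ℕ) : Module.Finite K (Vs M d c) := by
  let L : Vs M d c →ₗ[K] (Fin m → Mo s (c - d) → K) :=
    { toFun := fun v k μ => coeff μ.1 (v.1 k)
      map_add' := fun v w => by
        funext k μ
        exact coeff_add _ _ _
      map_smul' := fun r v => by
        funext k μ
        exact coeff_smul _ _ _ }
  have hL : Function.Injective L := by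
    intro v w h
    apply Subtype.ext
    funext k
    rw [hom_expand (hm_hom (v.2.2 k)), hom_expand (hm_hom (w.2.2 k))]
    refine Finset.sum_congr rfl fun μ _ => ?_
    have := congrFun (congrFun h k) μ
    change coeff μ.1 (v.1 k) = coeff μ.1 (w.1 k) at this
    rw [this]
  exact Module.Finite.of_injective L hL

/-- a stage of the construction -/
structure St (K : Type*) [Field K] (s : ℕ) (dd : ℕ → ℕ) (r : ℕ) where
  m : ℕ
  M : Submodule (MvPolynomial (Fin s) K) (Fin m → MvPolynomial (Fin s) K)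
  gr : ∀ v ∈ M, ∀ c, tr (fun _ => dd r) c v ∈ M
  van : ∀ i c, (c + i ≠ dd (r + 1 + i) ∨ s < r + 1 + i) → Van M (fun _ => dd r) i c

/-- data for the next stage -/
structure Ne {K : Type*} [Field K] {s : ℕ} {dd : ℕ → ℕ} {r : ℕ} (S : St K s dd r) where
  m' : ℕ
  D : Matrix (Fin S.m) (Fin m') (MvPolynomial (Fin s) K)
  hD : Gd D (fun _ => dd r) (fun _ => dd (r + 1))
  hr : LinearMap.range D.mulVecLin = S.M
  ind : ∀ x : Fin m' → MvPolynomial (Fin s) K, (∀ k, Hm (dd (r + 1)) (dd (r + 1)) (x k)) →
    D.mulVec x = 0 → x = 0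
  hz : s < r + 1 → m' = 0

lemma gen_step {m : ℕ} {M : Submodule (MvPolynomial (Fin s) K) (Fin m → MvPolynomial (Fin s) K)}
    {d : ℕ} (hM : ∀ v ∈ M, ∀ c, tr (fun _ => d) c v ∈ M) {c : ℕ}
    (h : Van M (fun _ => d) 0 c) {v : Fin m → MvPolynomial (Fin s) K} (hv : v ∈ M)
    (hvc : ∀ k, Hm d c (v k)) :
    v = 0 ∨ ∃ c', c = c' + 1 ∧ v ∈ Submodule.span (MvPolynomial (Fin s) K)
      (Vs M d c' : Set (Fin m → MvPolynomial (Fin s) K)) := by
  classical
  obtain ⟨g, _, g2, g3⟩ := h (fun T => if T = ∅ then v else 0)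
    (by
      intro T hT
      have : T ≠ ∅ := fun h => hT (by simp [h])
      simp [this]) (by
      intro T
      show (if T = ∅ then v else 0) ∈ M
      split_ifs
      · exact hv
      · exact M.zero_mem) (by
      intro T k
      show Hm d c ((if T = ∅ then v else 0) k)
      split_ifs
      · exact hvc k
      · exact Or.inl rfl) (by
      intro T
      rw [kd_eq]
      refine Finset.sum_eq_zero fun t _ => ?_
      rw [if_neg (Finset.insert_ne_empty t T), smul_zero])
  have h1 : v = kd g ∅ := by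
    have := g3 ∅
    rwa [if_pos rfl] at this
  rcases Nat.eq_zero_or_pos c with h0 | h0
  · left
    subst h0
    funext k
    have h2 : v k = hcd d 0 (v k) := (hvc k).hcd.symm
    have h3 : v k = ∑ t ∈ Finset.univ \ (∅ : Finset (Fin s)),
        ((-1 : MvPolynomial (Fin s) K) ^ ((∅ : Finset (Fin s)).filter (· < t)).card * X t) *
          g (insert t ∅) k := by
      have := congrFun h1 k
      rw [kd_eq, Finset.sum_apply] at this
      exact this
    rw [h2, h3, hcd_sum]
    exact Finset.sum_eq_zero fun t _ => hcd_zero_mul_one (hom_sgn _ t) _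
  · right
    obtain ⟨c', rfl⟩ : ∃ c', c = c' + 1 := ⟨c - 1, by omega⟩
    refine ⟨c', rfl, ?_⟩
    have h2 : v = kd (fun U => tr (fun _ => d) c' (g U)) ∅ := by
      rw [← tr_kd, ← h1, tr_eq hvc]
    rw [h2, kd_eq]
    refine Submodule.sum_mem _ fun t _ => Submodule.smul_mem _ _ (Submodule.subset_span ?_)
    exact ⟨hM _ (g2 _) c', fun k => tr_hm _ _ _ _⟩

lemma ne_nonempty {dd : ℕ → ℕ} {r : ℕ} (hdd : dd r ≤ dd (r + 1)) (S : St K s dd r) :
    Nonempty (Ne S) := by
  classical
  have : Module.Finite K (Vs S.M (dd r) (dd (r + 1))) := fin_Vs _ _ _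
  set b := Module.finBasis K (Vs S.M (dd r) (dd (r + 1))) with hb
  set D : Matrix (Fin S.m) (Fin (Module.finrank K (Vs S.M (dd r) (dd (r + 1)))))
    (MvPolynomial (Fin s) K) := fun j k => (b k).1 j with hD
  have hcomb : ∀ x : Fin (Module.finrank K (Vs S.M (dd r) (dd (r + 1)))) → K,
      D.mulVec (fun k => C (x k)) = (∑ k, x k • b k : Vs S.M (dd r) (dd (r + 1))).1 := by
    intro x
    funext j
    rw [AddSubmonoidClass.coe_finsetSum, Finset.sum_apply]
    show ∑ k, (b k).1 j * C (x k) = _
    refine Finset.sum_congr rfl fun k _ => ?_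
    show _ = (x k • (b k).1) j
    rw [Pi.smul_apply, smul_eq_C_mul, mul_comm]
  have hsubr : ∀ v ∈ Vs S.M (dd r) (dd (r + 1)), v ∈ LinearMap.range D.mulVecLin := by
    intro v hv
    refine ⟨fun k => C (b.repr ⟨v, hv⟩ k), ?_⟩
    show D.mulVec _ = v
    rw [hcomb, b.sum_repr]
  have hrng : LinearMap.range D.mulVecLin = S.M := by
    apply le_antisymm
    · rintro _ ⟨x, rfl⟩
      have h1 : D.mulVecLin x = ∑ k, x k • (b k).1 := by
        funext j
        rw [Finset.sum_apply]
        show ∑ k, (b k).1 j * x k = _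
        exact Finset.sum_congr rfl fun k _ => mul_comm _ _
      rw [h1]
      exact Submodule.sum_mem _ fun k _ => Submodule.smul_mem _ _ (b k).2.1
    · have hc : ∀ c, ∀ v ∈ S.M, (∀ k, Hm (dd r) c (v k)) → v ∈ LinearMap.range D.mulVecLin := by
        intro c
        induction c using Nat.strong_induction_on with
        | _ c ih =>
          intro v hv hvc
          by_cases hce : c = dd (r + 1)
          · subst hce
            exact hsubr v ⟨hv, hvc⟩
          · rcases gen_step S.gr (S.van 0 c (Or.inl hce)) hv hvc with h | ⟨c', rfl, h⟩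
            · rw [h]; exact Submodule.zero_mem _
            · refine (Submodule.span_le.2 ?_) h
              intro w hw
              exact ih c' (by omega) w hw.1 hw.2
      intro v hv
      obtain ⟨N, hN⟩ := sum_tr (fun _ => dd r) v
      rw [hN]
      exact Submodule.sum_mem _ fun c _ => hc c _ (S.gr v hv c) (fun k => tr_hm _ _ _ _)
  refine ⟨⟨Module.finrank K (Vs S.M (dd r) (dd (r + 1))), D, ?_, hrng, ?_, ?_⟩⟩
  · intro j k
    exact (b k).2.2 j
  · intro x hx h0
    have h1 : ∀ k, ∃ y : K, x k = C y := by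
      intro k
      have := hm_hom (hx k)
      rw [Nat.sub_self] at this
      have h2 := (totalDegree_zero_iff_isHomogeneous _).2 this
      exact ⟨_, totalDegree_eq_zero_iff_eq_C.1 h2⟩
    choose y hy using h1
    have h2 : x = fun k => C (y k) := funext hy
    rw [h2, hcomb] at h0
    have h3 : (∑ k, y k • b k : Vs S.M (dd r) (dd (r + 1))) = 0 := Subtype.ext h0
    have h4 := Fintype.linearIndependent_iff.1 b.linearIndependent y h3
    rw [h2]
    funext k
    rw [h4 k, C_0]
    rfl
  · intro hsr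
    have hz : ∀ c, ∀ v ∈ S.M, (∀ k, Hm (dd r) c (v k)) → v = 0 := by
      intro c
      induction c with
      | zero =>
        intro v hv hvc
        rcases gen_step S.gr (S.van 0 0 (Or.inr (by omega))) hv hvc with h | ⟨c', h', h⟩
        · exact h
        · omega
      | succ c ih =>
        intro v hv hvc
        rcases gen_step S.gr (S.van 0 (c + 1) (Or.inr (by omega))) hv hvc with h | ⟨c', h', h⟩
        · exact h
        · have h5 : c' = c := by omega
          subst h5
          have h6 : (Vs S.M (dd r) c' : Set (Fin S.m → MvPolynomial (Fin s) K)) ⊆ {0} := by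
            intro w hw
            exact ih w hw.1 hw.2
          have h7 := Submodule.span_mono (R := MvPolynomial (Fin s) K) h6 h
          rwa [Submodule.span_zero_singleton, Submodule.mem_bot] at h7
    have hbot : Vs S.M (dd r) (dd (r + 1)) = ⊥ := by
      rw [eq_bot_iff]
      intro v hv
      exact hz _ v hv.1 hv.2
    rw [hbot]
    exact finrank_bot K _

/-- choice -/
noncomputable def ne {dd : ℕ → ℕ} (hdd : ∀ r, dd r < dd (r + 1)) {r : ℕ} (S : St K s dd r) :
    Ne S := Classical.choice (ne_nonempty (hdd r).le S)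

/-- the next stage -/
noncomputable def Ne.toSt {dd : ℕ → ℕ} {r : ℕ} {S : St K s dd r} (x : Ne S) :
    St K s dd (r + 1) where
  m := x.m'
  M := LinearMap.ker x.D.mulVecLin
  gr := by
    intro v hv c
    rw [LinearMap.mem_ker] at hv ⊢
    have h1 : x.D.mulVec v = 0 := hv
    show x.D.mulVec (tr (fun _ => dd (r + 1)) c v) = 0
    rw [← tr_mulVec x.hD, h1, tr_zero]
  van := by
    intro i c hc
    by_cases h1 : c ≤ dd (r + 1)
    · apply van_of_zero
      intro v hv hvc
      rcases Nat.lt_or_ge c (dd (r + 1)) with h2 | h2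
      · funext k
        rcases hvc k with h | h
        · exact h
        · exact absurd h.1 (by omega)
      · have h3 : c = dd (r + 1) := by omega
        subst h3
        exact x.ind v hvc hv
    · obtain ⟨c, rfl⟩ : ∃ c', c = c' + 1 := ⟨c - 1, by omega⟩
      refine step_c x.hD i c (Or.inr fun k => by show dd (r + 1) < c + 1; omega) ?_
      rw [x.hr]
      apply S.van (i + 1) c
      have h4 : r + 1 + (i + 1) = r + 1 + 1 + i := by omega
      have h5 : c + (i + 1) = c + 1 + i := by omega
      rw [h4, h5]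
      exact hc

/-- all stages -/
noncomputable def sq {dd : ℕ → ℕ} (hdd : ∀ r, dd r < dd (r + 1)) {r : ℕ} (S0 : St K s dd r) :
    ∀ i : ℕ, St K s dd (r + i)
  | 0 => S0
  | i + 1 => (ne hdd (sq hdd S0 i)).toSt

/-- the builder: a graded submodule with Koszul vanishing has a pure resolution -/
theorem builder {dd : ℕ → ℕ} (hdd : ∀ r, dd r < dd (r + 1)) {r m : ℕ}
    {M : Submodule (MvPolynomial (Fin s) K) (Fin m → MvPolynomial (Fin s) K)}
    (gr : ∀ v ∈ M, ∀ c, tr (fun _ => dd r) c v ∈ M)
    (van : ∀ i c, (c + i ≠ dd (r + 1 + i) ∨ s < r + 1 + i) → Van M (fun _ => dd r) i c) :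
    ∃ (b : ℕ → ℕ) (h0 : b 0 = m)
      (D : ∀ i : ℕ, Matrix (Fin (b i)) (Fin (b (i + 1))) (MvPolynomial (Fin s) K)),
      (∀ i, Gd (D i) (fun _ => dd (r + i)) (fun _ => dd (r + i + 1))) ∧
      (∀ v : Fin (b 0) → MvPolynomial (Fin s) K,
        v ∈ LinearMap.range (D 0).mulVecLin ↔ (fun k => v (Fin.cast h0.symm k)) ∈ M) ∧
      (∀ i, LinearMap.range (D (i + 1)).mulVecLin = LinearMap.ker (D i).mulVecLin) ∧
      (∀ i, s < r + i → 0 < i → b i = 0) := by
  set S0 : St K s dd r := ⟨m, M, gr, van⟩ with hS0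
  refine ⟨fun i => (sq hdd S0 i).m, rfl, fun i => (ne hdd (sq hdd S0 i)).D, ?_, ?_, ?_, ?_⟩
  · intro i
    exact (ne hdd (sq hdd S0 i)).hD
  · intro v
    have h1 := (ne hdd (sq hdd S0 0)).hr
    show v ∈ LinearMap.range (ne hdd (sq hdd S0 0)).D.mulVecLin ↔ _
    rw [h1]
    exact Iff.rfl
  · intro i
    exact (ne hdd (sq hdd S0 (i + 1))).hr
  · intro i hi hi0
    obtain ⟨i, rfl⟩ : ∃ j, i = j + 1 := ⟨i - 1, by omega⟩
    exact (ne hdd (sq hdd S0 i)).hz (by omega)

end Run7.h869
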