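import Mathlib
import Pool.Agent.Run7.h869.Build

/-!
Herzog-Kuehl numerics.
-/

set_option autoImplicit false
set_option linter.unusedSectionVars false

namespace Run7.h869

open MvPolynomial Pool.Agent.H803R3

section Dim

variable {K : Type*} [Field K] {s : ℕ}

lemma finrank_Vs_top (m d t : ℕ) :
    Module.finrank K (Vs (⊤ : Submodule (MvPolynomial (Fin s) K)
      (Fin m → MvPolynomial (Fin s) K)) d t) = if d ≤ t then m * (Mo s (t - d)).card else 0 := by
  split_ifs with h
  · let L : Vs (⊤ : Submodule (MvPolynomial (Fin s) K)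
        (Fin m → MvPolynomial (Fin s) K)) d t ≃ₗ[K] (Fin m → Mo s (t - d) → K) :=
      { toFun := fun v k μ => coeff μ.1 (v.1 k)
        map_add' := fun v w => by
          funext k μ
          exact coeff_add _ _ _
        map_smul' := fun r v => by
          funext k μ
          exact coeff_smul _ _ _
        invFun := fun u => ⟨fun k => ofC (u k), Submodule.mem_top, fun k =>
          Or.inr ⟨h, ofC_hom _⟩⟩
        left_inv := by
          intro v
          apply Subtype.ext
          funext k
          exact (hom_expand (hm_hom (v.2.2 k))).symm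
        right_inv := by
          intro u
          funext k μ
          exact coeff_ofC _ _ }
    rw [L.finrank_eq, Module.finrank_pi_fintype]
    simp
  · have : Vs (⊤ : Submodule (MvPolynomial (Fin s) K)
        (Fin m → MvPolynomial (Fin s) K)) d t = ⊥ := by
      rw [eq_bot_iff]
      intro v hv
      rw [Submodule.mem_bot]
      funext k
      rcases hv.2 k with g | g
      · exact g
      · exact absurd g.1 h
    rw [this]
    exact finrank_bot K _

lemma rank_nullity {m m' : ℕ} {D : Matrix (Fin m) (Fin m') (MvPolynomial (Fin s) K)} {d d' : ℕ}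
    (hD : Gd D (fun _ => d) (fun _ => d')) (t : ℕ) :
    Module.finrank K (Vs (⊤ : Submodule (MvPolynomial (Fin s) K)
      (Fin m' → MvPolynomial (Fin s) K)) d' t) =
      Module.finrank K (Vs (LinearMap.range D.mulVecLin) d t) +
        Module.finrank K (Vs (LinearMap.ker D.mulVecLin) d' t) := by
  set V := Vs (⊤ : Submodule (MvPolynomial (Fin s) K) (Fin m' → MvPolynomial (Fin s) K)) d' t
    with hV
  have : Module.Finite K V := fin_Vs _ _ _
  have hDV : ∀ v : V, D.mulVec v.1 ∈ Vs (LinearMap.range D.mulVecLin) d t := by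
    intro v
    refine ⟨⟨v.1, rfl⟩, fun k => ?_⟩
    have h1 : tr (fun _ => d') t v.1 = v.1 := tr_eq v.2.2
    rw [← h1, ← tr_mulVec hD]
    exact tr_hm _ _ _ _
  have hsm : ∀ (r : K) (v : Fin m' → MvPolynomial (Fin s) K),
      D.mulVec (r • v) = r • D.mulVec v := by
    intro r v
    have g1 : r • v = (C r : MvPolynomial (Fin s) K) • v := by
      funext k
      rw [Pi.smul_apply, Pi.smul_apply, smul_eq_C_mul, smul_eq_mul]
    have g2 : r • D.mulVec v = (C r : MvPolynomial (Fin s) K) • D.mulVec v := by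
      funext k
      rw [Pi.smul_apply, Pi.smul_apply, smul_eq_C_mul, smul_eq_mul]
    rw [g1, g2, Matrix.mulVec_smul]
  let L : V →ₗ[K] Vs (LinearMap.range D.mulVecLin) d t :=
    { toFun := fun v => ⟨D.mulVec v.1, hDV v⟩
      map_add' := fun v w => Subtype.ext (by
        show D.mulVec (v.1 + w.1) = D.mulVec v.1 + D.mulVec w.1
        exact Matrix.mulVec_add _ _ _)
      map_smul' := fun r v => Subtype.ext (hsm r v.1) }
  have hsurj : Function.Surjective L := by
    rintro ⟨w, hw⟩
    obtain ⟨x, hx1, hx2⟩ := lift_hom hD t hw.1 hw.2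
    exact ⟨⟨x, Submodule.mem_top, hx2⟩, Subtype.ext hx1⟩
  have h1 := LinearMap.finrank_range_add_finrank_ker L
  rw [LinearMap.range_eq_top.2 hsurj, finrank_top] at h1
  rw [← h1]
  congr 1
  let e : LinearMap.ker L ≃ₗ[K] Vs (LinearMap.ker D.mulVecLin) d' t :=
    { toFun := fun v => ⟨v.1.1, congrArg Subtype.val (LinearMap.mem_ker.1 v.2), v.1.2.2⟩
      map_add' := fun v w => rfl
      map_smul' := fun r v => rfl
      invFun := fun v => ⟨⟨v.1, Submodule.mem_top, v.2.2⟩, by
        rw [LinearMap.mem_ker]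
        exact Subtype.ext v.2.1⟩
      left_inv := fun v => rfl
      right_inv := fun v => rfl }
  exact e.finrank_eq

/-- alternating sum of dimensions of an exact complex -/
theorem alt_sum {dd : ℕ → ℕ} {B : ℕ → ℕ}
    {D : ∀ i : ℕ, Matrix (Fin (B i)) (Fin (B (i + 1))) (MvPolynomial (Fin s) K)}
    (hD : ∀ i, Gd (D i) (fun _ => dd i) (fun _ => dd (i + 1)))
    (hex : ∀ i, LinearMap.range (D (i + 1)).mulVecLin = LinearMap.ker (D i).mulVecLin)
    (hB : ∀ i, s < i → B i = 0) {t : ℕ}
    (ht : ∀ w : Fin (B 0) → MvPolynomial (Fin s) K, (∀ j, Hm (dd 0) t (w j)) →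
      w ∈ LinearMap.range (D 0).mulVecLin) :
    ∑ j ∈ Finset.range (s + 1), (-1 : ℤ) ^ j *
      (B j * (if dd j ≤ t then ((Mo s (t - dd j)).card : ℤ) else 0)) = 0 := by
  set R : ℕ → ℕ := fun j => Module.finrank K (Vs (LinearMap.range (D j).mulVecLin) (dd j) t)
    with hR
  set V : ℕ → ℕ := fun j => Module.finrank K (Vs (⊤ : Submodule (MvPolynomial (Fin s) K)
      (Fin (B j) → MvPolynomial (Fin s) K)) (dd j) t) with hV
  have h0 : V 0 = R 0 := by
    have : Vs (⊤ : Submodule (MvPolynomial (Fin s) K)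
      (Fin (B 0) → MvPolynomial (Fin s) K)) (dd 0) t =
        Vs (LinearMap.range (D 0).mulVecLin) (dd 0) t := by
      apply le_antisymm
      · intro w hw
        exact ⟨ht w hw.2, hw.2⟩
      · intro w hw
        exact ⟨Submodule.mem_top, hw.2⟩
    rw [hV, hR]
    simp only
    rw [this]
  have h1 : ∀ j, V (j + 1) = R j + R (j + 1) := by
    intro j
    have := rank_nullity (hD j) t
    rw [← hex j] at this
    exact this
  have h2 : ∀ n, ∑ j ∈ Finset.range (n + 1), (-1 : ℤ) ^ j * (V j : ℤ) = (-1) ^ n * R n := by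
    intro n
    induction n with
    | zero => simp [h0]
    | succ n ih =>
      rw [Finset.sum_range_succ, ih, h1]
      push_cast
      ring
  have h3 : R s = 0 := by
    have hb : B (s + 1) = 0 := hB _ (by omega)
    have : Vs (LinearMap.range (D s).mulVecLin) (dd s) t = ⊥ := by
      rw [eq_bot_iff]
      rintro w ⟨⟨x, rfl⟩, _⟩
      rw [Submodule.mem_bot]
      have : x = 0 := by
        funext k
        exact absurd k.2 (by omega)
      rw [this, map_zero]
    rw [hR]
    simp only
    rw [this]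
    exact finrank_bot K _
  have h4 := h2 s
  rw [h3, Nat.cast_zero, mul_zero] at h4
  refine Eq.trans ?_ h4
  refine Finset.sum_congr rfl fun j _ => ?_
  congr 1
  rw [hV]
  simp only
  rw [finrank_Vs_top]
  split_ifs
  · push_cast; ring
  · simp

end Dim

section HK

lemma sign_prod {s : ℕ} {d : ℕ → ℤ} (hd : ∀ i j, i ≤ s → j ≤ s → i < j → d i < d j) {i : ℕ}
    (hi : i ≤ s) :
    ∏ j ∈ (Finset.range (s + 1)).erase i, (d i - d j) =
      (-1) ^ (s - i) * ∏ j ∈ (Finset.range (s + 1)).erase i, |d j - d i| := by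
  have h1 : ∀ j ∈ (Finset.range (s + 1)).erase i, d i - d j =
      (if j < i then 1 else -1) * |d j - d i| := by
    intro j hj
    rw [Finset.mem_erase, Finset.mem_range] at hj
    by_cases h : j < i
    · have := hd j i (by omega) hi h
      rw [if_pos h, abs_of_neg (by linarith)]
      ring
    · have := hd i j hi (by omega) (by omega)
      rw [if_neg h, abs_of_pos (by linarith)]
      ring
  rw [Finset.prod_congr rfl h1, Finset.prod_mul_distrib, Finset.prod_ite, Finset.prod_const_one,
    one_mul, Finset.prod_const]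
  congr 2
  have h2 : ((Finset.range (s + 1)).erase i).filter (fun j => ¬ j < i) = Finset.Ioc i s := by
    ext j
    simp only [Finset.mem_filter, Finset.mem_erase, Finset.mem_range, Finset.mem_Ioc]
    omega
  rw [h2, Nat.card_Ioc]

/-- the Herzog-Kuehl equations -/
theorem HK {s : ℕ} {d : ℕ → ℤ} (hd : ∀ i j, i ≤ s → j ≤ s → i < j → d i < d j) {β : ℕ → ℕ}
    (hβ : ∀ i ≤ s, ∀ i' ≤ s,
          (β i : ℤ) * ∏ j ∈ (Finset.range (s + 1)).erase i, |d j - d i| =
            (β i' : ℤ) * ∏ j ∈ (Finset.range (s + 1)).erase i', |d j - d i'|)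
    {G : Polynomial ℚ} (hG : G.degree < s) :
    ∑ i ∈ Finset.range (s + 1), (-1 : ℚ) ^ i * β i * G.eval (d i : ℚ) = 0 := by
  classical
  have hinj : Set.InjOn (fun i => (d i : ℚ)) (Finset.range (s + 1) : Set ℕ) := by
    intro i hi j hj h
    rw [Finset.coe_range, Set.mem_Iio] at hi hj
    simp only [Int.cast_inj] at h
    rcases lt_trichotomy i j with g | g | g
    · have := hd i j (by omega) (by omega) g
      omega
    · exact g
    · have := hd j i (by omega) (by omega) g
      omega
  have h1 := Lagrange.coeff_eq_sum hinj (P := G) (by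
    rw [Finset.card_range]
    refine hG.trans ?_
    exact_mod_cast Nat.lt_succ_self s)
  rw [Finset.card_range, Nat.add_sub_cancel, Polynomial.coeff_eq_zero_of_degree_lt hG] at h1
  set c : ℚ := (β 0 : ℚ) * ∏ j ∈ (Finset.range (s + 1)).erase 0, |(d j : ℚ) - d 0| with hc
  have h2 : ∀ i ∈ Finset.range (s + 1), (-1 : ℚ) ^ i * β i * G.eval (d i : ℚ) =
      (-1) ^ s * c * (G.eval (d i : ℚ) / ∏ j ∈ (Finset.range (s + 1)).erase i,
        ((d i : ℚ) - d j)) := by
    intro i hi
    rw [Finset.mem_range] at hi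
    have h3 : (∏ j ∈ (Finset.range (s + 1)).erase i, ((d i : ℚ) - d j)) =
        (-1) ^ (s - i) * ∏ j ∈ (Finset.range (s + 1)).erase i, |(d j : ℚ) - d i| := by
      have := sign_prod hd (i := i) (by omega)
      exact_mod_cast congrArg (fun x : ℤ => (x : ℚ)) this
    have h4 : (β i : ℚ) * ∏ j ∈ (Finset.range (s + 1)).erase i, |(d j : ℚ) - d i| = c := by
      have := hβ i (by omega) 0 (by omega)
      rw [hc]
      exact_mod_cast congrArg (fun x : ℤ => (x : ℚ)) this
    have h5 : (∏ j ∈ (Finset.range (s + 1)).erase i, |(d j : ℚ) - d i|) ≠ 0 := by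
      rw [Finset.prod_ne_zero_iff]
      intro j hj
      rw [Finset.mem_erase, Finset.mem_range] at hj
      rw [abs_ne_zero, sub_ne_zero]
      intro h
      exact hj.1 (hinj (by simp; omega) (by simp; omega) h)
    rw [h3, ← h4]
    have h6 : (-1 : ℚ) ^ s = (-1) ^ (s - i) * (-1) ^ i := by
      rw [← pow_add]; congr 1; omega
    have h7 : ((-1 : ℚ) ^ (s - i)) ≠ 0 := pow_ne_zero _ (by norm_num)
    rw [h6]
    field_simp
  rw [Finset.sum_congr rfl h2, ← Finset.mul_sum, ← h1, mul_zero]

/-- values of the Hilbert polynomial of the ring -/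
lemma prod_shift (s x : ℕ) (hs : 1 ≤ s) :
    (∏ l ∈ Finset.range (s - 1), ((x : ℚ) + (l + 1))) =
      ((s - 1).factorial : ℚ) * ((Mo s x).card : ℚ) := by
  have h1 := Nat.ascFactorial_eq_prod_range (x + 1) (s - 1)
  have h2 := Nat.ascFactorial_eq_factorial_mul_choose x (s - 1)
  have h3 : (x + (s - 1)).choose (s - 1) = (s + x - 1).choose x := by
    have : s + x - 1 = x + (s - 1) := by omega
    rw [this]
    exact (Nat.choose_symm_of_eq_add rfl).symm
  rw [card_Mo, ← h3]
  rw [h2] at h1
  have h4 := congrArg (fun x : ℕ => (x : ℚ)) h1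
  push_cast at h4
  rw [h4]
  refine Finset.prod_congr rfl fun l _ => by ring

/-- numerical consequence of the Herzog-Kuehl equations -/
theorem HK_h {s : ℕ} (hs : 1 ≤ s) {d : ℕ → ℤ} (hd : ∀ i j, i ≤ s → j ≤ s → i < j → d i < d j)
    {β : ℕ → ℕ}
    (hβ : ∀ i ≤ s, ∀ i' ≤ s,
          (β i : ℤ) * ∏ j ∈ (Finset.range (s + 1)).erase i, |d j - d i| =
            (β i' : ℤ) * ∏ j ∈ (Finset.range (s + 1)).erase i', |d j - d i'|)
    {dd : ℕ → ℕ} (hdd : ∀ i ≤ s, (dd i : ℤ) = d i - d 0) (t : ℕ)
    (ht : ∀ i ≤ s, t < dd i → dd i ≤ t + (s - 1)) :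
    ∑ j ∈ Finset.range (s + 1), (-1 : ℤ) ^ j *
      (β j * (if dd j ≤ t then ((Mo s (t - dd j)).card : ℤ) else 0)) = 0 := by
  set G : Polynomial ℚ := ∏ l ∈ Finset.range (s - 1),
    (Polynomial.C ((t : ℚ) + d 0 + (l + 1)) - Polynomial.X) with hG
  have hdeg : G.degree < s := by
    rw [hG]
    refine lt_of_le_of_lt (Polynomial.degree_prod_le _ _) ?_
    refine lt_of_le_of_lt (Finset.sum_le_sum (g := fun _ => (1 : WithBot ℕ)) fun l _ => ?_) ?_
    · refine (Polynomial.degree_sub_le _ _).trans ?_
      rw [max_le_iff]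
      exact ⟨Polynomial.degree_C_le.trans (by norm_num), Polynomial.degree_X_le⟩
    · rw [Finset.sum_const, Finset.card_range, nsmul_eq_mul, mul_one]
      exact_mod_cast (by omega : s - 1 < s)
  have h1 := HK hd hβ hdeg
  have hev : ∀ j, G.eval (d j : ℚ) =
      ∏ l ∈ Finset.range (s - 1), (((t : ℚ) - (d j - d 0)) + (l + 1)) := by
    intro j
    rw [hG, Polynomial.eval_prod]
    refine Finset.prod_congr rfl fun l _ => ?_
    simp only [Polynomial.eval_sub, Polynomial.eval_C, Polynomial.eval_X]
    ring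
  have h2 : ∀ j ∈ Finset.range (s + 1), (-1 : ℚ) ^ j * β j * G.eval (d j : ℚ) =
      ((s - 1).factorial : ℚ) * ((-1 : ℚ) ^ j *
      (β j * (if dd j ≤ t then ((Mo s (t - dd j)).card : ℚ) else 0))) := by
    intro j hj
    rw [Finset.mem_range] at hj
    have h3 : ((d j : ℚ) - d 0) = dd j := by
      have := hdd j (by omega)
      exact_mod_cast congrArg (fun x : ℤ => (x : ℚ)) this.symm
    rw [hev, h3]
    split_ifs with h
    · have h4 : (t : ℚ) - dd j = ((t - dd j : ℕ) : ℚ) := by
        rw [Nat.cast_sub h]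
      rw [h4, prod_shift s _ hs]
      ring
    · have h5 := ht j (by omega) (by omega)
      have h6 : (∏ l ∈ Finset.range (s - 1), (((t : ℚ) - dd j) + (l + 1))) = 0 := by
        rw [Finset.prod_eq_zero_iff]
        refine ⟨dd j - t - 1, by rw [Finset.mem_range]; omega, ?_⟩
        have h7 : ((dd j - t - 1 : ℕ) : ℚ) = (dd j : ℚ) - t - 1 := by
          rw [Nat.cast_sub (by omega), Nat.cast_sub (by omega)]
          simp
        rw [h7]
        ring
      rw [h6]
      ring
  rw [Finset.sum_congr rfl h2, ← Finset.mul_sum] at h1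
  have h8 : ((s - 1).factorial : ℚ) ≠ 0 := by
    exact_mod_cast (Nat.factorial_pos _).ne'
  have h9 := (mul_eq_zero.1 h1).resolve_left h8
  have h10 : ((∑ j ∈ Finset.range (s + 1), (-1 : ℤ) ^ j *
      (β j * (if dd j ≤ t then ((Mo s (t - dd j)).card : ℤ) else 0)) : ℤ) : ℚ) = 0 := by
    rw [← h9]
    push_cast
    refine Finset.sum_congr rfl fun j _ => ?_
    split_ifs <;> simp
  exact_mod_cast h10

/-- uniqueness of the solution of the recursion -/
theorem num_unique {s : ℕ} {dd B β : ℕ → ℕ} (hdd : ∀ r, dd r < dd (r + 1)) (i0 : ℕ)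
    (h0 : ∀ i < i0, B i = β i)
    (hB : ∀ i, i0 ≤ i → i ≤ s → ∑ j ∈ Finset.range (s + 1), (-1 : ℤ) ^ j *
      (B j * (if dd j ≤ dd i then ((Mo s (dd i - dd j)).card : ℤ) else 0)) = 0)
    (hβ : ∀ i, i0 ≤ i → i ≤ s → ∑ j ∈ Finset.range (s + 1), (-1 : ℤ) ^ j *
      (β j * (if dd j ≤ dd i then ((Mo s (dd i - dd j)).card : ℤ) else 0)) = 0) :
    ∀ i ≤ s, B i = β i := by
  have hmono : StrictMono dd := strictMono_nat_of_lt_succ hdd
  intro i
  induction i using Nat.strong_induction_on with
  | _ i ih =>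
    intro hi
    by_cases hi0 : i < i0
    · exact h0 i hi0
    · have h1 := hB i (by omega) hi
      have h2 := hβ i (by omega) hi
      have h3 : ∑ j ∈ Finset.range (s + 1), (-1 : ℤ) ^ j *
          (((B j : ℤ) - β j) *
            (if dd j ≤ dd i then ((Mo s (dd i - dd j)).card : ℤ) else 0)) = 0 := by
        have h4 := congrArg₂ (fun x y : ℤ => x - y) h1 h2
        simp only [sub_zero] at h4
        refine Eq.trans ?_ h4
        rw [← Finset.sum_sub_distrib]
        exact Finset.sum_congr rfl fun j _ => by ring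
      rw [Finset.sum_eq_single i] at h3
      · rw [if_pos le_rfl, Nat.sub_self] at h3
        have h5 : (Mo s 0).card = 1 := by
          rw [card_Mo]; simp
        rw [h5] at h3
        have h6 : ((-1 : ℤ) ^ i) ≠ 0 := pow_ne_zero _ (by norm_num)
        have h7 := (mul_eq_zero.1 h3).resolve_left h6
        simp only [Nat.cast_one, mul_one] at h7
        omega
      · intro j hj hji
        rcases Nat.lt_or_ge j i with g | g
        · rw [ih j g (by omega)]
          simp
        · have : dd i < dd j := hmono (by omega)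
          rw [if_neg (by omega)]
          simp
      · intro h
        exact absurd (Finset.mem_range.2 (by omega)) h

end HK

end Run7.h869
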