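import Mathlib
import Pool.Agent.Run7.h869.Num
import Pool.Agent.Run7.h869.Base

/-!
Assembly: from complexes of matrices over `s` variables to the format of the problem.
-/

set_option autoImplicit false
set_option linter.unusedSectionVars false

namespace Run7.h869

open MvPolynomial Pool.Agent.H803R3

/-- conclusion of the problem: a pure resolution with given degrees and Betti numbers -/
def HasPure (k : Type) [Field k] (n : ℕ) (d : ℕ → ℤ) (β : ℕ → ℕ) : Prop :=
  ∃ f : (i : ℕ) → (Fin (β (i + 1)) → MvPolynomial (Fin n) k) →ₗ[MvPolynomial (Fin n) k]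
              (Fin (β i) → MvPolynomial (Fin n) k),
          (∀ (i : ℕ) (a : Fin (β i)) (b : Fin (β (i + 1))),
            (f i (Pi.single b 1) a).IsHomogeneous (d (i + 1) - d i).toNat) ∧
          (∀ i : ℕ, LinearMap.range (f (i + 1)) = LinearMap.ker (f i))

/-- assembly -/
theorem assemble {k : Type} [Field k] {s n : ℕ} (hsn : s ≤ n) {d : ℕ → ℤ} {β : ℕ → ℕ} {dd : ℕ → ℕ}
    (hdd : ∀ i ≤ s, (dd i : ℤ) = d i - d 0) (hβ : ∀ i, s < i → β i = 0)
    (D : ∀ i : ℕ, Matrix (Fin (β i)) (Fin (β (i + 1))) (MvPolynomial (Fin s) k))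
    (hD : ∀ i < s, Gd (D i) (fun _ => dd i) (fun _ => dd (i + 1)))
    (hex : ∀ i, LinearMap.range (D (i + 1)).mulVecLin = LinearMap.ker (D i).mulVecLin) :
    HasPure k n d β := by
  refine ⟨fun i => ((D i).map (rename (R := k) (Fin.castLE hsn))).mulVecLin, ?_, ?_⟩
  · intro i a b
    have h1 : ((D i).map (rename (R := k) (Fin.castLE hsn))).mulVecLin (Pi.single b 1) a =
        rename (Fin.castLE hsn) (D i a b) := by
      show ((D i).map (rename (R := k) (Fin.castLE hsn))).mulVec (Pi.single b 1) a = _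
      rw [Matrix.mulVec_single_one]
      rfl
    rw [h1]
    have hi : i + 1 ≤ s := by
      by_contra hno
      have := hβ (i + 1) (by omega)
      exact absurd b.2 (by omega)
    have h2 : (d (i + 1) - d i).toNat = dd (i + 1) - dd i := by
      have g1 := hdd (i + 1) hi
      have g2 := hdd i (by omega)
      omega
    rw [h2]
    apply IsHomogeneous.rename_isHomogeneous
    exact hm_hom (hD i (by omega) a b)
  · intro i
    exact ren_exact hsn (D i) (D (i + 1)) (hex i)

/-- a pure resolution over `s` variables given by matrices, with torsion cokernel -/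
def PM (K : Type) [Field K] (s : ℕ) (dd β : ℕ → ℕ) : Prop :=
  ∃ D : ∀ i : ℕ, Matrix (Fin (β i)) (Fin (β (i + 1))) (MvPolynomial (Fin s) K),
    (∀ i < s, Gd (D i) (fun _ => dd i) (fun _ => dd (i + 1))) ∧
    (∀ i, LinearMap.range (D (i + 1)).mulVecLin = LinearMap.ker (D i).mulVecLin) ∧
    (∃ T, ∀ c, T ≤ c → ∀ w : Fin (β 0) → MvPolynomial (Fin s) K,
      (∀ j, (w j).IsHomogeneous c) → w ∈ LinearMap.range (D 0).mulVecLin)

lemma strict_of {s : ℕ} {d : ℕ → ℤ} (hd : ∀ i < s, d i < d (i + 1)) :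
    ∀ i j, i ≤ s → j ≤ s → i < j → d i < d j := by
  intro i j hi hj hij
  induction j with
  | zero => omega
  | succ j ih =>
    rcases Nat.lt_or_ge i j with h | h
    · exact (ih (by omega) h).trans (hd j (by omega))
    · have : i = j := by omega
      subst this
      exact hd i (by omega)

section F1

/-- degrees of the first family -/
def dF (a q : ℕ) : ℕ → ℕ
  | 0 => 0
  | 1 => a
  | i + 2 => q + a + 1 + i

lemma dF_lt {a q : ℕ} (ha : 1 ≤ a) : ∀ r, dF a q r < dF a q (r + 1)
  | 0 => by simp only [dF]; omega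
  | 1 => by simp only [dF]; omega
  | i + 2 => by simp only [dF]; omega

theorem F1_complex {K : Type} [Field K] {s a q P Q : ℕ} (hs : 1 ≤ s) (ha : 1 ≤ a)
    {X : Mo s a → Fin Q → Fin P → K} (hX : IsGood q X)
    (hPQ : P * (Mo s q).card = Q * (Mo s (q + a)).card) :
    ∃ B : ℕ → ℕ, B 0 = Q ∧ B 1 = P ∧
      ∃ D : ∀ i : ℕ, Matrix (Fin (B i)) (Fin (B (i + 1))) (MvPolynomial (Fin s) K),
        (∀ i, Gd (D i) (fun _ => dF a q i) (fun _ => dF a q (i + 1))) ∧
        (∀ i, LinearMap.range (D (i + 1)).mulVecLin = LinearMap.ker (D i).mulVecLin) ∧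
        (∀ i, s < i → 1 < i → B i = 0) ∧
        (∀ c, q + a ≤ c → ∀ w : Fin (B 0) → MvPolynomial (Fin s) K,
          (∀ j, (w j).IsHomogeneous c) → w ∈ LinearMap.range (D 0).mulVecLin) := by
  obtain ⟨b, h0, D, h1, h2, h3, h4⟩ := builder (s := s) (dd := dF a q) (dF_lt ha) (r := 1)
    (M := LinearMap.ker (phM X).mulVecLin) (by
      intro v hv c
      rw [LinearMap.mem_ker] at hv ⊢
      have h1 : (phM X).mulVec v = 0 := hv
      show (phM X).mulVec (tr (fun _ => a) c v) = 0
      rw [← tr_mulVec (phM_gd X), h1, tr_zero]) (by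
      intro i c hc
      apply van_phM hs hX hPQ
      have e1 : 1 + 1 + i = i + 2 := by omega
      rw [e1] at hc
      simp only [dF] at hc
      omega)
  subst h0
  refine ⟨fun | 0 => Q | i + 1 => b i, rfl, rfl, fun | 0 => phM X | i + 1 => D i,
    ?_, ?_, ?_, ?_⟩
  · intro i
    rcases i with _ | i
    · exact phM_gd X
    · have := h1 i
      rw [add_comm 1 i] at this
      exact this
  · intro i
    rcases i with _ | i
    · ext v
      have := h2 v
      exact this
    · exact h3 i
  · intro i hi hi1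
    obtain ⟨i, rfl⟩ : ∃ j, i = j + 1 := ⟨i - 1, by omega⟩
    exact h4 i (by omega) (by omega)
  · intro c hc w hw
    exact surj_ge hX hPQ hc w hw

theorem F1_main (k : Type) [Field k] {s : ℕ} {d : ℕ → ℤ} (hs : 2 ≤ s)
    (hd : ∀ i < s, d i < d (i + 1)) (hF : ∀ i, 2 ≤ i → i < s → d (i + 1) = d i + 1) :
    ∃ N : ℕ, ∀ β : ℕ → ℕ, (∀ i, s < i → β i = 0) → N ≤ β 0 →
        (∀ i ≤ s, ∀ i' ≤ s,
          (β i : ℤ) * ∏ j ∈ (Finset.range (s + 1)).erase i, |d j - d i| =
            (β i' : ℤ) * ∏ j ∈ (Finset.range (s + 1)).erase i', |d j - d i'|) →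
        ∃ dd : ℕ → ℕ, (∀ i ≤ s, (dd i : ℤ) = d i - d 0) ∧ PM k s dd β := by
  obtain ⟨a, haZ⟩ : ∃ a : ℕ, (a : ℤ) = d 1 - d 0 :=
    ⟨(d 1 - d 0).toNat, Int.toNat_of_nonneg (by have := hd 0 (by omega); simp at this; omega)⟩
  have ha : 1 ≤ a := by
    have := hd 0 (by omega)
    simp at this
    omega
  obtain ⟨q, hqZ⟩ : ∃ q : ℕ, (q : ℤ) = d 2 - d 1 - 1 :=
    ⟨(d 2 - d 1 - 1).toNat, Int.toNat_of_nonneg (by have := hd 1 (by omega); simp at this; omega)⟩
  have hdd : ∀ i ≤ s, (dF a q i : ℤ) = d i - d 0 := by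
    intro i hi
    rcases i with _ | _ | i
    · simp [dF]
    · simpa [dF] using haZ
    · induction i with
      | zero =>
        simp only [dF]
        push_cast
        rw [hqZ, haZ]
        ring
      | succ i ih =>
        have h1 := ih (by omega)
        have h2 := hF (i + 2) (by omega) (by omega)
        simp only [dF] at h1 ⊢
        push_cast at h1 ⊢
        have h3 : d (i + 1 + 1 + 1) = d (i + 2 + 1) := rfl
        have h4 : d (i + 1 + 1) = d (i + 2) := rfl
        rw [h3, h2, ← h4]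
        linarith
  have hstr := strict_of hd
  obtain ⟨N, hN⟩ := good_cM (s := s) (by omega) (a := a) (q := q) ha k
  refine ⟨N, fun β hβ0 hβN hβ => ?_⟩
  have hT := HK_h (by omega) hstr hβ hdd (q + a) (by
    intro i hi h
    rcases i with _ | _ | i
    · simp only [dF] at h; omega
    · simp only [dF] at h; omega
    · simp only [dF] at h ⊢; omega)
  have hPQ : β 1 * (Mo s q).card = β 0 * (Mo s (q + a)).card := by
    have h1 : ∀ j ∈ Finset.range (s + 1), j ∉ Finset.range 2 → (-1 : ℤ) ^ j *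
        (β j * (if dF a q j ≤ q + a then ((Mo s (q + a - dF a q j)).card : ℤ) else 0)) = 0 := by
      intro j _ hj
      rw [Finset.mem_range] at hj
      obtain ⟨j, rfl⟩ : ∃ i, j = i + 2 := ⟨j - 2, by omega⟩
      rw [if_neg (by simp only [dF]; omega)]
      simp
    rw [← Finset.sum_subset (Finset.range_subset_range.2 (by omega)) h1] at hT
    rw [Finset.sum_range_succ, Finset.sum_range_one] at hT
    simp only [dF] at hT
    rw [if_pos (by omega), if_pos (by omega)] at hT
    rw [Nat.sub_zero, Nat.add_sub_cancel] at hT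
    zify
    linarith
  obtain ⟨X, hX⟩ := hN (β 0) hβN (β 1) hPQ
  obtain ⟨B, hB0, hB1, D, hD1, hD2, hD3, hD4⟩ := F1_complex (by omega) ha (X := X) hX hPQ
  have hBβ : ∀ i ≤ s, B i = β i := by
    apply num_unique (dF_lt (q := q) ha) 2
    · intro i hi
      interval_cases i
      · exact hB0
      · exact hB1
    · intro i hi2 hi
      apply alt_sum hD1 hD2 (fun i hi => hD3 i hi (by omega))
      intro w hw
      apply hD4 (dF a q i) _ w (fun j => hm_hom (hw j))
      obtain ⟨i, rfl⟩ : ∃ j, i = j + 2 := ⟨i - 2, by omega⟩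
      simp only [dF]
      omega
    · intro i hi2 hi
      apply HK_h (by omega) hstr hβ hdd
      intro j hj hij
      obtain ⟨i, rfl⟩ : ∃ j, i = j + 2 := ⟨i - 2, by omega⟩
      rcases j with _ | _ | j
      · simp only [dF] at hij ⊢; omega
      · simp only [dF] at hij ⊢; omega
      · simp only [dF] at hij ⊢; omega
  have hBe : B = β := by
    funext i
    rcases Nat.lt_or_ge s i with h | h
    · rw [hD3 i h (by omega), hβ0 i h]
    · exact hBβ i h
  subst hBe
  exact ⟨dF a q, hdd, D, fun i _ => hD1 i, hD2, q + a, hD4⟩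

end F1

end Run7.h869
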