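import Mathlib
import Pool.Agent.Run7.h869.Asm

/-!
Duality for pure resolutions of modules of finite length.
-/

set_option autoImplicit false
set_option linter.unusedSectionVars false

namespace Run7.h869

open MvPolynomial Pool.Agent.H803R3

variable {K : Type} [Field K] {s : ℕ}

section Homotopy

/-- homotopies -/
theorem homotopy {R : Type*} [CommRing R] {b : ℕ → ℕ}
    (D : ∀ i : ℕ, Matrix (Fin (b i)) (Fin (b (i + 1))) R)
    (hex : ∀ i, LinearMap.range (D (i + 1)).mulVecLin = LinearMap.ker (D i).mulVecLin) (x : R)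
    (h0 : ∀ j, x • (Pi.single j 1 : Fin (b 0) → R) ∈ LinearMap.range (D 0).mulVecLin) :
    ∃ H : ∀ i : ℕ, Matrix (Fin (b (i + 1))) (Fin (b i)) R,
      ∀ i, D (i + 1) * H (i + 1) + H i * D i = x • 1 := by
  classical
  have hmul : ∀ i, D i * D (i + 1) = 0 := by
    intro i
    ext u v
    have h1 : (D (i + 1)).mulVecLin (Pi.single v 1) ∈ LinearMap.ker (D i).mulVecLin := by
      rw [← hex]; exact ⟨_, rfl⟩
    have h2 : (D i).mulVec ((D (i + 1)).mulVec (Pi.single v 1)) = 0 := h1
    rw [Matrix.mulVec_mulVec, Matrix.mulVec_single_one] at h2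
    exact congrFun h2 u
  have lift : ∀ {p q r : ℕ} (A : Matrix (Fin p) (Fin q) R) (B : Matrix (Fin p) (Fin r) R),
      (∀ j, B.col j ∈ LinearMap.range A.mulVecLin) → ∃ H : Matrix (Fin q) (Fin r) R, A * H = B := by
    intro p q r A B h
    choose z hz using h
    refine ⟨fun a j => z j a, ?_⟩
    ext u j
    exact congrFun (hz j) u
  obtain ⟨H0, hH0⟩ := lift (D 0) (x • (1 : Matrix (Fin (b 0)) (Fin (b 0)) R)) (by
    intro j
    have : (x • (1 : Matrix (Fin (b 0)) (Fin (b 0)) R)).col j = x • (Pi.single j 1) := by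
      funext u
      simp [Matrix.col, Matrix.one_apply, Pi.single_apply]
    rw [this]
    exact h0 j)
  have next : ∀ i (H : {H : Matrix (Fin (b (i + 1))) (Fin (b i)) R // D i * H * D i = x • D i}),
      ∃ H' : {H : Matrix (Fin (b (i + 1 + 1))) (Fin (b (i + 1))) R //
        D (i + 1) * H * D (i + 1) = x • D (i + 1)},
        D (i + 1) * H'.1 + H.1 * D i = x • 1 := by
    rintro i ⟨H, hH⟩
    obtain ⟨H', hH'⟩ := lift (D (i + 1)) (x • 1 - H * D i) (by
      intro j
      rw [hex, LinearMap.mem_ker]
      show (D i).mulVec ((x • (1 : Matrix _ _ R) - H * D i).col j) = 0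
      have h3 : D i * (x • (1 : Matrix _ _ R) - H * D i) = 0 := by
        rw [Matrix.mul_sub, ← Matrix.mul_assoc, hH, Matrix.mul_smul, Matrix.mul_one, sub_self]
      funext u
      have h4 := congrFun (congrFun h3 u) j
      exact h4)
    refine ⟨⟨H', ?_⟩, ?_⟩
    · rw [hH', Matrix.sub_mul, Matrix.mul_assoc, hmul, Matrix.mul_zero, sub_zero,
        Matrix.smul_mul, Matrix.one_mul]
    · show D (i + 1) * H' + H * D i = x • 1
      rw [hH', sub_add_cancel]
  choose nx hnx using next
  let sq : ∀ i, {H : Matrix (Fin (b (i + 1))) (Fin (b i)) R // D i * H * D i = x • D i} :=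
    fun i => Nat.rec (motive := fun i =>
        {H : Matrix (Fin (b (i + 1))) (Fin (b i)) R // D i * H * D i = x • D i})
      ⟨H0, by rw [hH0, Matrix.smul_mul, Matrix.one_mul]⟩ (fun i H => nx i H) i
  exact ⟨fun i => (sq i).1, fun i => hnx i (sq i)⟩

end Homotopy

/-- depth lemma -/
lemma depth_mem {m : ℕ} (hs : 1 ≤ s)
    {B : Submodule (MvPolynomial (Fin s) K) (Fin m → MvPolynomial (Fin s) K)}
    {e c : ℕ} (hV : Van B (fun _ => e) (s - 1) (c + 1))
    {u : Fin m → MvPolynomial (Fin s) K} (hu : ∀ k, Hm e c (u k))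
    (hx : ∀ t : Fin s, (X t : MvPolynomial (Fin s) K) • u ∈ B) : u ∈ B := by
  classical
  set w : Finset (Fin s) → Fin m → MvPolynomial (Fin s) K :=
    fun U => if U = Finset.univ then u else 0 with hw
  have hw1 : ∀ U : Finset (Fin s), U.card ≠ s - 1 + 1 → w U = 0 := by
    intro U hU
    rw [hw]
    simp only
    rw [if_neg]
    rintro rfl
    apply hU
    rw [Finset.card_univ, Fintype.card_fin]
    omega
  have hw2 : ∀ U k, Hm e c (w U k) := by
    intro U k
    show Hm e c ((if U = Finset.univ then u else 0) k)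
    split_ifs
    · exact hu k
    · exact Or.inl rfl
  obtain ⟨g, g1, g2, g3⟩ := hV (kd w) (fun T hT => kd_card hw1 hT) (by
    intro T
    rw [kd_eq]
    refine Submodule.sum_mem _ fun t _ => ?_
    rw [mul_smul]
    refine Submodule.smul_mem _ _ ?_
    show (X t : MvPolynomial (Fin s) K) • (if insert t T = Finset.univ then u else 0) ∈ B
    split_ifs
    · exact hx t
    · rw [smul_zero]; exact B.zero_mem) (fun T k => kd_hm hw2 T k) (fun T => kd_kd w T)
  have h1 : ∀ T, (fun U => w U - g U) T = 0 := by
    apply top_cyc hs (i := s - 1 + 1) (by omega)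
    · intro T hT
      show w T - g T = 0
      rw [hw1 T hT, g1 T hT, sub_zero]
    · intro T
      rw [kd_sub, ← g3, sub_self]
  have h2 := h1 Finset.univ
  simp only [hw, if_pos] at h2
  rw [sub_eq_zero] at h2
  rw [h2]
  exact g2 _

/-- powers of the maximal ideal -/
lemma depth_pow {m : ℕ} (hs : 1 ≤ s)
    {B : Submodule (MvPolynomial (Fin s) K) (Fin m → MvPolynomial (Fin s) K)}
    {e : ℕ} (hV : ∀ c, Van B (fun _ => e) (s - 1) (c + 1)) :
    ∀ (T c : ℕ) (u : Fin m → MvPolynomial (Fin s) K), (∀ k, Hm e c (u k)) →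
    (∀ κ ∈ Mo s T, (monomial κ (1 : K) : MvPolynomial (Fin s) K) • u ∈ B) → u ∈ B := by
  intro T
  induction T with
  | zero =>
    intro c u _ h
    have := h 0 (by simp [mem_Mo])
    have h1 : (monomial (0 : Fin s →₀ ℕ) (1 : K) : MvPolynomial (Fin s) K) = 1 := rfl
    rwa [h1, one_smul] at this
  | succ T ih =>
    intro c u hu h
    apply depth_mem hs (hV c) hu
    intro t
    apply ih (c + 1)
    · intro k
      rcases hu k with h1 | h1
      · left
        rw [Pi.smul_apply, h1, smul_zero]
      · right
        refine ⟨by omega, ?_⟩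
        rw [Pi.smul_apply, smul_eq_mul]
        have h2 := (isHomogeneous_X K t).mul h1.2
        have h3 : 1 + (c - e) = c + 1 - e := by omega
        rwa [h3] at h2
    · intro κ hκ
      have h4 := h (κ + Finsupp.single t 1) (add_mem_Mo hκ (single_mem_Mo t))
      have h5 : (monomial (κ + Finsupp.single t 1) (1 : K) : MvPolynomial (Fin s) K) =
          monomial κ 1 * X t := by
        rw [X, monomial_mul, mul_one]
      rw [h5, mul_smul] at h4
      exact h4

lemma Gd.transpose {m m' : ℕ} {D : Matrix (Fin m) (Fin m') (MvPolynomial (Fin s) K)}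
    {e e' E : ℕ} (h1 : e ≤ e') (h2 : e' ≤ E) (hD : Gd D (fun _ => e) (fun _ => e')) :
    Gd D.transpose (fun _ => E - e') (fun _ => E - e) := by
  intro u v
  rcases hD v u with h | h
  · exact Or.inl h
  · right
    have h3 : E - e - (E - e') = e' - e := by omega
    show E - e' ≤ E - e ∧ (D v u).IsHomogeneous (E - e - (E - e'))
    rw [h3]
    exact ⟨by omega, h.2⟩

/-- exactness of the transposed complex -/
theorem transpose_exact {dd β : ℕ → ℕ} (hs : 1 ≤ s) (hdd : ∀ i < s, dd i ≤ dd (i + 1))
    (D : ∀ i : ℕ, Matrix (Fin (β i)) (Fin (β (i + 1))) (MvPolynomial (Fin s) K))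
    (hD : ∀ i < s, Gd (D i) (fun _ => dd i) (fun _ => dd (i + 1)))
    (hex : ∀ i, LinearMap.range (D (i + 1)).mulVecLin = LinearMap.ker (D i).mulVecLin)
    {T : ℕ} (hT : ∀ c, T ≤ c → ∀ w : Fin (β 0) → MvPolynomial (Fin s) K,
      (∀ j, (w j).IsHomogeneous c) → w ∈ LinearMap.range (D 0).mulVecLin) :
    LinearMap.ker (D 0).transpose.mulVecLin = ⊥ ∧
    (∀ i, i + 1 < s → LinearMap.ker (D (i + 1)).transpose.mulVecLin =
      LinearMap.range (D i).transpose.mulVecLin) ∧
    (∀ κ ∈ Mo s T, ∀ i, ∀ v, (D (i + 1)).transpose.mulVec v = 0 →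
      (monomial κ (1 : K) : MvPolynomial (Fin s) K) • v ∈
        LinearMap.range (D i).transpose.mulVecLin) := by
  classical
  have hmon : ∀ κ ∈ Mo s T, (monomial κ (1 : K) : MvPolynomial (Fin s) K).IsHomogeneous T := by
    intro κ hκ
    rw [hom_iff_Mo]
    intro ν hν
    rw [coeff_monomial] at hν
    split_ifs at hν with h
    · exact h ▸ hκ
    · exact absurd rfl hν
  have hunit : ∀ κ ∈ Mo s T, ∀ j, (monomial κ (1 : K) : MvPolynomial (Fin s) K) •
      (Pi.single j 1 : Fin (β 0) → MvPolynomial (Fin s) K) ∈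
        LinearMap.range (D 0).mulVecLin := by
    intro κ hκ j
    apply hT T le_rfl
    intro j'
    rw [Pi.smul_apply, smul_eq_mul]
    by_cases h : j' = j
    · subst h
      rw [Pi.single_eq_same, mul_one]
      exact hmon κ hκ
    · rw [Pi.single_eq_of_ne h, mul_zero]
      exact isHomogeneous_zero _ _ _
  have hkill : ∀ κ ∈ Mo s T, ∀ i, ∀ v, (D (i + 1)).transpose.mulVec v = 0 →
      (monomial κ (1 : K) : MvPolynomial (Fin s) K) • v ∈
        LinearMap.range (D i).transpose.mulVecLin := by
    intro κ hκ i v hv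
    obtain ⟨H, hH⟩ := homotopy D hex _ (hunit κ hκ)
    have h1 := congrArg Matrix.transpose (hH i)
    rw [Matrix.transpose_add, Matrix.transpose_mul, Matrix.transpose_mul,
      Matrix.transpose_smul, Matrix.transpose_one] at h1
    refine ⟨(H i).transpose.mulVec v, ?_⟩
    show (D i).transpose.mulVec ((H i).transpose.mulVec v) = _
    have h2 : ((monomial κ (1 : K) : MvPolynomial (Fin s) K) •
        (1 : Matrix (Fin (β (i + 1))) (Fin (β (i + 1))) (MvPolynomial (Fin s) K))).mulVec v =
        (monomial κ (1 : K) : MvPolynomial (Fin s) K) • v := by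
      rw [Matrix.smul_mulVec, Matrix.one_mulVec]
    rw [← h2, ← h1, Matrix.add_mulVec, ← Matrix.mulVec_mulVec, hv, Matrix.mulVec_zero, zero_add,
      Matrix.mulVec_mulVec]
  have hker0 : LinearMap.ker (D 0).transpose.mulVecLin = ⊥ := by
    rw [eq_bot_iff]
    intro v hv
    have hv' : (D 0).transpose.mulVec v = 0 := hv
    rw [Submodule.mem_bot]
    obtain ⟨κ, hκ⟩ : ∃ κ, κ ∈ Mo s T := by
      have := card_Mo_pos hs T
      exact Finset.card_pos.1 this
    have h3 : (monomial κ (1 : K) : MvPolynomial (Fin s) K) • v = 0 := by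
      funext j
      obtain ⟨z, hz⟩ := hunit κ hκ j
      have h4 : v ⬝ᵥ ((monomial κ (1 : K) : MvPolynomial (Fin s) K) •
          (Pi.single j 1 : Fin (β 0) → MvPolynomial (Fin s) K)) =
          (monomial κ (1 : K) : MvPolynomial (Fin s) K) * v j := by
        rw [dotProduct_smul, dotProduct_single, mul_one, smul_eq_mul]
      rw [Pi.smul_apply, smul_eq_mul, ← h4, ← hz]
      show v ⬝ᵥ ((D 0).mulVec z) = 0
      rw [Matrix.dotProduct_mulVec, ← Matrix.mulVec_transpose, hv', zero_dotProduct]
    rcases smul_eq_zero.1 h3 with h | h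
    · exfalso
      rw [monomial_eq_zero] at h
      exact one_ne_zero h
    · exact h
  have hmono : ∀ i, i ≤ s → dd i ≤ dd s := by
    intro i hi
    obtain ⟨j, rfl⟩ := Nat.exists_eq_add_of_le hi
    have : ∀ l, l ≤ j → dd i ≤ dd (i + l) := by
      intro l
      induction l with
      | zero => intro _; exact le_rfl
      | succ l ih => intro hl; exact (ih (by omega)).trans (hdd (i + l) (by omega))
    exact this j le_rfl
  have hG : ∀ i < s, Gd (D i).transpose (fun _ => dd s - dd (i + 1)) (fun _ => dd s - dd i) :=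
    fun i hi => Gd.transpose (hdd i hi) (hmono (i + 1) hi) (hD i hi)
  have main : ∀ i, (i + 1 < s → LinearMap.ker (D (i + 1)).transpose.mulVecLin =
      LinearMap.range (D i).transpose.mulVecLin) ∧
      (i < s → ∀ j c, i + 1 ≤ j →
        Van (LinearMap.range (D i).transpose.mulVecLin) (fun _ => dd s - dd (i + 1)) j c) := by
    intro i
    induction i with
    | zero =>
      have hvan : 0 < s → ∀ j c, 0 + 1 ≤ j →
          Van (LinearMap.range (D 0).transpose.mulVecLin) (fun _ => dd s - dd (0 + 1)) j c := by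
        intro h0 j c hj
        obtain ⟨j, rfl⟩ : ∃ j', j = j' + 1 := ⟨j - 1, by omega⟩
        apply step_a (hG 0 h0)
        rw [hker0]
        apply van_of_zero
        intro v hv _
        exact hv
      refine ⟨?_, hvan⟩
      intro h1
      apply le_antisymm
      · intro v hv
        have hv' : (D 1).transpose.mulVec v = 0 := hv
        obtain ⟨N, hN⟩ := sum_tr (fun _ => dd s - dd 1) v
        rw [hN]
        refine Submodule.sum_mem _ fun c _ => ?_
        apply depth_pow hs (fun c => hvan (by omega) (s - 1) (c + 1) (by omega)) T c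
        · intro k
          exact tr_hm _ _ _ _
        · intro κ hκ
          apply hkill κ hκ
          rw [← tr_mulVec (hG 1 h1), hv', tr_zero]
      · rintro _ ⟨w, rfl⟩
        show (D 1).transpose.mulVec ((D 0).transpose.mulVec w) = 0
        rw [Matrix.mulVec_mulVec, ← Matrix.transpose_mul]
        have : D 0 * D 1 = 0 := by
          refine Matrix.ext fun u v => ?_
          have h1 : (D 1).mulVecLin (Pi.single v 1) ∈ LinearMap.ker (D 0).mulVecLin := by
            rw [← hex]; exact ⟨_, rfl⟩
          have h2 : (D 0).mulVec ((D 1).mulVec (Pi.single v 1)) = 0 := h1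
          rw [Matrix.mulVec_mulVec, Matrix.mulVec_single_one] at h2
          exact congrFun h2 u
        rw [this, Matrix.transpose_zero, Matrix.zero_mulVec]
    | succ i ih =>
      have hvan : i + 1 < s → ∀ j c, i + 1 + 1 ≤ j →
          Van (LinearMap.range (D (i + 1)).transpose.mulVecLin)
            (fun _ => dd s - dd (i + 1 + 1)) j c := by
        intro h0 j c hj
        obtain ⟨j, rfl⟩ : ∃ j', j = j' + 1 := ⟨j - 1, by omega⟩
        apply step_a (hG (i + 1) h0)
        rw [ih.1 h0]
        exact ih.2 (by omega) j (c + 1) (by omega)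
      refine ⟨?_, hvan⟩
      intro h1
      apply le_antisymm
      · intro v hv
        have hv' : (D (i + 1 + 1)).transpose.mulVec v = 0 := hv
        obtain ⟨N, hN⟩ := sum_tr (fun _ => dd s - dd (i + 1 + 1)) v
        rw [hN]
        refine Submodule.sum_mem _ fun c _ => ?_
        apply depth_pow hs (fun c => hvan (by omega) (s - 1) (c + 1) (by omega)) T c
        · intro k
          exact tr_hm _ _ _ _
        · intro κ hκ
          apply hkill κ hκ
          rw [← tr_mulVec (hG (i + 1 + 1) h1), hv', tr_zero]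
      · rintro _ ⟨w, rfl⟩
        show (D (i + 1 + 1)).transpose.mulVec ((D (i + 1)).transpose.mulVec w) = 0
        rw [Matrix.mulVec_mulVec, ← Matrix.transpose_mul]
        have : D (i + 1) * D (i + 1 + 1) = 0 := by
          refine Matrix.ext fun u v => ?_
          have h1 : (D (i + 1 + 1)).mulVecLin (Pi.single v 1) ∈
              LinearMap.ker (D (i + 1)).mulVecLin := by
            rw [← hex]; exact ⟨_, rfl⟩
          have h2 : (D (i + 1)).mulVec ((D (i + 1 + 1)).mulVec (Pi.single v 1)) = 0 := h1
          rw [Matrix.mulVec_mulVec, Matrix.mulVec_single_one] at h2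
          exact congrFun h2 u
        rw [this, Matrix.transpose_zero, Matrix.zero_mulVec]
  exact ⟨hker0, fun i => (main i).1, hkill⟩

section Reverse

/-- two index version of a cochain complex -/
noncomputable def EE {R : Type*} [CommRing R] {b : ℕ → ℕ}
    (E : ∀ i : ℕ, Matrix (Fin (b (i + 1))) (Fin (b i)) R) (p q : ℕ) :
    Matrix (Fin (b p)) (Fin (b q)) R :=
  if h : p = q + 1 then h ▸ E q else 0

lemma EE_eq {R : Type*} [CommRing R] {b : ℕ → ℕ}
    (E : ∀ i : ℕ, Matrix (Fin (b (i + 1))) (Fin (b i)) R) (q : ℕ) : EE E (q + 1) q = E q := by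
  unfold EE
  rw [dif_pos rfl]

/-- reversed Betti numbers -/
def rv (s : ℕ) (b : ℕ → ℕ) (i : ℕ) : ℕ := if i ≤ s then b (s - i) else 0

lemma rv_le {s : ℕ} (b : ℕ → ℕ) {i : ℕ} (h : i ≤ s) : rv s b i = b (s - i) := if_pos h

/-- reversed complex -/
noncomputable def revD {R : Type*} [CommRing R] (s : ℕ) {b : ℕ → ℕ}
    (E : ∀ i : ℕ, Matrix (Fin (b (i + 1))) (Fin (b i)) R) (i : ℕ) :
    Matrix (Fin (rv s b i)) (Fin (rv s b (i + 1))) R :=
  if h : i < s then
    (EE E (s - i) (s - (i + 1))).submatrix (finCongr (rv_le b h.le)) (finCongr (rv_le b h))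
  else 0

lemma revD_mulVec {R : Type*} [CommRing R] {s : ℕ} {b : ℕ → ℕ}
    (E : ∀ i : ℕ, Matrix (Fin (b (i + 1))) (Fin (b i)) R) {i : ℕ} (h : i < s)
    (x : Fin (rv s b (i + 1)) → R) :
    (revD s E i).mulVec x = ((EE E (s - i) (s - (i + 1))).mulVec
      (x ∘ (finCongr (rv_le b h)).symm)) ∘ (finCongr (rv_le b h.le)) := by
  unfold revD
  rw [dif_pos h, Matrix.submatrix_mulVec_equiv]

lemma rev_exact {R : Type*} [CommRing R] {s : ℕ} {b : ℕ → ℕ}
    (E : ∀ i : ℕ, Matrix (Fin (b (i + 1))) (Fin (b i)) R)
    (h0 : 0 < s → LinearMap.ker (E 0).mulVecLin = ⊥)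
    (h1 : ∀ i, i + 1 < s → LinearMap.ker (E (i + 1)).mulVecLin = LinearMap.range (E i).mulVecLin)
    (i : ℕ) :
    LinearMap.range (revD s E (i + 1)).mulVecLin = LinearMap.ker (revD s E i).mulVecLin := by
  rcases Nat.lt_or_ge i s with hi | hi
  · rcases Nat.lt_or_ge (i + 1) s with hi1 | hi1
    · have key : ∀ p q r, p = q + 1 → q = r + 1 → q < s → ∀ x : Fin (b q) → R,
          (EE E p q).mulVec x = 0 ↔ ∃ z, (EE E q r).mulVec z = x := by
        intro p q r hp hq hqs x
        subst hp
        subst hq
        rw [EE_eq, EE_eq]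
        have h2 := h1 r hqs
        have h3 : x ∈ LinearMap.ker (E (r + 1)).mulVecLin ↔
            x ∈ LinearMap.range (E r).mulVecLin := by rw [h2]
        exact h3
      ext x
      rw [LinearMap.mem_ker, LinearMap.mem_range]
      show (∃ y, (revD s E (i + 1)).mulVec y = x) ↔ (revD s E i).mulVec x = 0
      have h4 := key (s - i) (s - (i + 1)) (s - (i + 1 + 1)) (by omega) (by omega) (by omega)
        (x ∘ (finCongr (rv_le b hi)).symm)
      constructor
      · rintro ⟨y, hy⟩
        rw [revD_mulVec E hi]
        have h5 := h4.2 ⟨y ∘ (finCongr (rv_le b hi1)).symm, by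
          rw [← hy, revD_mulVec E hi1]
          funext u
          rfl⟩
        rw [h5]
        rfl
      · intro hx
        rw [revD_mulVec E hi] at hx
        have h6 : (EE E (s - i) (s - (i + 1))).mulVec (x ∘ (finCongr (rv_le b hi)).symm) = 0 := by
          funext u
          have := congrFun hx ((finCongr (rv_le b hi.le)).symm u)
          simpa using this
        obtain ⟨z, hz⟩ := h4.1 h6
        refine ⟨z ∘ (finCongr (rv_le b hi1)), ?_⟩
        rw [revD_mulVec E hi1]
        have h7 : (z ∘ (finCongr (rv_le b hi1))) ∘ (finCongr (rv_le b hi1)).symm = z := by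
          funext u; simp
        rw [h7, hz]
        funext u
        simp
    · have hs : s = i + 1 := by omega
      subst hs
      have hz : rv (i + 1) b (i + 1 + 1) = 0 := if_neg (by omega)
      have h5 : LinearMap.ker (revD (i + 1) E i).mulVecLin = ⊥ := by
        rw [eq_bot_iff]
        intro x hx
        have hx' : (revD (i + 1) E i).mulVec x = 0 := hx
        rw [revD_mulVec E hi] at hx'
        have key : ∀ p q, p = q + 1 → q = 0 → ∀ x : Fin (b q) → R,
            (EE E p q).mulVec x = 0 → x = 0 := by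
          intro p q hp hq x hx
          subst hp
          subst hq
          rw [EE_eq] at hx
          have h6 : x ∈ LinearMap.ker (E 0).mulVecLin := hx
          rw [h0 (by omega)] at h6
          exact h6
        have h6 : (EE E (i + 1 - i) (i + 1 - (i + 1))).mulVec
            (x ∘ (finCongr (rv_le b hi)).symm) = 0 := by
          funext u
          have := congrFun hx' ((finCongr (rv_le b hi.le)).symm u)
          simpa using this
        have h7 := key _ _ (by omega) (by omega) _ h6
        rw [Submodule.mem_bot]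
        funext u
        have := congrFun h7 (finCongr (rv_le b hi) u)
        simpa using this
      rw [h5, eq_bot_iff]
      rintro _ ⟨y, rfl⟩
      rw [Submodule.mem_bot]
      have hy : y = 0 := by
        funext u
        exact absurd u.2 (by omega)
      rw [hy, map_zero]
  · have hz : rv s b (i + 1) = 0 := if_neg (by omega)
    have : ∀ x : Fin (rv s b (i + 1)) → R, x = 0 := by
      intro x
      funext u
      exact absurd u.2 (by omega)
    ext x
    rw [this x]
    simp

end Reverse

/-- duality for pure resolutions -/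
theorem PM.dual {dd β : ℕ → ℕ} (hs : 1 ≤ s) (hdd : ∀ i < s, dd i ≤ dd (i + 1))
    (hβ : ∀ i, s < i → β i = 0) (h : PM K s dd β) :
    PM K s (fun i => dd s - dd (s - i)) (rv s β) := by
  classical
  obtain ⟨D, hD, hex, T, hT⟩ := h
  obtain ⟨h0, h1, h2⟩ := transpose_exact hs hdd D hD hex hT
  have hmono : ∀ i, i ≤ s → dd i ≤ dd s := by
    intro i hi
    obtain ⟨j, rfl⟩ := Nat.exists_eq_add_of_le hi
    have : ∀ l, l ≤ j → dd i ≤ dd (i + l) := by
      intro l
      induction l with
      | zero => intro _; exact le_rfl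
      | succ l ih => intro hl; exact (ih (by omega)).trans (hdd (i + l) (by omega))
    exact this j le_rfl
  refine ⟨revD s (fun i => (D i).transpose), ?_, ?_, T, ?_⟩
  · intro i hi u v
    have key : ∀ p q, p = q + 1 → q < s → ∀ u v,
        Hm (dd s - dd p) (dd s - dd q) (EE (fun i => (D i).transpose) p q u v) := by
      intro p q hp hq u v
      subst hp
      rw [EE_eq]
      exact Gd.transpose (hdd q hq) (hmono (q + 1) hq) (hD q hq) u v
    have h3 : revD s (fun i => (D i).transpose) i u v =
        EE (fun i => (D i).transpose) (s - i) (s - (i + 1)) (finCongr (rv_le β hi.le) u)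
          (finCongr (rv_le β hi) v) := by
      unfold revD
      rw [dif_pos hi]
      rfl
    show Hm (dd s - dd (s - i)) (dd s - dd (s - (i + 1))) (revD s (fun i => (D i).transpose) i u v)
    rw [h3]
    exact key (s - i) (s - (i + 1)) (by omega) (by omega) _ _
  · intro i
    exact rev_exact (s := s) (fun i => (D i).transpose) (fun _ => h0) h1 i
  · intro c hc w hw
    obtain ⟨e, rfl⟩ : ∃ e, c = T + e := ⟨c - T, by omega⟩
    have hunit : ∀ κ ∈ Mo s T, ∀ j, (Pi.single j (monomial κ (1 : K)) :
        Fin (rv s β 0) → MvPolynomial (Fin s) K) ∈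
        LinearMap.range (revD s (fun i => (D i).transpose) 0).mulVecLin := by
      intro κ hκ j
      have key : ∀ p q, p = q + 1 → p = s → ∀ j : Fin (β p), ∃ z,
          (EE (fun i => (D i).transpose) p q).mulVec z =
            (Pi.single j (monomial κ (1 : K)) : Fin (β p) → MvPolynomial (Fin s) K) := by
        intro p q hp hps j
        subst hp
        rw [EE_eq]
        have h3 := h2 κ hκ q (Pi.single j 1) (by
          funext u
          exfalso
          have h4 := hβ (q + 1 + 1) (by omega)
          exact absurd u.2 (by omega))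
        obtain ⟨z, hz⟩ := h3
        refine ⟨z, ?_⟩
        have h5 : (D q).transpose.mulVec z = _ := hz
        rw [h5, ← Pi.single_smul, smul_eq_mul, mul_one]
      obtain ⟨z, hz⟩ := key (s - 0) (s - (0 + 1)) (by omega) (by omega)
        (finCongr (rv_le β (Nat.zero_le s)) j)
      have h0s : 0 < s := by omega
      refine ⟨z ∘ (finCongr (rv_le β h0s)), ?_⟩
      show (revD s (fun i => (D i).transpose) 0).mulVec _ = _
      rw [revD_mulVec _ h0s]
      have h7 : (z ∘ (finCongr (rv_le β h0s))) ∘ (finCongr (rv_le β h0s)).symm = z := by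
        funext u; simp
      rw [h7, hz]
      funext u
      simp only [Function.comp]
      by_cases huj : u = j
      · subst huj
        rw [Pi.single_eq_same, Pi.single_eq_same]
      · rw [Pi.single_eq_of_ne huj, Pi.single_eq_of_ne]
        intro h
        exact huj ((finCongr (rv_le β (Nat.zero_le s))).injective h)
    have h8 : w = ∑ j, ∑ ν : Mo s (T + e),
        Pi.single j (monomial ν.1 (coeff ν.1 (w j)) : MvPolynomial (Fin s) K) := by
      funext j'
      rw [Finset.sum_apply, Finset.sum_eq_single j']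
      · rw [Finset.sum_apply]
        simp only [Pi.single_eq_same]
        exact hom_expand (hw j')
      · intro j _ hne
        rw [Finset.sum_apply]
        exact Finset.sum_eq_zero fun ν _ => Pi.single_eq_of_ne hne.symm _
      · intro h
        exact absurd (Finset.mem_univ _) h
    rw [h8]
    refine Submodule.sum_mem _ fun j _ => Submodule.sum_mem _ fun ν _ => ?_
    obtain ⟨μ, hμ, κ, hκ, h9⟩ := exists_le_Mo ν.2
    have h10 : (Pi.single j (monomial ν.1 (coeff ν.1 (w j))) :
        Fin (rv s β 0) → MvPolynomial (Fin s) K) =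
        (monomial κ (coeff ν.1 (w j)) : MvPolynomial (Fin s) K) •
          (Pi.single j (monomial μ (1 : K)) : Fin (rv s β 0) → MvPolynomial (Fin s) K) := by
      rw [← Pi.single_smul, smul_eq_mul, monomial_mul, h9, mul_one]
    rw [h10]
    exact Submodule.smul_mem _ _ (hunit μ hμ j)

end Run7.h869
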