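import Mathlib
import Pool.Agent.Run7.h869.Asm

/-!
Inverse systems: the second family.
-/

set_option autoImplicit false
set_option linter.unusedSectionVars false

namespace Run7.h869

open MvPolynomial Pool.Agent.H803R3

section KN

variable {K : Type} [Field K] {s : ℕ}

/-- Koszul differential on chains of functions of exponents -/
noncomputable def kn (F : Finset (Fin s) → (Fin s →₀ ℕ) → K) (T : Finset (Fin s))
    (μ : Fin s →₀ ℕ) : K :=
  ∑ t ∈ Finset.univ \ T, (-1 : K) ^ (T.filter (· < t)).card *
    F (insert t T) (μ + Finsupp.single t 1)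

/-- bad indices -/
def bad (T : Finset (Fin s)) (μ : Fin s →₀ ℕ) : Finset (Fin s) :=
  T.filter fun v => μ v = 0

lemma bad_insert {T : Finset (Fin s)} {μ : Fin s →₀ ℕ} {t : Fin s} (ht : t ∉ T) :
    bad (insert t T) (μ + Finsupp.single t 1) = bad T μ := by
  ext v
  unfold bad
  rw [Finset.mem_filter, Finset.mem_filter, Finset.mem_insert, Finsupp.add_apply]
  by_cases hv : v = t
  · subst hv
    simp [ht]
  · rw [Finsupp.single_eq_of_ne hv]
    simp [hv]

open Classical in
/-- homotopy -/
noncomputable def hn (F : Finset (Fin s) → (Fin s →₀ ℕ) → K) (T : Finset (Fin s))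
    (μ : Fin s →₀ ℕ) : K :=
  if h : (Finset.univ \ bad T μ).Nonempty then
    let v := (Finset.univ \ bad T μ).min' h
    if v ∈ T then (-1 : K) ^ ((T.erase v).filter (· < v)).card *
      F (T.erase v) (μ - Finsupp.single v 1) else 0
  else 0

lemma hn_eq {F : Finset (Fin s) → (Fin s →₀ ℕ) → K} {T : Finset (Fin s)}
    {μ : Fin s →₀ ℕ} (h : (Finset.univ \ bad T μ).Nonempty) {v : Fin s}
    (hv : (Finset.univ \ bad T μ).min' h = v) :
    hn F T μ = if v ∈ T then (-1 : K) ^ ((T.erase v).filter (· < v)).card *
      F (T.erase v) (μ - Finsupp.single v 1) else 0 := by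
  unfold hn
  rw [dif_pos h]
  simp only [hv]

theorem kn_exact {i e : ℕ} (hi : i < s) (F : Finset (Fin s) → (Fin s →₀ ℕ) → K)
    (h1 : ∀ T : Finset (Fin s), T.card ≠ i → F T = 0) (h3 : ∀ T μ, kn F T μ = 0)
    (h4 : ∀ T μ, μ ∉ Mo s e → F T μ = 0) :
    (∀ U : Finset (Fin s), U.card ≠ i + 1 → hn F U = 0) ∧ (∀ T μ, F T μ = kn (hn F) T μ) ∧
      (∀ T μ, μ ∉ Mo s (e + 1) → hn F T μ = 0) := by
  classical
  refine ⟨?_, ?_, ?_⟩
  · intro U hU
    funext μ
    unfold hn
    split_ifs with h
    · simp only
      split_ifs with h2
      · rw [h1]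
        · simp
        · rw [Finset.card_erase_of_mem h2]
          have := Finset.card_pos.2 ⟨_, h2⟩
          omega
      · rfl
    · rfl
  · intro T μ
    by_cases hT : T.card = i
    · have hne : (Finset.univ \ bad T μ).Nonempty := by
        rw [Finset.sdiff_nonempty]
        intro hsub
        have h5 : (Finset.univ : Finset (Fin s)).card ≤ T.card :=
          Finset.card_le_card (hsub.trans (Finset.filter_subset _ _))
        rw [Finset.card_univ, Fintype.card_fin] at h5
        omega
      set v := (Finset.univ \ bad T μ).min' hne with hv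
      have hvbad : v ∉ bad T μ := by
        have := Finset.min'_mem _ hne
        rw [← hv, Finset.mem_sdiff] at this
        exact this.2
      have key : ∀ t ∉ T, hn F (insert t T) (μ + Finsupp.single t 1) =
          if v ∈ insert t T then (-1 : K) ^ (((insert t T).erase v).filter (· < v)).card *
            F ((insert t T).erase v) (μ + Finsupp.single t 1 - Finsupp.single v 1) else 0 := by
        intro t ht
        have hne' : (Finset.univ \ bad (insert t T) (μ + Finsupp.single t 1)).Nonempty := by
          rw [bad_insert ht]; exact hne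
        apply hn_eq hne'
        simp only [bad_insert ht]
        exact hv.symm
      unfold kn
      by_cases hvT : v ∈ T
      · have hμv : μ v ≠ 0 := by
          intro h0
          exact hvbad (Finset.mem_filter.2 ⟨hvT, h0⟩)
        have h6 := h3 (T.erase v) (μ - Finsupp.single v 1)
        unfold kn at h6
        have hsplit : (Finset.univ \ T.erase v) = insert v (Finset.univ \ T) := by
          ext t
          simp only [Finset.mem_sdiff, Finset.mem_univ, true_and, Finset.mem_erase,
            Finset.mem_insert, not_and]
          constructor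
          · intro h
            by_cases htv : t = v
            · exact Or.inl htv
            · exact Or.inr (h htv)
          · rintro (h | h)
            · intro hne'; exact absurd h hne'
            · intro _; exact h
        rw [hsplit, Finset.sum_insert (by simp [hvT])] at h6
        have hμ : μ - Finsupp.single v 1 + Finsupp.single v 1 = μ := by
          apply tsub_add_cancel_of_le
          rw [Finsupp.single_le_iff]
          omega
        rw [Finset.insert_erase hvT, hμ] at h6
        set σ : K := (-1 : K) ^ ((T.erase v).filter (· < v)).card with hσ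
        have hσ2 : σ * σ = 1 := by
          rw [hσ, ← pow_add, ← two_mul, pow_mul]
          simp
        have h7 : F T μ = - (σ * ∑ t ∈ Finset.univ \ T,
            (-1 : K) ^ ((T.erase v).filter (· < t)).card *
              F (insert t (T.erase v)) (μ - Finsupp.single v 1 + Finsupp.single t 1)) := by
          have : σ * (σ * F T μ + ∑ t ∈ Finset.univ \ T,
            (-1 : K) ^ ((T.erase v).filter (· < t)).card *
              F (insert t (T.erase v)) (μ - Finsupp.single v 1 + Finsupp.single t 1)) = 0 := by
            rw [h6, mul_zero]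
          rw [mul_add, ← mul_assoc, hσ2, one_mul] at this
          exact eq_neg_of_add_eq_zero_left this
        rw [h7, Finset.mul_sum, ← Finset.sum_neg_distrib]
        refine Finset.sum_congr rfl fun t ht => ?_
        rw [Finset.mem_sdiff] at ht
        have htT := ht.2
        have htv : t ≠ v := by rintro rfl; exact htT hvT
        rw [key t htT, if_pos (Finset.mem_insert_of_mem hvT)]
        have e1 : (insert t T).erase v = insert t (T.erase v) :=
          Finset.erase_insert_of_ne htv
        have e2 : μ + Finsupp.single t 1 - Finsupp.single v 1 =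
            μ - Finsupp.single v 1 + Finsupp.single t 1 := by
          ext l
          simp only [Finsupp.tsub_apply, Finsupp.add_apply]
          by_cases hl : l = v
          · subst hl
            rw [Finsupp.single_eq_same, Finsupp.single_eq_of_ne (Ne.symm htv)]
            omega
          · rw [Finsupp.single_eq_of_ne hl]
            omega
        rw [e1, e2]
        have hsign : (-1 : K) ^ (T.filter (· < t)).card *
            (-1 : K) ^ ((insert t (T.erase v)).filter (· < v)).card =
            - (σ * (-1 : K) ^ ((T.erase v).filter (· < t)).card) := by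
          rcases lt_or_gt_of_ne htv with hlt | hgt
          · have g1 : T.filter (· < t) = (T.erase v).filter (· < t) := by
              ext l
              simp only [Finset.mem_filter, Finset.mem_erase]
              constructor
              · rintro ⟨a1, a2⟩
                exact ⟨⟨by rintro rfl; exact absurd a2 (by simpa using hlt.le), a1⟩, a2⟩
              · rintro ⟨⟨_, a1⟩, a2⟩
                exact ⟨a1, a2⟩
            have g2 : (insert t (T.erase v)).filter (· < v) =
                insert t ((T.erase v).filter (· < v)) := by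
              rw [Finset.filter_insert, if_pos hlt]
            rw [g1, g2, Finset.card_insert_of_notMem (by simp [htT]), pow_succ, hσ]
            ring
          · have g1 : T.filter (· < t) = insert v ((T.erase v).filter (· < t)) := by
              ext l
              simp only [Finset.mem_filter, Finset.mem_erase, Finset.mem_insert]
              constructor
              · rintro ⟨a1, a2⟩
                by_cases hl : l = v
                · exact Or.inl hl
                · exact Or.inr ⟨⟨hl, a1⟩, a2⟩
              · rintro (rfl | ⟨⟨_, a1⟩, a2⟩)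
                · exact ⟨hvT, hgt⟩
                · exact ⟨a1, a2⟩
            have g2 : (insert t (T.erase v)).filter (· < v) = (T.erase v).filter (· < v) := by
              rw [Finset.filter_insert, if_neg (by simpa using hgt.le)]
            rw [g1, g2, Finset.card_insert_of_notMem (by simp), pow_succ, hσ]
            ring
        rw [← mul_assoc, ← mul_assoc, hsign]
        ring
      · rw [Finset.sum_eq_single v]
        · rw [key v hvT, if_pos (Finset.mem_insert_self v T), Finset.erase_insert hvT,
            add_tsub_cancel_right, ← mul_assoc, ← pow_add, ← two_mul, pow_mul]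
          simp
        · intro t ht htv
          rw [Finset.mem_sdiff] at ht
          rw [key t ht.2, if_neg, mul_zero]
          rw [Finset.mem_insert]
          rintro (h | h)
          · exact htv h.symm
          · exact hvT h
        · intro h
          exact absurd (Finset.mem_sdiff.2 ⟨Finset.mem_univ _, hvT⟩) h
    · rw [h1 T hT]
      unfold kn
      symm
      refine Finset.sum_eq_zero fun t ht => ?_
      rw [Finset.mem_sdiff] at ht
      have : hn F (insert t T) = 0 := by
        funext μ'
        unfold hn
        split_ifs with h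
        · simp only
          split_ifs with h2
          · rw [h1]
            · simp
            · rw [Finset.card_erase_of_mem h2, Finset.card_insert_of_notMem ht.2]
              omega
          · rfl
        · rfl
      rw [this]
      simp
  · intro T μ hμ
    unfold hn
    split_ifs with h
    · simp only
      split_ifs with h2
      · rw [h4, mul_zero]
        intro h5
        apply hμ
        set v := (Finset.univ \ bad T μ).min' h with hv
        have hvbad : v ∉ bad T μ := by
          have := Finset.min'_mem _ h
          rw [← hv, Finset.mem_sdiff] at this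
          exact this.2
        have hμv : μ v ≠ 0 := by
          intro h0
          exact hvbad (Finset.mem_filter.2 ⟨h2, h0⟩)
        have hμ' : μ - Finsupp.single v 1 + Finsupp.single v 1 = μ := by
          apply tsub_add_cancel_of_le
          rw [Finsupp.single_le_iff]
          omega
        rw [← hμ']
        exact add_mem_Mo h5 (single_mem_Mo v)
      · rfl
    · rfl

end KN

section Act

variable {K : Type} [Field K] {s : ℕ}

/-- evaluation of a functional on a polynomial -/
noncomputable def ev (x : (Fin s →₀ ℕ) → K) : MvPolynomial (Fin s) K →ₗ[K] K :=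
  (basisMonomials (Fin s) K).constr K x

lemma ev_monomial (x : (Fin s →₀ ℕ) → K) (μ : Fin s →₀ ℕ) (c : K) :
    ev x (monomial μ c) = c * x μ := by
  have h1 : (monomial μ c : MvPolynomial (Fin s) K) = c • basisMonomials (Fin s) K μ := by
    rw [coe_basisMonomials, smul_monomial, smul_eq_mul, mul_one]
  rw [h1, map_smul, ev, Module.Basis.constr_basis, smul_eq_mul]

/-- the function attached to a vector of polynomials -/
noncomputable def ps {P : ℕ} (x : Fin P → (Fin s →₀ ℕ) → K)
    (f : Fin P → MvPolynomial (Fin s) K) (μ : Fin s →₀ ℕ) : K :=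
  ∑ i, ev (x i) (monomial μ 1 * f i)

lemma ps_add {P : ℕ} (x : Fin P → (Fin s →₀ ℕ) → K) (f g : Fin P → MvPolynomial (Fin s) K)
    (μ : Fin s →₀ ℕ) : ps x (f + g) μ = ps x f μ + ps x g μ := by
  unfold ps
  rw [← Finset.sum_add_distrib]
  refine Finset.sum_congr rfl fun i _ => ?_
  rw [Pi.add_apply, mul_add, map_add]

lemma ps_zero {P : ℕ} (x : Fin P → (Fin s →₀ ℕ) → K) (μ : Fin s →₀ ℕ) :
    ps x (0 : Fin P → MvPolynomial (Fin s) K) μ = 0 := by
  unfold ps
  refine Finset.sum_eq_zero fun i _ => ?_
  rw [Pi.zero_apply, mul_zero, map_zero]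

lemma ps_sum {P : ℕ} (x : Fin P → (Fin s →₀ ℕ) → K) {ι : Type*} (S : Finset ι)
    (f : ι → Fin P → MvPolynomial (Fin s) K) (μ : Fin s →₀ ℕ) :
    ps x (∑ j ∈ S, f j) μ = ∑ j ∈ S, ps x (f j) μ := by
  classical
  induction S using Finset.induction_on with
  | empty => rw [Finset.sum_empty, Finset.sum_empty, ps_zero]
  | insert a S ha ih => rw [Finset.sum_insert ha, Finset.sum_insert ha, ps_add, ih]

lemma ps_monomial {P : ℕ} (x : Fin P → (Fin s →₀ ℕ) → K) (κ : Fin s →₀ ℕ) (c : K)
    (f : Fin P → MvPolynomial (Fin s) K) (μ : Fin s →₀ ℕ) :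
    ps x ((monomial κ c : MvPolynomial (Fin s) K) • f) μ = c * ps x f (μ + κ) := by
  unfold ps
  rw [Finset.mul_sum]
  refine Finset.sum_congr rfl fun i _ => ?_
  rw [Pi.smul_apply, smul_eq_mul, ← mul_assoc, monomial_mul, one_mul]
  have : (monomial (μ + κ) c : MvPolynomial (Fin s) K) * f i =
      c • ((monomial (μ + κ) 1 : MvPolynomial (Fin s) K) * f i) := by
    rw [← smul_mul_assoc, smul_monomial, smul_eq_mul, mul_one]
  rw [this, map_smul, smul_eq_mul]

lemma ps_X {P : ℕ} (x : Fin P → (Fin s →₀ ℕ) → K) (t : Fin s)
    (f : Fin P → MvPolynomial (Fin s) K) (μ : Fin s →₀ ℕ) :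
    ps x ((X t : MvPolynomial (Fin s) K) • f) μ = ps x f (μ + Finsupp.single t 1) := by
  rw [X, ps_monomial, one_mul]

lemma ps_smul {P : ℕ} (x : Fin P → (Fin s →₀ ℕ) → K) (p : MvPolynomial (Fin s) K)
    (f : Fin P → MvPolynomial (Fin s) K) (h : ∀ μ, ps x f μ = 0) (μ : Fin s →₀ ℕ) :
    ps x (p • f) μ = 0 := by
  induction p using MvPolynomial.induction_on' with
  | monomial κ c => rw [ps_monomial, h, mul_zero]
  | add p q hp hq => rw [add_smul, ps_add, hp, hq, add_zero]

/-- the annihilator of a family of functionals -/
noncomputable def AN {P Q : ℕ} (x : Fin Q → Fin P → (Fin s →₀ ℕ) → K) :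
    Submodule (MvPolynomial (Fin s) K) (Fin P → MvPolynomial (Fin s) K) where
  carrier := {f | ∀ j μ, ps (x j) f μ = 0}
  add_mem' := by
    intro f g hf hg j μ
    rw [ps_add, hf, hg, add_zero]
  zero_mem' := fun j μ => ps_zero _ _
  smul_mem' := by
    intro p f hf j μ
    exact ps_smul _ _ _ (hf j) μ

lemma mem_AN {P Q : ℕ} {x : Fin Q → Fin P → (Fin s →₀ ℕ) → K}
    {f : Fin P → MvPolynomial (Fin s) K} : f ∈ AN x ↔ ∀ j μ, ps (x j) f μ = 0 := Iff.rfl

/-- functionals of degree `σ` -/
noncomputable def xt {P : ℕ} {σ : ℕ} (y : Fin P → Mo s σ → K) : Fin P → (Fin s →₀ ℕ) → K :=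
  fun i κ => if h : κ ∈ Mo s σ then y i ⟨κ, h⟩ else 0

lemma ps_deg {P : ℕ} {σ c : ℕ} (y : Fin P → Mo s σ → K) {f : Fin P → MvPolynomial (Fin s) K}
    (hf : ∀ i, (f i).IsHomogeneous c) {μ : Fin s →₀ ℕ} (hμ : ∑ i, μ i + c ≠ σ) :
    ps (xt y) f μ = 0 := by
  unfold ps
  refine Finset.sum_eq_zero fun i _ => ?_
  rw [hom_expand (hf i), Finset.mul_sum, map_sum]
  refine Finset.sum_eq_zero fun κ _ => ?_
  rw [monomial_mul, ev_monomial, one_mul]
  have : xt y i (μ + κ.1) = 0 := by
    unfold xt
    rw [dif_neg]
    intro h
    have h1 := mem_Mo.1 h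
    have h2 := mem_Mo.1 κ.2
    have h3 : ∑ i, (μ + κ.1) i = ∑ i, μ i + ∑ i, κ.1 i := by
      rw [← Finset.sum_add_distrib]; rfl
    omega
  rw [this, mul_zero]

lemma ps_tr {P : ℕ} {σ c : ℕ} (y : Fin P → Mo s σ → K) (f : Fin P → MvPolynomial (Fin s) K)
    {μ : Fin s →₀ ℕ} (hμ : ∑ i, μ i + c = σ) :
    ps (xt y) (tr (fun _ => 0) c f) μ = ps (xt y) f μ := by
  classical
  obtain ⟨N, hN⟩ := sum_tr (fun _ => 0) f
  have h1 : ps (xt y) f μ = ∑ c' ∈ Finset.range N, ps (xt y) (tr (fun _ => 0) c' f) μ := by
    conv_lhs => rw [hN]
    rw [ps_sum]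
  rw [h1]
  have hh : ∀ c' i, (tr (fun _ : Fin P => 0) c' f i).IsHomogeneous c' := by
    intro c' i
    have := hm_hom (tr_hm (fun _ : Fin P => 0) c' f i)
    simpa using this
  by_cases hc : c ∈ Finset.range N
  · rw [Finset.sum_eq_single_of_mem c hc]
    intro c' _ hne
    exact ps_deg y (hh c') (by omega)
  · rw [Finset.sum_eq_zero]
    · have h2 : tr (fun _ : Fin P => 0) c f = 0 := by
        funext i
        have h3 : f i = ∑ c' ∈ Finset.range N, tr (fun _ => 0) c' f i := by
          have := congrFun hN i
          rwa [Finset.sum_apply] at this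
        show hcd 0 c (f i) = 0
        rw [h3, hcd_sum]
        refine Finset.sum_eq_zero fun c' hc' => ?_
        show hcd 0 c (tr (fun _ => 0) c' f i) = 0
        unfold hcd
        rw [if_pos (Nat.zero_le _), Nat.sub_zero, homogeneousComponent_of_mem (hh c' i), if_neg]
        rintro rfl
        exact hc hc'
      rw [h2, ps_zero]
    · intro c' hc'
      exact ps_deg y (hh c') (by
        intro h
        apply hc
        have : c' = c := by omega
        rw [← this]; exact hc')

lemma AN_gr {P Q σ : ℕ} (y : Fin Q → Fin P → Mo s σ → K) :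
    ∀ f ∈ AN (fun j => xt (y j)), ∀ c, tr (fun _ => 0) c f ∈ AN (fun j => xt (y j)) := by
  intro f hf c j μ
  by_cases hμ : ∑ i, μ i + c = σ
  · rw [ps_tr (y j) f hμ]
    exact hf j μ
  · apply ps_deg (y j) _ hμ
    intro i
    have := hm_hom (tr_hm (fun _ : Fin P => 0) c f i)
    simpa using this

end Act

end Run7.h869
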