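import Mathlib
import Pool.Agent.Run7.h869.Inv

/-!
The second family: compressed modules.
-/

set_option autoImplicit false
set_option linter.unusedSectionVars false

namespace Run7.h869

open MvPolynomial Pool.Agent.H803R3

variable {s : ℕ}

open Classical in
/-- structure constants of the contraction -/
noncomputable def c2 (s τ e : ℕ) : Mo s (τ + e) → Mo s τ → Mo s e → ℤ :=
  fun κ μ ν => if κ.1 = μ.1 + ν.1 then 1 else 0

lemma full_c2 {K : Type*} [Field K] {τ e : ℕ} (U : Submodule K (Mo s τ → K)) (h0 : U ≠ ⊥) :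
    WU (c2 s τ e) U = ⊤ := by
  classical
  set ω₁ : Mo s τ → Lex (Fin s →₀ ℕ) := fun μ => toLex μ.1 with hω₁
  set ω₂ : Mo s e → (Lex (Fin s →₀ ℕ))ᵒᵈ := fun μ => OrderDual.toDual (toLex μ.1) with hω₂
  have i₂ : Function.Injective ω₂ := fun x y h =>
    Subtype.ext (toLex.injective (OrderDual.toDual.injective h))
  obtain ⟨u, hu, hu0⟩ := U.ne_bot_iff.1 h0
  obtain ⟨μ0, hμ0, _⟩ := exists_ld ω₁ hu hu0
  obtain ⟨u, hu, hu1, hu2⟩ := mem_ld.1 hμ0
  have hall : ld ω₂ (WU (c2 s τ e) U) = Finset.univ := by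
    rw [Finset.eq_univ_iff_forall]
    intro ν
    have hκ : μ0.1 + ν.1 ∈ Mo s (τ + e) := add_mem_Mo μ0.2 ν.2
    rw [mem_ld]
    have hval : ∀ ν' : Mo s e, wk (c2 s τ e) ⟨μ0.1 + ν.1, hκ⟩ u ν' =
        ∑ μ, ((c2 s τ e ⟨μ0.1 + ν.1, hκ⟩ μ ν' : ℤ) : K) * u μ := fun ν' => rfl
    refine ⟨wk (c2 s τ e) ⟨μ0.1 + ν.1, hκ⟩ u,
      Submodule.mem_iSup_of_mem _ (Submodule.mem_map_of_mem hu), ?_, ?_⟩
    · rw [hval, Finset.sum_eq_single μ0]
      · simpa [c2] using hu1
      · intro μ _ hne
        simp [c2, hne.symm]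
      · intro h
        exact absurd (Finset.mem_univ _) h
    · intro ν' hν'
      rw [hval]
      refine Finset.sum_eq_zero fun μ _ => ?_
      by_cases hμ : μ0.1 + ν.1 = μ.1 + ν'.1
      · have h1 : toLex ν'.1 < toLex ν.1 := hν'
        have h2 : toLex μ0.1 < toLex μ.1 := by
          by_contra hno
          have h3 : toLex μ.1 ≤ toLex μ0.1 := not_lt.1 hno
          have h4 : toLex μ.1 + toLex ν'.1 < toLex μ0.1 + toLex ν.1 :=
            add_lt_add_of_le_of_lt h3 h1
          have h5 : toLex (μ.1 + ν'.1) < toLex (μ0.1 + ν.1) := h4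
          rw [hμ] at h5
          exact lt_irrefl _ h5
        rw [hu2 μ h2, mul_zero]
      · simp [c2, hμ]
  have h1 := ld_le_finrank i₂ (WU (c2 s τ e) U)
  rw [hall, Finset.card_univ] at h1
  apply Submodule.eq_top_of_finrank_eq
  apply le_antisymm (Submodule.finrank_le _)
  rw [Module.finrank_fintype_fun_eq_card]
  exact h1

theorem good_c2 (hs : 1 ≤ s) (τ e : ℕ) (k : Type) [Field k] :
    ∃ N : ℕ, ∀ Q : ℕ, N ≤ Q → ∀ P : ℕ, P * (Mo s τ).card = Q * (Mo s e).card →
      Good (c2 s τ e) k (Fin Q) (Fin P) := by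
  have hpos : 0 < Fintype.card (Mo s τ) := by
    rw [Fintype.card_coe]; exact card_Mo_pos hs τ
  have hpos2 : 0 < Fintype.card (Mo s e) := by
    rw [Fintype.card_coe]; exact card_Mo_pos hs e
  obtain ⟨N, hN⟩ := good_all (c2 s τ e) hpos
    (fun F _ _ => full_c2 ⊤ (by
      intro h
      have h1 := congrArg (fun U : Submodule F (Mo s τ → F) => Module.finrank F U) h
      simp only [finrank_top, Module.finrank_fintype_fun_eq_card, finrank_bot] at h1
      omega))
    (fun F _ _ U h0 h1 => by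
      rw [full_c2 U h0, finrank_top, Module.finrank_fintype_fun_eq_card,
        mul_comm (Fintype.card (Mo s τ))]
      apply Nat.mul_lt_mul_of_pos_left _ hpos2
      have := Submodule.finrank_lt h1
      rwa [Module.finrank_fintype_fun_eq_card] at this) k
  refine ⟨N, fun Q hQ P hPQ => hN Q hQ P ?_⟩
  rw [Fintype.card_coe, Fintype.card_coe]
  exact hPQ

variable {K : Type} [Field K]

/-- goodness -/
def IsGood2 {P Q : ℕ} (τ e : ℕ) (y : Fin Q → Fin P → Mo s (τ + e) → K) : Prop :=
  ∀ v : Fin P → Mo s τ → K,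
    (∀ j (ν : Mo s e), ∑ i, ∑ κ, ∑ μ, y j i κ * ((c2 s τ e κ μ ν : K) * v i μ) = 0) → v = 0

lemma ps_coef {P τ e : ℕ} (y : Fin P → Mo s (τ + e) → K) (v : Fin P → Mo s τ → K)
    (ν : Mo s e) :
    ps (xt y) (fun i => ofC (v i)) ν.1 =
      ∑ i, ∑ κ, ∑ μ, y i κ * ((c2 s τ e κ μ ν : K) * v i μ) := by
  classical
  unfold ps
  refine Finset.sum_congr rfl fun i _ => ?_
  rw [Finset.sum_comm]
  show ev (xt y i) (monomial ν.1 1 * ∑ μ : Mo s τ, monomial μ.1 (v i μ)) = _
  rw [Finset.mul_sum, map_sum]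
  refine Finset.sum_congr rfl fun μ _ => ?_
  rw [monomial_mul, ev_monomial, one_mul]
  have hκ : ν.1 + μ.1 ∈ Mo s (τ + e) := by
    rw [add_comm τ e]; exact add_mem_Mo ν.2 μ.2
  rw [Finset.sum_eq_single (⟨ν.1 + μ.1, hκ⟩ : Mo s (τ + e))]
  · unfold xt c2
    rw [dif_pos hκ, if_pos (add_comm _ _)]
    push_cast
    ring
  · intro κ _ hne
    unfold c2
    rw [if_neg]
    · simp
    · intro h
      apply hne
      apply Subtype.ext
      rw [h, add_comm]
  · intro h
    exact absurd (Finset.mem_univ _) h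

lemma inj2_q {P Q τ e : ℕ} {y : Fin Q → Fin P → Mo s (τ + e) → K} (hy : IsGood2 τ e y)
    {f : Fin P → MvPolynomial (Fin s) K} (hf : ∀ i, (f i).IsHomogeneous τ)
    (h0 : f ∈ AN (fun j => xt (y j))) : f = 0 := by
  have h1 : f = fun i => ofC fun μ : Mo s τ => coeff μ.1 (f i) := funext fun i => hom_expand (hf i)
  have h2 := hy (fun i μ => coeff μ.1 (f i)) (by
    intro j ν
    rw [← ps_coef, ← h1]
    exact h0 j ν.1)
  rw [h1]
  funext i
  have h3 : (fun μ : Mo s τ => coeff μ.1 (f i)) = 0 := congrFun h2 i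
  rw [h3]
  simp [ofC]

lemma inj2_le {P Q τ e : ℕ} (hs : 1 ≤ s) {y : Fin Q → Fin P → Mo s (τ + e) → K}
    (hy : IsGood2 τ e y) {c : ℕ} (hc : c ≤ τ)
    {f : Fin P → MvPolynomial (Fin s) K} (hf : ∀ i, (f i).IsHomogeneous c)
    (h0 : f ∈ AN (fun j => xt (y j))) : f = 0 := by
  set x : MvPolynomial (Fin s) K := MvPolynomial.X (⟨0, hs⟩ : Fin s) ^ (τ - c) with hx
  have hx0 : x ≠ 0 := pow_ne_zero _ (MvPolynomial.X_ne_zero _)
  have h1 : x • f = 0 := by
    apply inj2_q hy
    · intro i
      have h2 : (x * f i).IsHomogeneous ((τ - c) + c) :=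
        (isHomogeneous_X_pow _ _).mul (hf i)
      have h3 : (τ - c) + c = τ := by omega
      rw [h3] at h2
      exact h2
    · exact Submodule.smul_mem _ _ h0
  rcases smul_eq_zero.1 h1 with h | h
  · exact absurd h hx0
  · exact h

lemma surj2_q {P Q τ e : ℕ} {y : Fin Q → Fin P → Mo s (τ + e) → K} (hy : IsGood2 τ e y)
    (hPQ : P * (Mo s τ).card = Q * (Mo s e).card) (w : Fin Q → Mo s e → K) :
    ∃ f : Fin P → MvPolynomial (Fin s) K, (∀ i, (f i).IsHomogeneous τ) ∧
      ∀ j (ν : Mo s e), ps (xt (y j)) f ν.1 = w j ν := by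
  let L : (Fin P → Mo s τ → K) →ₗ[K] (Fin Q → Mo s e → K) :=
    { toFun := fun v j ν => ∑ i, ∑ κ, ∑ μ, y j i κ * ((c2 s τ e κ μ ν : K) * v i μ)
      map_add' := by
        intro v w
        funext j ν
        simp only [Pi.add_apply, mul_add, Finset.sum_add_distrib]
      map_smul' := by
        intro r v
        funext j ν
        simp only [Pi.smul_apply, smul_eq_mul, RingHom.id_apply, Finset.mul_sum]
        exact Finset.sum_congr rfl fun i _ => Finset.sum_congr rfl fun κ _ =>
          Finset.sum_congr rfl fun μ _ => by ring }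
  have hL : Function.Injective L := by
    rw [injective_iff_map_eq_zero]
    intro v hv
    apply hy
    intro j ν
    exact congrFun (congrFun hv j) ν
  have hfr : Module.finrank K (Fin P → Mo s τ → K) = Module.finrank K (Fin Q → Mo s e → K) := by
    have g1 : ∀ (m t : ℕ), Module.finrank K (Fin m → Mo s t → K) = m * (Mo s t).card := by
      intro m t
      rw [Module.finrank_pi_fintype]
      simp
    rw [g1, g1]
    exact hPQ
  obtain ⟨v, hv⟩ := (LinearMap.injective_iff_surjective_of_finrank_eq_finrank hfr).1 hL w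
  refine ⟨fun i => ofC (v i), fun i => ofC_hom _, fun j ν => ?_⟩
  rw [ps_coef]
  exact congrFun (congrFun hv j) ν

lemma surj2_ge {P Q τ e : ℕ} (hs : 1 ≤ s) {y : Fin Q → Fin P → Mo s (τ + e) → K}
    (hy : IsGood2 τ e y) (hPQ : P * (Mo s τ).card = Q * (Mo s e).card) {c c' : ℕ}
    (hc : τ ≤ c) (hcc : c + c' = τ + e) (w : Fin Q → (Fin s →₀ ℕ) → K)
    (hw : ∀ j μ, μ ∉ Mo s c' → w j μ = 0) :
    ∃ f : Fin P → MvPolynomial (Fin s) K, (∀ i, (f i).IsHomogeneous c) ∧
      ∀ j μ, ps (xt (y j)) f μ = w j μ := by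
  classical
  set v0 : Fin s := ⟨0, hs⟩ with hv0
  set E : Fin s →₀ ℕ := Finsupp.single v0 (c - τ) with hE
  have hEM : E ∈ Mo s (c - τ) := by
    rw [mem_Mo, hE, Finset.sum_eq_single v0]
    · exact Finsupp.single_eq_same
    · intro b _ hb
      exact Finsupp.single_eq_of_ne hb
    · intro h
      exact absurd (Finset.mem_univ _) h
  obtain ⟨f, hf1, hf2⟩ := surj2_q hy hPQ (fun j ν => if E ≤ ν.1 then w j (ν.1 - E) else 0)
  have hx : (X v0 : MvPolynomial (Fin s) K) ^ (c - τ) = monomial E 1 := by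
    rw [X_pow_eq_monomial]
  refine ⟨(X v0 : MvPolynomial (Fin s) K) ^ (c - τ) • f, ?_, ?_⟩
  · intro i
    have h2 : ((X v0 : MvPolynomial (Fin s) K) ^ (c - τ) * f i).IsHomogeneous ((c - τ) + τ) :=
      (isHomogeneous_X_pow _ _).mul (hf1 i)
    have h3 : (c - τ) + τ = c := by omega
    rw [h3] at h2
    exact h2
  · intro j μ
    rw [hx, ps_monomial, one_mul]
    by_cases hμ : μ ∈ Mo s c'
    · have h4 : μ + E ∈ Mo s e := by
        have := add_mem_Mo hμ hEM
        have h5 : c' + (c - τ) = e := by omega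
        rwa [h5] at this
      have h6 := hf2 j ⟨μ + E, h4⟩
      simp only at h6
      rw [h6, if_pos (by exact le_add_self), add_tsub_cancel_right]
    · rw [hw j μ hμ]
      apply ps_deg (y j) hf1
      intro h7
      apply hμ
      rw [mem_Mo]
      have h8 : ∑ i, (μ + E) i = ∑ i, μ i + ∑ i, E i := by
        rw [← Finset.sum_add_distrib]; rfl
      have h9 := mem_Mo.1 hEM
      omega

/-- `ps` commutes with the Koszul differentials -/
lemma ps_kd {P : ℕ} (x : Fin P → (Fin s →₀ ℕ) → K)
    (w : Finset (Fin s) → Fin P → MvPolynomial (Fin s) K) (T : Finset (Fin s))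
    (μ : Fin s →₀ ℕ) : ps x (kd w T) μ = kn (fun U => ps x (w U)) T μ := by
  rw [kd_eq, ps_sum]
  unfold kn
  refine Finset.sum_congr rfl fun t _ => ?_
  have h1 : ((-1 : MvPolynomial (Fin s) K) ^ (T.filter (· < t)).card * X t) =
      monomial (Finsupp.single t 1) ((-1 : K) ^ (T.filter (· < t)).card) := by
    have h2 : (-1 : MvPolynomial (Fin s) K) ^ (T.filter (· < t)).card =
        C ((-1 : K) ^ (T.filter (· < t)).card) := by simp
    rw [h2, X, C_mul_monomial, mul_one]
  rw [h1, ps_monomial]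

theorem van2 {P Q τ e : ℕ} (hs : 1 ≤ s) {y : Fin Q → Fin P → Mo s (τ + e) → K}
    (hy : IsGood2 τ e y) (hPQ : P * (Mo s τ).card = Q * (Mo s e).card) (i c : ℕ)
    (hc : (i + 1 < s ∧ c ≠ τ + 1) ∨ (i + 1 = s ∧ c ≠ τ + e + 1) ∨ s ≤ i) :
    Van (AN (fun j => xt (y j))) (fun _ => 0) i c := by
  classical
  by_cases hsi : s ≤ i
  · exact van_top hs hsi
  by_cases h1 : c ≤ τ
  · exact van_of_zero fun f hf hfc => inj2_le hs hy h1 (fun i => by simpa using hm_hom (hfc i)) hf
  obtain ⟨c, rfl⟩ : ∃ c', c = c' + 1 := ⟨c - 1, by omega⟩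
  intro z z1 z2 z3 z4
  obtain ⟨w, w1, w2⟩ := free_ex (fun _ : Fin P => 0) i (c + 1) z z1 z3 z4
    (Or.inr fun k => by show 0 < c + 1; omega)
  set w' : Finset (Fin s) → Fin P → MvPolynomial (Fin s) K :=
    fun U => tr (fun _ : Fin P => 0) c (w U) with hw'def
  have hw' : ∀ T, z T = kd w' T := by
    intro T
    rw [hw'def, ← tr_kd, ← w2, tr_eq (z3 T)]
  have hw'1 : ∀ U : Finset (Fin s), U.card ≠ i + 1 → w' U = 0 := by
    intro U hU
    show tr (fun _ : Fin P => 0) c (w U) = 0
    rw [w1 U hU, tr_zero]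
  have hw'h : ∀ U i, (w' U i).IsHomogeneous c := by
    intro U i
    have := hm_hom (tr_hm (fun _ : Fin P => 0) c (w U) i)
    simpa using this
  by_cases hi : i + 1 = s
  · -- socle
    refine ⟨w', hw'1, ?_, hw'⟩
    intro U j μ
    by_cases hμ : ∑ l, μ l + c = τ + e
    · have hne : c ≠ τ + e := by omega
      obtain ⟨t, ht⟩ : ∃ t, 0 < μ t := by
        by_contra hno
        push Not at hno
        have : ∑ l, μ l = 0 := Finset.sum_eq_zero fun l _ => by have := hno l; omega
        omega
      by_cases hU : U.card = i + 1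
      · have hUu : U = Finset.univ := by
          apply Finset.eq_univ_of_card
          rw [Fintype.card_fin]
          omega
        subst hUu
        have h5 : z (Finset.univ.erase t) = kd w' (Finset.univ.erase t) := hw' _
        have h6 := z2 (Finset.univ.erase t) j (μ - Finsupp.single t 1)
        rw [h5, ps_kd] at h6
        unfold kn at h6
        have h7 : Finset.univ \ (Finset.univ.erase t) = {t} := by
          ext x
          simp
        rw [h7, Finset.sum_singleton, Finset.insert_erase (Finset.mem_univ t)] at h6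
        have h8 : μ - Finsupp.single t 1 + Finsupp.single t 1 = μ := by
          apply tsub_add_cancel_of_le
          rw [Finsupp.single_le_iff]
          omega
        rw [h8] at h6
        rcases mul_eq_zero.1 h6 with h | h
        · exact absurd h (pow_ne_zero _ (by simp))
        · exact h
      · rw [hw'1 U hU]
        exact ps_zero _ _
    · exact ps_deg (y j) (hw'h U) hμ
  · have hi1 : i + 1 < s := by omega
    have hc1 : τ + 1 ≤ c := by omega
    -- the induced cycle
    have hcyc : ∀ j T μ, kn (fun U => ps (xt (y j)) (w' U)) T μ = 0 := by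
      intro j T μ
      rw [← ps_kd, ← hw' T]
      exact z2 T j μ
    by_cases hbig : τ + e < c
    · refine ⟨w', hw'1, ?_, hw'⟩
      intro U j μ
      exact ps_deg (y j) (hw'h U) (by omega)
    · obtain ⟨c', hc'⟩ : ∃ c', c + c' = τ + e := ⟨τ + e - c, by omega⟩
      have hk : ∀ j, _ := fun j => kn_exact (e := c') hi1 (fun U => ps (xt (y j)) (w' U)) (by
        intro T hT
        funext μ
        show ps (xt (y j)) (w' T) μ = 0
        rw [hw'1 T hT]
        exact ps_zero _ _) (hcyc j) (by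
        intro T μ hμ
        apply ps_deg (y j) (hw'h T)
        intro h
        apply hμ
        rw [mem_Mo]
        omega)
      have hlift : ∀ T : Finset (Fin s), ∃ u : Fin P → MvPolynomial (Fin s) K,
          (∀ i, (u i).IsHomogeneous (c - 1)) ∧ (T.card ≠ i + 1 + 1 → u = 0) ∧
          ∀ j μ, ps (xt (y j)) u μ = hn (fun U => ps (xt (y j)) (w' U)) T μ := by
        intro T
        by_cases hT : T.card = i + 1 + 1
        · obtain ⟨u, u1, u2⟩ := surj2_ge hs hy hPQ (c := c - 1) (c' := c' + 1) (by omega)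
            (by omega) (fun j => hn (fun U => ps (xt (y j)) (w' U)) T)
            (fun j μ hμ => (hk j).2.2 T μ hμ)
          exact ⟨u, u1, fun h => absurd hT h, u2⟩
        · refine ⟨0, fun i => isHomogeneous_zero _ _ _, fun _ => rfl, fun j μ => ?_⟩
          rw [(hk j).1 T hT]
          exact ps_zero _ _
      choose u u1 u2 u3 using hlift
      refine ⟨fun U => w' U - kd u U, ?_, ?_, ?_⟩
      · intro U hU
        show w' U - kd u U = 0
        rw [hw'1 U hU, kd_card u2 hU, sub_zero]
      · intro U j μ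
        have h9 : w' U = (w' U - kd u U) + kd u U := by rw [sub_add_cancel]
        have h10 : ps (xt (y j)) (w' U) μ = ps (xt (y j)) ((w' U - kd u U) + kd u U) μ :=
          congrArg (fun f => ps (xt (y j)) f μ) h9
        rw [ps_add, ps_kd] at h10
        have h11 : kn (fun U => ps (xt (y j)) (u U)) U μ = ps (xt (y j)) (w' U) μ := by
          have h12 : (fun U => ps (xt (y j)) (u U)) =
              hn (fun U => ps (xt (y j)) (w' U)) := by
            funext U' μ'
            exact u3 U' j μ'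
          rw [h12]
          exact ((hk j).2.1 U μ).symm
        rw [h11] at h10
        show ps (xt (y j)) (w' U - kd u U) μ = 0
        exact add_eq_right.1 h10.symm
      · intro T
        rw [kd_sub, kd_kd, sub_zero, ← hw']

/-- dimension of the annihilator in a given degree -/
lemma finrank_AN {P Q τ e : ℕ} (hs : 1 ≤ s) {y : Fin Q → Fin P → Mo s (τ + e) → K}
    (hy : IsGood2 τ e y) (hPQ : P * (Mo s τ).card = Q * (Mo s e).card) {c c' : ℕ}
    (hc : τ ≤ c) (hcc : c + c' = τ + e) :
    Module.finrank K (Vs (AN (fun j => xt (y j))) 0 c) + Q * (Mo s c').card =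
      P * (Mo s c).card := by
  classical
  set V := Vs (⊤ : Submodule (MvPolynomial (Fin s) K) (Fin P → MvPolynomial (Fin s) K)) 0 c
    with hV
  have : Module.Finite K V := fin_Vs _ _ _
  have hpsm : ∀ (x : Fin P → (Fin s →₀ ℕ) → K) (r : K) (f : Fin P → MvPolynomial (Fin s) K)
      (μ : Fin s →₀ ℕ), ps x (r • f) μ = r * ps x f μ := by
    intro x r f μ
    have h1 : r • f = (monomial (0 : Fin s →₀ ℕ) r : MvPolynomial (Fin s) K) • f := by
      funext k
      rw [Pi.smul_apply, Pi.smul_apply, smul_eq_C_mul, smul_eq_mul]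
      rfl
    rw [h1, ps_monomial, add_zero]
  let L : V →ₗ[K] (Fin Q → Mo s c' → K) :=
    { toFun := fun f j μ => ps (xt (y j)) f.1 μ.1
      map_add' := fun f g => by
        funext j μ
        exact ps_add _ _ _ _
      map_smul' := fun r f => by
        funext j μ
        exact hpsm _ _ _ _ }
  have hsurj : Function.Surjective L := by
    intro w
    obtain ⟨f, hf1, hf2⟩ := surj2_ge hs hy hPQ hc hcc
      (fun j μ => if h : μ ∈ Mo s c' then w j ⟨μ, h⟩ else 0) (by
        intro j μ hμ
        rw [dif_neg hμ])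
    refine ⟨⟨f, Submodule.mem_top, fun k => Or.inr ⟨Nat.zero_le _, hf1 k⟩⟩, ?_⟩
    funext j μ
    show ps (xt (y j)) f μ.1 = w j μ
    rw [hf2, dif_pos μ.2]
  have h1 := LinearMap.finrank_range_add_finrank_ker L
  rw [LinearMap.range_eq_top.2 hsurj, finrank_top] at h1
  have h2 : Module.finrank K V = P * (Mo s c).card := by
    rw [hV, finrank_Vs_top, if_pos (Nat.zero_le _), Nat.sub_zero]
  have h3 : Module.finrank K (Fin Q → Mo s c' → K) = Q * (Mo s c').card := by
    rw [Module.finrank_pi_fintype]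
    simp
  let e' : LinearMap.ker L ≃ₗ[K] Vs (AN (fun j => xt (y j))) 0 c :=
    { toFun := fun f => ⟨f.1.1, by
        intro j μ
        by_cases hμ : μ ∈ Mo s c'
        · exact congrFun (congrFun (LinearMap.mem_ker.1 f.2) j) ⟨μ, hμ⟩
        · apply ps_deg (y j) (c := c)
          · intro i
            have := hm_hom (f.1.2.2 i)
            simpa using this
          · intro h
            apply hμ
            rw [mem_Mo]
            omega, f.1.2.2⟩
      map_add' := fun v w => rfl
      map_smul' := fun r v => rfl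
      invFun := fun f => ⟨⟨f.1, Submodule.mem_top, f.2.2⟩, by
        rw [LinearMap.mem_ker]
        funext j μ
        exact f.2.1 j μ.1⟩
      left_inv := fun v => rfl
      right_inv := fun v => rfl }
  have h4 := e'.finrank_eq
  rw [← h4]
  omega

end Run7.h869
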