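import Mathlib
import Pool.Agent.Run7.h869.F2

/-!
The second family: numerics and the main statement.
-/

set_option autoImplicit false
set_option linter.unusedSectionVars false

namespace Run7.h869

open MvPolynomial Pool.Agent.H803R3

/-- alternating sum of dimensions, general form -/
theorem alt_sum_gen {K : Type*} [Field K] {s : ℕ} {dd : ℕ → ℕ} {B : ℕ → ℕ}
    {D : ∀ i : ℕ, Matrix (Fin (B i)) (Fin (B (i + 1))) (MvPolynomial (Fin s) K)}
    (hD : ∀ i, Gd (D i) (fun _ => dd i) (fun _ => dd (i + 1)))
    (hex : ∀ i, LinearMap.range (D (i + 1)).mulVecLin = LinearMap.ker (D i).mulVecLin)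
    (hB : ∀ i, s < i → B i = 0) (t : ℕ) :
    ∑ j ∈ Finset.range (s + 1), (-1 : ℤ) ^ j *
      (B j * (if dd j ≤ t then ((Mo s (t - dd j)).card : ℤ) else 0)) =
    (B 0 * (if dd 0 ≤ t then ((Mo s (t - dd 0)).card : ℤ) else 0)) -
      Module.finrank K (Vs (LinearMap.range (D 0).mulVecLin) (dd 0) t) := by
  set R : ℕ → ℕ := fun j => Module.finrank K (Vs (LinearMap.range (D j).mulVecLin) (dd j) t)
    with hR
  set V : ℕ → ℕ := fun j => Module.finrank K (Vs (⊤ : Submodule (MvPolynomial (Fin s) K)
      (Fin (B j) → MvPolynomial (Fin s) K)) (dd j) t) with hV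
  have h1 : ∀ j, V (j + 1) = R j + R (j + 1) := by
    intro j
    have := rank_nullity (hD j) t
    rw [← hex j] at this
    exact this
  have h2 : ∀ n, ∑ j ∈ Finset.range (n + 1), (-1 : ℤ) ^ j * (V j : ℤ) =
      (-1) ^ n * R n + (V 0 - R 0) := by
    intro n
    induction n with
    | zero => simp
    | succ n ih =>
      rw [Finset.sum_range_succ, ih, h1]
      push_cast
      ring
  have h3 : R s = 0 := by
    have hb : B (s + 1) = 0 := hB _ (by omega)
    have : Vs (LinearMap.range (D s).mulVecLin) (dd s) t = ⊥ := by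
      rw [eq_bot_iff]
      rintro w ⟨⟨x, rfl⟩, _⟩
      rw [Submodule.mem_bot]
      have : x = 0 := by
        funext k
        exact absurd k.2 (by omega)
      rw [this, map_zero]
    rw [hR]
    simp only
    rw [this]
    exact finrank_bot K _
  have h4 := h2 s
  rw [h3, Nat.cast_zero, mul_zero, zero_add] at h4
  have h5 : ∀ j, (V j : ℤ) = B j * (if dd j ≤ t then ((Mo s (t - dd j)).card : ℤ) else 0) := by
    intro j
    rw [hV]
    simp only
    rw [finrank_Vs_top]
    split_ifs
    · push_cast; ring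
    · simp
  rw [← h5 0]
  refine Eq.trans ?_ h4
  refine Finset.sum_congr rfl fun j _ => ?_
  rw [h5]

/-- values of the Hilbert polynomial at negative arguments -/
lemma prod_shift_neg (s z : ℕ) (hs : 1 ≤ s) :
    (∏ l ∈ Finset.range (s - 1), (-((z : ℚ) + s) + (l + 1))) =
      (-1) ^ (s - 1) * (((s - 1).factorial : ℚ) * ((Mo s z).card : ℚ)) := by
  rw [← prod_shift s z hs, ← Finset.prod_range_reflect (fun l : ℕ => ((z : ℚ) + (l + 1)))]
  have h1 : ((-1 : ℚ)) ^ (s - 1) = ∏ _l ∈ Finset.range (s - 1), (-1 : ℚ) := by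
    rw [Finset.prod_const, Finset.card_range]
  rw [h1, ← Finset.prod_mul_distrib]
  refine Finset.prod_congr rfl fun l hl => ?_
  rw [Finset.mem_range] at hl
  have h2 : ((s - 1 - 1 - l : ℕ) : ℚ) = (s : ℚ) - 1 - 1 - l := by
    rw [Nat.cast_sub (by omega), Nat.cast_sub (by omega), Nat.cast_sub (by omega)]
    simp
  rw [h2]
  ring

/-- numerical consequence of the Herzog-Kuehl equations, general form -/
theorem HK_gen {s : ℕ} (hs : 1 ≤ s) {d : ℕ → ℤ} (hd : ∀ i j, i ≤ s → j ≤ s → i < j → d i < d j)
    {β : ℕ → ℕ}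
    (hβ : ∀ i ≤ s, ∀ i' ≤ s,
          (β i : ℤ) * ∏ j ∈ (Finset.range (s + 1)).erase i, |d j - d i| =
            (β i' : ℤ) * ∏ j ∈ (Finset.range (s + 1)).erase i', |d j - d i'|)
    {dd : ℕ → ℕ} (hdd : ∀ i ≤ s, (dd i : ℤ) = d i - d 0) (t : ℕ) :
    ∑ j ∈ Finset.range (s + 1), (-1 : ℤ) ^ j *
      (β j * (if dd j ≤ t then ((Mo s (t - dd j)).card : ℤ) else
        if dd j ≤ t + (s - 1) then 0 else (-1) ^ (s - 1) * ((Mo s (dd j - t - s)).card : ℤ))) =
      0 := by
  set G : Polynomial ℚ := ∏ l ∈ Finset.range (s - 1),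
    (Polynomial.C ((t : ℚ) + d 0 + (l + 1)) - Polynomial.X) with hG
  have hdeg : G.degree < s := by
    rw [hG]
    refine lt_of_le_of_lt (Polynomial.degree_prod_le _ _) ?_
    refine lt_of_le_of_lt (Finset.sum_le_sum (g := fun _ => (1 : WithBot ℕ)) fun l _ => ?_) ?_
    · refine (Polynomial.degree_sub_le _ _).trans ?_
      rw [max_le_iff]
      exact ⟨Polynomial.degree_C_le.trans (by norm_num), Polynomial.degree_X_le⟩
    · rw [Finset.sum_const, Finset.card_range, nsmul_eq_mul, mul_one]
      exact_mod_cast (by omega : s - 1 < s)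
  have h1 := HK hd hβ hdeg
  have hev : ∀ j, G.eval (d j : ℚ) =
      ∏ l ∈ Finset.range (s - 1), (((t : ℚ) - (d j - d 0)) + (l + 1)) := by
    intro j
    rw [hG, Polynomial.eval_prod]
    refine Finset.prod_congr rfl fun l _ => ?_
    simp only [Polynomial.eval_sub, Polynomial.eval_C, Polynomial.eval_X]
    ring
  have h2 : ∀ j ∈ Finset.range (s + 1), (-1 : ℚ) ^ j * β j * G.eval (d j : ℚ) =
      ((s - 1).factorial : ℚ) * ((-1 : ℚ) ^ j *
      (β j * (if dd j ≤ t then ((Mo s (t - dd j)).card : ℚ) else
        if dd j ≤ t + (s - 1) then 0 else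
          (-1) ^ (s - 1) * ((Mo s (dd j - t - s)).card : ℚ)))) := by
    intro j hj
    rw [Finset.mem_range] at hj
    have h3 : ((d j : ℚ) - d 0) = dd j := by
      have := hdd j (by omega)
      exact_mod_cast congrArg (fun x : ℤ => (x : ℚ)) this.symm
    rw [hev, h3]
    split_ifs with h h5
    · have h4 : (t : ℚ) - dd j = ((t - dd j : ℕ) : ℚ) := by
        rw [Nat.cast_sub h]
      rw [h4, prod_shift s _ hs]
      ring
    · have h6 : (∏ l ∈ Finset.range (s - 1), (((t : ℚ) - dd j) + (l + 1))) = 0 := by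
        rw [Finset.prod_eq_zero_iff]
        refine ⟨dd j - t - 1, by rw [Finset.mem_range]; omega, ?_⟩
        have h7 : ((dd j - t - 1 : ℕ) : ℚ) = (dd j : ℚ) - t - 1 := by
          rw [Nat.cast_sub (by omega), Nat.cast_sub (by omega)]
          simp
        rw [h7]
        ring
      rw [h6]
      ring
    · have h7 : (t : ℚ) - dd j = -(((dd j - t - s : ℕ) : ℚ) + s) := by
        rw [Nat.cast_sub (by omega), Nat.cast_sub (by omega)]
        ring
      rw [h7, prod_shift_neg s _ hs]
      ring
  rw [Finset.sum_congr rfl h2, ← Finset.mul_sum] at h1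
  have h8 : ((s - 1).factorial : ℚ) ≠ 0 := by
    exact_mod_cast (Nat.factorial_pos _).ne'
  have h9 := (mul_eq_zero.1 h1).resolve_left h8
  have h10 : ((∑ j ∈ Finset.range (s + 1), (-1 : ℤ) ^ j *
      (β j * (if dd j ≤ t then ((Mo s (t - dd j)).card : ℤ) else
        if dd j ≤ t + (s - 1) then 0 else
          (-1) ^ (s - 1) * ((Mo s (dd j - t - s)).card : ℤ))) : ℤ) : ℚ) = 0 := by
    rw [← h9]
    push_cast
    refine Finset.sum_congr rfl fun j _ => ?_
    split_ifs <;> simp
  exact_mod_cast h10

/-- uniqueness of the solution of the recursion, general form -/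
theorem num_unique_gen {s : ℕ} {dd B β : ℕ → ℕ} (hdd : ∀ r, dd r < dd (r + 1)) (i0 : ℕ)
    (h0 : ∀ i < i0, B i = β i)
    (hE : ∀ i, i0 ≤ i → i ≤ s → ∑ j ∈ Finset.range (s + 1), (-1 : ℤ) ^ j *
      (B j * (if dd j ≤ dd i then ((Mo s (dd i - dd j)).card : ℤ) else 0)) =
      ∑ j ∈ Finset.range (s + 1), (-1 : ℤ) ^ j *
      (β j * (if dd j ≤ dd i then ((Mo s (dd i - dd j)).card : ℤ) else 0))) :
    ∀ i ≤ s, B i = β i := by
  have hmono : StrictMono dd := strictMono_nat_of_lt_succ hdd
  intro i
  induction i using Nat.strong_induction_on with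
  | _ i ih =>
    intro hi
    by_cases hi0 : i < i0
    · exact h0 i hi0
    · have h1 := hE i (by omega) hi
      have h3 : ∑ j ∈ Finset.range (s + 1), (-1 : ℤ) ^ j *
          (((B j : ℤ) - β j) *
            (if dd j ≤ dd i then ((Mo s (dd i - dd j)).card : ℤ) else 0)) = 0 := by
        have h4 := sub_eq_zero.2 h1
        refine Eq.trans ?_ h4
        rw [← Finset.sum_sub_distrib]
        exact Finset.sum_congr rfl fun j _ => by ring
      rw [Finset.sum_eq_single i] at h3
      · rw [if_pos le_rfl, Nat.sub_self] at h3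
        have h5 : (Mo s 0).card = 1 := by
          rw [card_Mo]; simp
        rw [h5] at h3
        have h6 : ((-1 : ℤ) ^ i) ≠ 0 := pow_ne_zero _ (by norm_num)
        have h7 := (mul_eq_zero.1 h3).resolve_left h6
        simp only [Nat.cast_one, mul_one] at h7
        omega
      · intro j hj hji
        rcases Nat.lt_or_ge j i with g | g
        · rw [ih j g (by omega)]
          simp
        · have : dd i < dd j := hmono (by omega)
          rw [if_neg (by omega)]
          simp
      · intro h
        exact absurd (Finset.mem_range.2 (by omega)) h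

/-- degrees of the second family -/
def dG (τ e s i : ℕ) : ℕ := if i = 0 then 0 else if i < s then τ + i else τ + e + i

lemma dG_lt (τ e : ℕ) {s : ℕ} (r : ℕ) : dG τ e s r < dG τ e s (r + 1) := by
  have h0 : dG τ e s (r + 1) = if r + 1 < s then τ + (r + 1) else τ + e + (r + 1) := by
    unfold dG
    rw [if_neg (by omega)]
  rw [h0]
  unfold dG
  by_cases h1 : r = 0
  · rw [if_pos h1]
    split_ifs <;> omega
  · rw [if_neg h1]
    split_ifs <;> omega

lemma dG_zero (τ e s : ℕ) : dG τ e s 0 = 0 := by simp [dG]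

theorem F2_complex {K : Type} [Field K] {s τ e P Q : ℕ} (hs : 2 ≤ s)
    {y : Fin Q → Fin P → Mo s (τ + e) → K} (hy : IsGood2 τ e y)
    (hPQ : P * (Mo s τ).card = Q * (Mo s e).card) :
    ∃ B : ℕ → ℕ, B 0 = P ∧
      ∃ D : ∀ i : ℕ, Matrix (Fin (B i)) (Fin (B (i + 1))) (MvPolynomial (Fin s) K),
        (∀ i, Gd (D i) (fun _ => dG τ e s i) (fun _ => dG τ e s (i + 1))) ∧
        (∀ i, LinearMap.range (D (i + 1)).mulVecLin = LinearMap.ker (D i).mulVecLin) ∧
        (∀ i, s < i → B i = 0) ∧
        (∀ c, τ + e < c → ∀ w : Fin (B 0) → MvPolynomial (Fin s) K,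
          (∀ j, (w j).IsHomogeneous c) → w ∈ LinearMap.range (D 0).mulVecLin) ∧
        (∀ c c', τ ≤ c → c + c' = τ + e →
          Module.finrank K (Vs (LinearMap.range (D 0).mulVecLin) 0 c) + Q * (Mo s c').card =
            P * (Mo s c).card) := by
  obtain ⟨b, h0, D, h1, h2, h3, h4⟩ := builder (s := s) (dd := dG τ e s) (dG_lt τ e) (r := 0)
    (M := AN (fun j => xt (y j))) (by
      intro v hv c
      rw [dG_zero]
      exact AN_gr y v hv c) (by
      intro i c hc
      rw [dG_zero]
      apply van2 (by omega) hy hPQ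
      have e1 : 0 + 1 + i = i + 1 := by omega
      rw [e1] at hc
      unfold dG at hc
      rw [if_neg (by omega)] at hc
      split_ifs at hc <;> omega)
  subst h0
  have h2' : LinearMap.range (D 0).mulVecLin = AN (fun j => xt (y j)) := by
    ext v
    exact h2 v
  refine ⟨b, rfl, D, ?_, h3, ?_, ?_, ?_⟩
  · intro i
    have := h1 i
    rw [zero_add] at this
    exact this
  · intro i hi
    exact h4 i (by omega) (by omega)
  · intro c hc w hw
    rw [h2']
    intro j μ
    exact ps_deg (y j) hw (by omega)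
  · intro c c' hc hcc
    rw [h2']
    exact finrank_AN (by omega) hy hPQ hc hcc

theorem F2_main (k : Type) [Field k] {s : ℕ} {d : ℕ → ℤ} (hs : 2 ≤ s)
    (hd : ∀ i < s, d i < d (i + 1)) (hF : ∀ i, 1 ≤ i → i + 1 < s → d (i + 1) = d i + 1) :
    ∃ N : ℕ, ∀ β : ℕ → ℕ, (∀ i, s < i → β i = 0) → N ≤ β 0 →
        (∀ i ≤ s, ∀ i' ≤ s,
          (β i : ℤ) * ∏ j ∈ (Finset.range (s + 1)).erase i, |d j - d i| =
            (β i' : ℤ) * ∏ j ∈ (Finset.range (s + 1)).erase i', |d j - d i'|) →
        ∃ dd : ℕ → ℕ, (∀ i ≤ s, (dd i : ℤ) = d i - d 0) ∧ PM k s dd β := by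
  have hstr := strict_of hd
  obtain ⟨τ, hτZ⟩ : ∃ τ : ℕ, (τ : ℤ) = d 1 - d 0 - 1 :=
    ⟨(d 1 - d 0 - 1).toNat, Int.toNat_of_nonneg (by have := hd 0 (by omega); simp at this; omega)⟩
  have hmid : ∀ i, i + 1 < s → d (i + 1) = d 0 + τ + (i + 1) := by
    intro i
    induction i with
    | zero => intro _; simp only [zero_add]; push_cast; linarith
    | succ i ih =>
      intro hi
      have h1 := ih (by omega)
      have h2 := hF (i + 1) (by omega) (by omega)
      rw [h2, h1]
      push_cast
      ring
  obtain ⟨e, heZ⟩ : ∃ e : ℕ, (e : ℤ) = d s - d 0 - τ - s := by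
    refine ⟨(d s - d 0 - τ - s).toNat, Int.toNat_of_nonneg ?_⟩
    have h1 := hmid (s - 2) (by omega)
    have h2 := hd (s - 1) (by omega)
    have h3 : s - 1 + 1 = s := by omega
    have h4 : s - 2 + 1 = s - 1 := by omega
    rw [h3] at h2
    rw [h4] at h1
    have h5 : ((s - 2 : ℕ) : ℤ) = s - 2 := by
      rw [Nat.cast_sub (by omega)]; rfl
    rw [h5] at h1
    linarith
  have hdd : ∀ i ≤ s, (dG τ e s i : ℤ) = d i - d 0 := by
    intro i hi
    unfold dG
    split_ifs with h1 h2
    · rw [h1]; simp
    · have := hmid (i - 1) (by omega)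
      have h3 : i - 1 + 1 = i := by omega
      rw [h3] at this
      rw [this]
      have h5 : ((i - 1 : ℕ) : ℤ) = i - 1 := by
        rw [Nat.cast_sub (by omega)]; rfl
      rw [h5]
      push_cast
      ring
    · have h3 : i = s := by omega
      subst h3
      push_cast
      linarith
  obtain ⟨N, hN⟩ := good_c2 (s := s) (by omega) τ e k
  -- threshold for the last Betti number
  set C1 : ℕ := ∏ j ∈ (Finset.range (s + 1)).erase s, (|d j - d s|).toNat with hC1
  refine ⟨N * C1, fun β hβ0 hβN hβ => ?_⟩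
  have hC1Z : (C1 : ℤ) = ∏ j ∈ (Finset.range (s + 1)).erase s, |d j - d s| := by
    rw [hC1]
    rw [Nat.cast_prod]
    refine Finset.prod_congr rfl fun j _ => ?_
    exact Int.toNat_of_nonneg (abs_nonneg _)
  have hC1pos : 0 < C1 := by
    have : (0 : ℤ) < C1 := by
      rw [hC1Z]
      apply Finset.prod_pos
      intro j hj
      rw [Finset.mem_erase, Finset.mem_range] at hj
      rw [abs_pos, sub_ne_zero]
      exact (hstr j s (by omega) le_rfl (by omega)).ne
    exact_mod_cast this
  have hQ : N ≤ β s := by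
    have h1 := hβ s le_rfl 0 (by omega)
    rw [← hC1Z] at h1
    have h2 : (1 : ℤ) ≤ ∏ j ∈ (Finset.range (s + 1)).erase 0, |d j - d 0| := by
      have : (0 : ℤ) < ∏ j ∈ (Finset.range (s + 1)).erase 0, |d j - d 0| := by
        apply Finset.prod_pos
        intro j hj
        rw [Finset.mem_erase, Finset.mem_range] at hj
        rw [abs_pos, sub_ne_zero]
        exact (hstr 0 j (by omega) (by omega) (by omega)).ne'
      linarith
    have h3 : (β 0 : ℤ) ≤ β s * C1 := by
      rw [h1]
      nlinarith [Nat.cast_nonneg (α := ℤ) (β 0)]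
    have h4 : N * C1 ≤ β s * C1 := by
      have : (β 0) ≤ β s * C1 := by exact_mod_cast h3
      omega
    exact Nat.le_of_mul_le_mul_right h4 hC1pos
  have hgen := HK_gen (by omega) hstr hβ hdd
  have hPQ : β 0 * (Mo s τ).card = β s * (Mo s e).card := by
    have h1 := hgen τ
    have h2 : ∀ j ∈ Finset.range (s + 1), j ≠ 0 ∧ j ≠ s → (-1 : ℤ) ^ j *
      (β j * (if dG τ e s j ≤ τ then ((Mo s (τ - dG τ e s j)).card : ℤ) else
        if dG τ e s j ≤ τ + (s - 1) then 0 else
          (-1) ^ (s - 1) * ((Mo s (dG τ e s j - τ - s)).card : ℤ))) = 0 := by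
      intro j hj hjs
      rw [Finset.mem_range] at hj
      have h3 : dG τ e s j = τ + j := by
        unfold dG
        rw [if_neg hjs.1, if_pos (by omega)]
      rw [h3, if_neg (by omega), if_pos (by omega)]
      simp
    rw [Finset.sum_eq_add_of_mem 0 s (Finset.mem_range.2 (by omega))
      (Finset.mem_range.2 (by omega)) (by omega) h2] at h1
    have h4 : dG τ e s s = τ + e + s := by
      unfold dG
      rw [if_neg (by omega), if_neg (by omega)]
    rw [dG_zero, h4, if_pos (by omega), if_neg (by omega), if_neg (by omega)] at h1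
    have h5 : τ + e + s - τ - s = e := by omega
    rw [h5, Nat.sub_zero] at h1
    have h6 : (-1 : ℤ) ^ s * (-1) ^ (s - 1) = -1 := by
      rw [← pow_add]
      have : s + (s - 1) = 2 * (s - 1) + 1 := by omega
      rw [this, pow_succ, pow_mul]
      simp
    have h7 : (-1 : ℤ) ^ s * ((β s : ℤ) * ((-1) ^ (s - 1) * ((Mo s e).card : ℤ))) =
        - ((β s : ℤ) * ((Mo s e).card : ℤ)) := by
      calc _ = ((-1 : ℤ) ^ s * (-1) ^ (s - 1)) * ((β s : ℤ) * ((Mo s e).card : ℤ)) := by ring
        _ = _ := by rw [h6]; ring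
    rw [h7] at h1
    zify
    linarith
  obtain ⟨X, hX⟩ := hN (β s) hQ (β 0) hPQ
  obtain ⟨B, hB0, D, hD1, hD2, hD3, hD4, hD5⟩ := F2_complex (K := k) hs
    (y := fun j i κ => X κ j i) (by
      intro v hv
      exact hX v hv) hPQ
  have hBβ : ∀ i ≤ s, B i = β i := by
    apply num_unique_gen (dG_lt τ e) 1
    · intro i hi
      have : i = 0 := by omega
      subst this
      exact hB0
    · intro i hi1 hi
      rw [alt_sum_gen hD1 hD2 hD3]
      rw [dG_zero, if_pos (Nat.zero_le _), Nat.sub_zero]
      have hB0Z : ((B 0 : ℕ) : ℤ) = β 0 := by rw [hB0]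
      -- the beta side
      have h1 := hgen (dG τ e s i)
      have hsplit : ∀ j ∈ Finset.range (s + 1), (-1 : ℤ) ^ j *
          (β j * (if dG τ e s j ≤ dG τ e s i then ((Mo s (dG τ e s i - dG τ e s j)).card : ℤ) else
            if dG τ e s j ≤ dG τ e s i + (s - 1) then 0 else
              (-1) ^ (s - 1) * ((Mo s (dG τ e s j - dG τ e s i - s)).card : ℤ))) =
          (-1 : ℤ) ^ j * (β j *
            (if dG τ e s j ≤ dG τ e s i then ((Mo s (dG τ e s i - dG τ e s j)).card : ℤ) else 0))
          + (-1 : ℤ) ^ j * (β j * (if dG τ e s j ≤ dG τ e s i + (s - 1) then 0 else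
              (-1) ^ (s - 1) * ((Mo s (dG τ e s j - dG τ e s i - s)).card : ℤ))) := by
        intro j _
        by_cases h : dG τ e s j ≤ dG τ e s i
        · rw [if_pos h, if_pos h, if_pos (by omega)]
          ring
        · rw [if_neg h, if_neg h]
          ring
      rw [Finset.sum_congr rfl hsplit, Finset.sum_add_distrib] at h1
      have h2 : ∑ j ∈ Finset.range (s + 1), (-1 : ℤ) ^ j * (β j *
          (if dG τ e s j ≤ dG τ e s i + (s - 1) then 0 else
              (-1) ^ (s - 1) * ((Mo s (dG τ e s j - dG τ e s i - s)).card : ℤ))) =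
          (-1 : ℤ) ^ s * (β s *
          (if dG τ e s s ≤ dG τ e s i + (s - 1) then 0 else
              (-1) ^ (s - 1) * ((Mo s (dG τ e s s - dG τ e s i - s)).card : ℤ))) := by
        apply Finset.sum_eq_single_of_mem s (Finset.mem_range.2 (by omega))
        intro j hj hjs
        rw [Finset.mem_range] at hj
        rw [if_pos]
        · simp
        · unfold dG
          split_ifs <;> omega
      rw [h2] at h1
      have h6 : (-1 : ℤ) ^ s * (-1) ^ (s - 1) = -1 := by
        rw [← pow_add]
        have : s + (s - 1) = 2 * (s - 1) + 1 := by omega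
        rw [this, pow_succ, pow_mul]
        simp
      have hss : dG τ e s s = τ + e + s := by
        unfold dG
        rw [if_neg (by omega), if_neg (by omega)]
      rcases Nat.lt_or_ge i s with his | his
      · have hi' : dG τ e s i = τ + i := by
          unfold dG
          rw [if_neg (by omega), if_pos his]
        rw [hss, hi'] at h1
        rw [hi']
        rcases Nat.lt_or_ge e i with hei | hei
        · -- everything is in the submodule
          rw [if_pos (by omega), mul_zero, mul_zero, add_zero] at h1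
          have h8 : Vs (LinearMap.range (D 0).mulVecLin) 0 (τ + i) =
              Vs (⊤ : Submodule (MvPolynomial (Fin s) k)
                (Fin (B 0) → MvPolynomial (Fin s) k)) 0 (τ + i) := by
            apply le_antisymm
            · intro w hw
              exact ⟨Submodule.mem_top, hw.2⟩
            · intro w hw
              refine ⟨hD4 (τ + i) (by omega) w (fun j => by simpa using hm_hom (hw.2 j)), hw.2⟩
          rw [h8, finrank_Vs_top, if_pos (Nat.zero_le _), Nat.sub_zero, hB0]
          push_cast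
          linarith
        · rw [if_neg (by omega)] at h1
          have h9 : τ + e + s - (τ + i) - s = e - i := by omega
          rw [h9] at h1
          have h7 : (-1 : ℤ) ^ s * ((β s : ℤ) * ((-1) ^ (s - 1) * ((Mo s (e - i)).card : ℤ))) =
              - ((β s : ℤ) * ((Mo s (e - i)).card : ℤ)) := by
            calc _ = ((-1 : ℤ) ^ s * (-1) ^ (s - 1)) *
                  ((β s : ℤ) * ((Mo s (e - i)).card : ℤ)) := by ring
              _ = _ := by rw [h6]; ring
          rw [h7] at h1
          have h10 := hD5 (τ + i) (e - i) (by omega) (by omega)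
          have h11 : ((β 0 : ℤ) * ((Mo s (τ + i)).card : ℤ)) -
              (Module.finrank k (Vs (LinearMap.range (D 0).mulVecLin) 0 (τ + i)) : ℤ) =
              (β s : ℤ) * ((Mo s (e - i)).card : ℤ) := by
            have : ((Module.finrank k (Vs (LinearMap.range (D 0).mulVecLin) 0 (τ + i)) +
              β s * (Mo s (e - i)).card : ℕ) : ℤ) = ((β 0 * (Mo s (τ + i)).card : ℕ) : ℤ) := by
              exact_mod_cast h10
            push_cast at this
            linarith
          rw [hB0Z, h11]
          linarith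
      · have his' : i = s := by omega
        subst his'
        rw [hss, if_pos (by omega), mul_zero, mul_zero, add_zero] at h1
        rw [hss]
        have h8 : Vs (LinearMap.range (D 0).mulVecLin) 0 (τ + e + i) =
            Vs (⊤ : Submodule (MvPolynomial (Fin i) k)
              (Fin (B 0) → MvPolynomial (Fin i) k)) 0 (τ + e + i) := by
          apply le_antisymm
          · intro w hw
            exact ⟨Submodule.mem_top, hw.2⟩
          · intro w hw
            refine ⟨hD4 (τ + e + i) (by omega) w (fun j => by simpa using hm_hom (hw.2 j)), hw.2⟩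
        rw [h8, finrank_Vs_top, if_pos (Nat.zero_le _), Nat.sub_zero, hB0]
        push_cast
        linarith
  have hBe : B = β := by
    funext i
    rcases Nat.lt_or_ge s i with h | h
    · rw [hD3 i h, hβ0 i h]
    · exact hBβ i h
  subst hBe
  exact ⟨dG τ e s, hdd, D, fun i _ => hD1 i, hD2, τ + e + 1, fun c hc => hD4 c (by omega)⟩

end Run7.h869
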