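import Mathlib
import Pool.Agent.Run7.h869.Asm

/-!
Substituting powers of the variables.
-/

set_option autoImplicit false
set_option linter.unusedSectionVars false

namespace Run7.h869

open MvPolynomial Pool.Agent.H803R3

section Expand

variable {K : Type} [Field K] {s : ℕ}

/-- component of a polynomial along a residue class of exponents -/
noncomputable def cmp (r : ℕ) (ρ : Fin s →₀ ℕ) (x : MvPolynomial (Fin s) K) :
    MvPolynomial (Fin s) K :=
  ∑ μ ∈ x.support.image (fun ν => ν.mapRange (fun a => a / r) (Nat.zero_div r)),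
    monomial μ (coeff (r • μ + ρ) x)

lemma coeff_cmp {r : ℕ} {ρ : Fin s →₀ ℕ} (hρ : ∀ i, ρ i < r) (x : MvPolynomial (Fin s) K)
    (μ : Fin s →₀ ℕ) : coeff μ (cmp r ρ x) = coeff (r • μ + ρ) x := by
  classical
  unfold cmp
  rw [coeff_sum]
  simp only [coeff_monomial]
  rw [Finset.sum_ite_eq']
  split_ifs with h
  · rfl
  · by_contra hne
    apply h
    rw [Finset.mem_image]
    refine ⟨r • μ + ρ, by rw [mem_support_iff]; exact fun h => hne h.symm, ?_⟩
    ext i
    rw [Finsupp.mapRange_apply, Finsupp.add_apply, Finsupp.smul_apply, smul_eq_mul,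
      Nat.mul_add_div (by have := hρ i; omega), Nat.div_eq_of_lt (hρ i), add_zero]

lemma cmp_add {r : ℕ} {ρ : Fin s →₀ ℕ} (hρ : ∀ i, ρ i < r) (x y : MvPolynomial (Fin s) K) :
    cmp r ρ (x + y) = cmp r ρ x + cmp r ρ y := by
  ext μ
  rw [coeff_cmp hρ, coeff_add, coeff_add, coeff_cmp hρ, coeff_cmp hρ]

lemma cmp_zero {r : ℕ} {ρ : Fin s →₀ ℕ} (hρ : ∀ i, ρ i < r) :
    cmp r ρ (0 : MvPolynomial (Fin s) K) = 0 := by
  ext μ
  rw [coeff_cmp hρ, coeff_zero, coeff_zero]

lemma cmp_sum {r : ℕ} {ρ : Fin s →₀ ℕ} (hρ : ∀ i, ρ i < r) {ι : Type*} (S : Finset ι)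
    (f : ι → MvPolynomial (Fin s) K) : cmp r ρ (∑ i ∈ S, f i) = ∑ i ∈ S, cmp r ρ (f i) := by
  classical
  induction S using Finset.induction_on with
  | empty => rw [Finset.sum_empty, Finset.sum_empty, cmp_zero hρ]
  | insert a S ha ih => rw [Finset.sum_insert ha, Finset.sum_insert ha, cmp_add hρ, ih]

lemma cmp_expand_mul {r : ℕ} (hr : 1 ≤ r) {ρ : Fin s →₀ ℕ} (hρ : ∀ i, ρ i < r)
    (p x : MvPolynomial (Fin s) K) : cmp r ρ (expand r p * x) = p * cmp r ρ x := by
  classical
  induction p using MvPolynomial.induction_on' with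
  | monomial κ c =>
    ext μ
    rw [coeff_cmp hρ, expand_monomial, coeff_monomial_mul', coeff_monomial_mul']
    have hiff : r • κ ≤ r • μ + ρ ↔ κ ≤ μ := by
      constructor
      · intro h i
        have h1 := h i
        rw [Finsupp.add_apply, Finsupp.smul_apply, Finsupp.smul_apply, smul_eq_mul,
          smul_eq_mul] at h1
        have h2 := hρ i
        by_contra hno
        have h3 : μ i + 1 ≤ κ i := by omega
        have h4 : r * (μ i + 1) ≤ r * κ i := Nat.mul_le_mul_left r h3
        rw [mul_add, mul_one] at h4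
        omega
      · intro h i
        rw [Finsupp.add_apply, Finsupp.smul_apply, Finsupp.smul_apply, smul_eq_mul, smul_eq_mul]
        have := Nat.mul_le_mul_left r (h i)
        omega
    by_cases h : κ ≤ μ
    · rw [if_pos (hiff.2 h), if_pos h, coeff_cmp hρ]
      congr 2
      ext i
      have h5 := h i
      simp only [Finsupp.coe_tsub, Pi.sub_apply, Finsupp.add_apply, Finsupp.smul_apply,
        smul_eq_mul]
      have h6 := Nat.mul_le_mul_left r h5
      rw [Nat.mul_sub]
      omega
    · rw [if_neg (fun h' => h (hiff.1 h')), if_neg h]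
  | add p q hp hq => rw [map_add, add_mul, cmp_add hρ, hp, hq, add_mul]

/-- exponents with entries less than `r` -/
noncomputable def Box (s r : ℕ) : Finset (Fin s →₀ ℕ) :=
  (Finset.univ : Finset (Fin s → Fin r)).image
    (fun f => Finsupp.equivFunOnFinite.symm (fun i => (f i : ℕ)))

lemma mem_Box {r : ℕ} {ρ : Fin s →₀ ℕ} : ρ ∈ Box s r ↔ ∀ i, ρ i < r := by
  unfold Box
  rw [Finset.mem_image]
  constructor
  · rintro ⟨f, _, rfl⟩ i
    exact (f i).2
  · intro h
    refine ⟨fun i => ⟨ρ i, h i⟩, Finset.mem_univ _, ?_⟩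
    ext i
    rfl

lemma sum_cmp {r : ℕ} (hr : 1 ≤ r) (x : MvPolynomial (Fin s) K) :
    x = ∑ ρ ∈ Box s r, monomial ρ 1 * expand r (cmp r ρ x) := by
  classical
  ext ν
  rw [coeff_sum]
  set ρ0 : Fin s →₀ ℕ := ν.mapRange (fun a => a % r) (Nat.zero_mod r) with hρ0
  set μ0 : Fin s →₀ ℕ := ν.mapRange (fun a => a / r) (Nat.zero_div r) with hμ0
  have hν : ν = r • μ0 + ρ0 := by
    ext i
    rw [Finsupp.add_apply, Finsupp.smul_apply, hρ0, hμ0, Finsupp.mapRange_apply,
      Finsupp.mapRange_apply, smul_eq_mul, Nat.div_add_mod]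
  have hρ : ∀ i, ρ0 i < r := by
    intro i
    rw [hρ0, Finsupp.mapRange_apply]
    exact Nat.mod_lt _ hr
  rw [Finset.sum_eq_single ρ0]
  · rw [coeff_monomial_mul', if_pos (by rw [hν]; exact le_add_self), one_mul]
    have h1 : ν - ρ0 = r • μ0 := by
      rw [hν]
      exact add_tsub_cancel_right _ _
    rw [h1, coeff_expand_smul _ (by omega), coeff_cmp hρ, ← hν]
  · intro ρ hρB hne
    rw [coeff_monomial_mul']
    split_ifs with h
    · rw [one_mul]
      have hex : ∃ i, ¬ r ∣ (ν - ρ) i := by
        by_contra hno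
        push Not at hno
        apply hne
        ext i
        have h2 := mem_Box.1 hρB i
        have h3 := hno i
        have h4 := h i
        rw [Finsupp.tsub_apply] at h3
        rw [hρ0, Finsupp.mapRange_apply]
        obtain ⟨q, hq⟩ := h3
        have h5 : ν i = ρ i + r * q := by omega
        rw [h5, Nat.add_mul_mod_self_left, Nat.mod_eq_of_lt h2]
      obtain ⟨i, hi⟩ := hex
      exact coeff_expand_of_not_dvd _ hi
    · rfl
  · intro h
    exact absurd (mem_Box.2 hρ) h

theorem expand_exact {r : ℕ} (hr : 1 ≤ r) {m m' m'' : ℕ}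
    (A : Matrix (Fin m) (Fin m') (MvPolynomial (Fin s) K))
    (B : Matrix (Fin m') (Fin m'') (MvPolynomial (Fin s) K))
    (h : LinearMap.range B.mulVecLin = LinearMap.ker A.mulVecLin) :
    LinearMap.range (B.map (expand (R := K) r)).mulVecLin =
      LinearMap.ker (A.map (expand (R := K) r)).mulVecLin := by
  classical
  have hAB : ∀ z, A.mulVec (B.mulVec z) = 0 := by
    intro z
    have : B.mulVecLin z ∈ LinearMap.ker A.mulVecLin := by rw [← h]; exact ⟨z, rfl⟩
    exact this
  apply le_antisymm
  · rintro _ ⟨z, rfl⟩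
    show (A.map (expand (R := K) r)).mulVec ((B.map (expand (R := K) r)).mulVec z) = 0
    have h1 : A * B = 0 := by
      refine Matrix.ext fun u v => ?_
      have := hAB (Pi.single v 1)
      rw [Matrix.mulVec_mulVec, Matrix.mulVec_single_one] at this
      exact congrFun this u
    rw [Matrix.mulVec_mulVec]
    have h2 : A.map (expand (R := K) r) * B.map (expand (R := K) r) =
        (A * B).map (expand (R := K) r) := by
      refine Matrix.ext fun u v => ?_
      rw [Matrix.map_apply, Matrix.mul_apply, Matrix.mul_apply, map_sum]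
      refine Finset.sum_congr rfl fun w _ => ?_
      rw [map_mul, Matrix.map_apply, Matrix.map_apply]
    rw [h2, h1]
    have h3 : (0 : Matrix (Fin m) (Fin m'') (MvPolynomial (Fin s) K)).map (expand (R := K) r) =
        0 := by
      refine Matrix.ext fun u v => ?_
      rw [Matrix.map_apply, Matrix.zero_apply, map_zero]
    rw [h3, Matrix.zero_mulVec]
  · intro x hx
    have hx' : (A.map (expand (R := K) r)).mulVec x = 0 := hx
    have h4 : ∀ ρ ∈ Box s r, ∃ z, B.mulVec z = fun k => cmp r ρ (x k) := by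
      intro ρ hρ
      have hρ' := mem_Box.1 hρ
      have h5 : A.mulVec (fun k => cmp r ρ (x k)) = 0 := by
        funext j
        have h6 := congrArg (cmp r ρ) (congrFun hx' j)
        have h7 : (A.map (expand (R := K) r)).mulVec x j = ∑ k, expand r (A j k) * x k := rfl
        rw [h7, cmp_sum hρ', Pi.zero_apply, cmp_zero hρ'] at h6
        refine Eq.trans ?_ h6
        show ∑ k, A j k * cmp r ρ (x k) = _
        exact Finset.sum_congr rfl fun k _ => (cmp_expand_mul hr hρ' _ _).symm
      have h8 : (fun k => cmp r ρ (x k)) ∈ LinearMap.range B.mulVecLin := by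
        rw [h]; exact h5
      exact h8
    choose! z hz using h4
    refine ⟨fun k => ∑ ρ ∈ Box s r, monomial ρ 1 * expand r (z ρ k), ?_⟩
    show (B.map (expand (R := K) r)).mulVec _ = x
    funext j
    show ∑ k, expand r (B j k) * ∑ ρ ∈ Box s r, monomial ρ 1 * expand r (z ρ k) = x j
    rw [sum_cmp hr (x j)]
    simp only [Finset.mul_sum]
    rw [Finset.sum_comm]
    refine Finset.sum_congr rfl fun ρ hρ => ?_
    have h9 := congrFun (hz ρ hρ) j
    rw [← h9]
    show _ = monomial ρ 1 * expand r (∑ k, B j k * z ρ k)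
    rw [map_sum, Finset.mul_sum]
    refine Finset.sum_congr rfl fun k _ => ?_
    rw [map_mul]
    ring

lemma expand_hom {r d : ℕ} {p : MvPolynomial (Fin s) K} (h : p.IsHomogeneous d) :
    (expand r p).IsHomogeneous (r * d) := by
  classical
  rw [hom_expand h, map_sum]
  refine IsHomogeneous.sum _ _ _ fun μ _ => ?_
  rw [expand_monomial, hom_iff_Mo]
  intro ν hν
  rw [coeff_monomial] at hν
  split_ifs at hν with h1
  · rw [← h1, mem_Mo]
    have := mem_Mo.1 μ.2
    simp only [Finsupp.smul_apply, smul_eq_mul, ← Finset.mul_sum, this]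
  · exact absurd rfl hν

end Expand

end Run7.h869
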