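import Mathlib
import Pool.Agent.Run7.h869.F2b
import Pool.Agent.Run7.h869.Dual
import Pool.Agent.Run7.h869.Scale

/-!
Union of the three families, scaling, and the final statement.
-/

set_option autoImplicit false
set_option linter.unusedSectionVars false

namespace Run7.h869

open MvPolynomial Pool.Agent.H803R3

/-- the equations defining integral points of the ray of `d` -/
def Ray (s : ℕ) (d : ℕ → ℤ) (β : ℕ → ℕ) : Prop :=
  ∀ i ≤ s, ∀ i' ≤ s,
          (β i : ℤ) * ∏ j ∈ (Finset.range (s + 1)).erase i, |d j - d i| =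
            (β i' : ℤ) * ∏ j ∈ (Finset.range (s + 1)).erase i', |d j - d i'|

lemma rv_rv {s : ℕ} {β : ℕ → ℕ} (h : ∀ i, s < i → β i = 0) : rv s (rv s β) = β := by
  funext i
  unfold rv
  split_ifs with h1 h2
  · congr 1; omega
  · omega
  · exact (h i (by omega)).symm

lemma prod_rev (s : ℕ) (f : ℕ → ℤ) {i : ℕ} (hi : i ≤ s) :
    ∏ j ∈ (Finset.range (s + 1)).erase i, f (s - j) =
      ∏ j ∈ (Finset.range (s + 1)).erase (s - i), f j := by
  refine Finset.prod_nbij' (fun j => s - j) (fun j => s - j) ?_ ?_ ?_ ?_ ?_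
  · intro j hj
    rw [Finset.mem_erase, Finset.mem_range] at hj ⊢
    omega
  · intro j hj
    rw [Finset.mem_erase, Finset.mem_range] at hj ⊢
    omega
  · intro j hj
    rw [Finset.mem_erase, Finset.mem_range] at hj
    omega
  · intro j hj
    rw [Finset.mem_erase, Finset.mem_range] at hj
    omega
  · intro j _
    rfl

lemma Ray.rev {s : ℕ} {d : ℕ → ℤ} {β : ℕ → ℕ} (h : Ray s d β) :
    Ray s (fun i => - d (s - i)) (rv s β) := by
  have key : ∀ i ≤ s, (rv s β i : ℤ) *
      ∏ j ∈ (Finset.range (s + 1)).erase i, |(- d (s - j)) - (- d (s - i))| =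
      (β (s - i) : ℤ) * ∏ j ∈ (Finset.range (s + 1)).erase (s - i), |d j - d (s - i)| := by
    intro i hi
    rw [rv_le β hi, ← prod_rev s (fun j => |d j - d (s - i)|) hi]
    congr 1
    refine Finset.prod_congr rfl fun j _ => ?_
    rw [← abs_neg]
    congr 1
    ring
  intro i hi i' hi'
  rw [key i hi, key i' hi']
  exact h _ (by omega) _ (by omega)

/-- a lower bound for the last Betti number -/
lemma last_big {s : ℕ} {d : ℕ → ℤ} (hd : ∀ i < s, d i < d (i + 1)) (N : ℕ) :
    ∃ N' : ℕ, ∀ β : ℕ → ℕ, Ray s d β → N' ≤ β 0 → N ≤ β s := by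
  have hstr := strict_of hd
  rcases Nat.eq_zero_or_pos s with hs | hs
  · subst hs
    exact ⟨N, fun β _ h => h⟩
  set C1 : ℕ := ∏ j ∈ (Finset.range (s + 1)).erase s, (|d j - d s|).toNat with hC1
  refine ⟨N * C1, fun β hβ hβN => ?_⟩
  have hC1Z : (C1 : ℤ) = ∏ j ∈ (Finset.range (s + 1)).erase s, |d j - d s| := by
    rw [hC1]
    rw [Nat.cast_prod]
    refine Finset.prod_congr rfl fun j _ => ?_
    exact Int.toNat_of_nonneg (abs_nonneg _)
  have hC1pos : 0 < C1 := by
    have : (0 : ℤ) < C1 := by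
      rw [hC1Z]
      apply Finset.prod_pos
      intro j hj
      rw [Finset.mem_erase, Finset.mem_range] at hj
      rw [abs_pos, sub_ne_zero]
      exact (hstr j s (by omega) le_rfl (by omega)).ne
    exact_mod_cast this
  have h1 := hβ s le_rfl 0 (by omega)
  rw [← hC1Z] at h1
  have h2 : (1 : ℤ) ≤ ∏ j ∈ (Finset.range (s + 1)).erase 0, |d j - d 0| := by
    have : (0 : ℤ) < ∏ j ∈ (Finset.range (s + 1)).erase 0, |d j - d 0| := by
      apply Finset.prod_pos
      intro j hj
      rw [Finset.mem_erase, Finset.mem_range] at hj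
      rw [abs_pos, sub_ne_zero]
      exact (hstr 0 j (by omega) (by omega) (by omega)).ne'
    linarith
  have h3 : (β 0 : ℤ) ≤ β s * C1 := by
    rw [h1]
    nlinarith [Nat.cast_nonneg (α := ℤ) (β 0)]
  have h4 : N * C1 ≤ β s * C1 := by
    have : (β 0) ≤ β s * C1 := by exact_mod_cast h3
    omega
  exact Nat.le_of_mul_le_mul_right h4 hC1pos

/-- the three families, difference one -/
theorem core_one (k : Type) [Field k] {s : ℕ} {d : ℕ → ℤ} (hs : 2 ≤ s)
    (hd : ∀ i < s, d i < d (i + 1)) {j : ℕ} (hj : j ≤ 2)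
    (hF : ∀ i, j ≤ i → i + 2 < j + s → d (i + 1) = d i + 1) :
    ∃ N : ℕ, ∀ β : ℕ → ℕ, (∀ i, s < i → β i = 0) → N ≤ β 0 → Ray s d β →
        ∃ dd : ℕ → ℕ, (∀ i ≤ s, (dd i : ℤ) = d i - d 0) ∧ PM k s dd β := by
  have hcases : j = 0 ∨ j = 1 ∨ j = 2 := by omega
  rcases hcases with rfl | rfl | rfl
  · -- duality
    have hd' : ∀ i < s, (fun i => - d (s - i)) i < (fun i => - d (s - i)) (i + 1) := by
      intro i hi
      have h1 := hd (s - (i + 1)) (by omega)
      have h2 : s - (i + 1) + 1 = s - i := by omega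
      rw [h2] at h1
      show - d (s - i) < - d (s - (i + 1))
      linarith
    obtain ⟨N, hN⟩ := F1_main k (d := fun i => - d (s - i)) hs hd' (by
      intro i hi2 his
      have h1 := hF (s - (i + 1)) (by omega) (by omega)
      have h2 : s - (i + 1) + 1 = s - i := by omega
      rw [h2] at h1
      show - d (s - (i + 1)) = - d (s - i) + 1
      linarith)
    obtain ⟨N', hN'⟩ := last_big hd N
    refine ⟨N', fun β hβ0 hβN hβ => ?_⟩
    obtain ⟨dd, hdd, hPM⟩ := hN (rv s β) (by
      intro i hi
      unfold rv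
      rw [if_neg (by omega)]) (by
      rw [rv_le β (Nat.zero_le s)]
      exact hN' β hβ hβN) hβ.rev
    have hmono : ∀ i < s, dd i ≤ dd (i + 1) := by
      intro i hi
      have h1 := hdd i (by omega)
      have h2 := hdd (i + 1) (by omega)
      have h3 := hd' i hi
      have h4 : (dd i : ℤ) ≤ dd (i + 1) := by
        rw [h1, h2]
        linarith
      exact_mod_cast h4
    have h5 := PM.dual (by omega) hmono (by
      intro i hi
      unfold rv
      rw [if_neg (by omega)]) hPM
    rw [rv_rv hβ0] at h5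
    refine ⟨_, ?_, h5⟩
    intro i hi
    have h6 := hdd s le_rfl
    have h7 := hdd (s - i) (by omega)
    have h8 : dd (s - i) ≤ dd s := by
      have : (dd (s - i) : ℤ) ≤ dd s := by
        rw [h6, h7]
        have h9 : s - (s - i) = i := by omega
        have h10 : s - s = 0 := by omega
        simp only [h9, h10]
        rcases Nat.eq_zero_or_pos i with h11 | h11
        · rw [h11]
        · have := strict_of hd 0 i (by omega) hi h11
          linarith
      exact_mod_cast this
    rw [Nat.cast_sub h8, h6, h7]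
    have h9 : s - (s - i) = i := by omega
    have h10 : s - s = 0 := by omega
    simp only [h9, h10]
    ring
  · obtain ⟨N, hN⟩ := F2_main k hs hd (by
      intro i h1 h2
      exact hF i h1 (by omega))
    exact ⟨N, fun β h1 h2 h3 => hN β h1 h2 h3⟩
  · obtain ⟨N, hN⟩ := F1_main k hs hd (by
      intro i h1 h2
      exact hF i h1 (by omega))
    exact ⟨N, fun β h1 h2 h3 => hN β h1 h2 h3⟩

/-- scaling of the degrees -/
theorem PM_scale {k : Type} [Field k] {s : ℕ} {dd β : ℕ → ℕ} {r : ℕ} (hr : 1 ≤ r)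
    (h : PM k s dd β) :
    ∃ D : ∀ i : ℕ, Matrix (Fin (β i)) (Fin (β (i + 1))) (MvPolynomial (Fin s) k),
      (∀ i < s, Gd (D i) (fun _ => r * dd i) (fun _ => r * dd (i + 1))) ∧
      (∀ i, LinearMap.range (D (i + 1)).mulVecLin = LinearMap.ker (D i).mulVecLin) := by
  obtain ⟨D, hD, hex, _⟩ := h
  refine ⟨fun i => (D i).map (expand (R := k) r), ?_, fun i => expand_exact hr _ _ (hex i)⟩
  intro i hi u v
  rcases hD i hi u v with h | ⟨h1, h2⟩
  · left
    show expand r (D i u v) = 0
    rw [h, map_zero]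
  · right
    refine ⟨Nat.mul_le_mul_left r h1, ?_⟩
    have h3 := expand_hom (r := r) h2
    rw [Nat.mul_sub] at h3
    exact h3

/-- the cases `s = 0` and `s = 1` -/
theorem small_s {k : Type} [Field k] {n s : ℕ} (hs : s ≤ 1) (hsn : s ≤ n) {d : ℕ → ℤ}
    {β : ℕ → ℕ} (hβ0 : ∀ i, s < i → β i = 0) (hd : ∀ i < s, d i < d (i + 1)) (hβ : Ray s d β) :
    HasPure k n d β := by
  rcases Nat.lt_or_ge s 1 with h | h
  · have hs0 : s = 0 := by omega
    subst hs0
    refine ⟨fun i => 0, ?_, ?_⟩
    · intro i a b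
      rw [LinearMap.zero_apply]
      exact isHomogeneous_zero _ _ _
    · intro i
      have h1 : ∀ x : Fin (β (i + 1)) → MvPolynomial (Fin n) k, x = 0 := by
        intro x
        funext u
        have := hβ0 (i + 1) (by omega)
        exact absurd u.2 (by omega)
      ext x
      rw [h1 x]
      simp
  · have hs1 : s = 1 := by omega
    subst hs1
    have hβ1 : β 1 = β 0 := by
      have h1 := hβ 1 le_rfl 0 (by omega)
      have e1 : (Finset.range (1 + 1)).erase 1 = {0} := by decide
      have e0 : (Finset.range (1 + 1)).erase 0 = {1} := by decide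
      rw [e1, e0, Finset.prod_singleton, Finset.prod_singleton, abs_sub_comm (d 1) (d 0)] at h1
      have h2 : |d 0 - d 1| ≠ 0 := by
        rw [abs_ne_zero, sub_ne_zero]
        have := hd 0 (by omega)
        simp at this
        omega
      exact_mod_cast mul_right_cancel₀ h2 h1
    have hn : 0 < n := by omega
    set a := (d 1 - d 0).toNat with ha
    refine ⟨fun i => match i with
      | 0 => (LinearMap.lsmul (MvPolynomial (Fin n) k) (Fin (β 0) → MvPolynomial (Fin n) k)
          (X (⟨0, hn⟩ : Fin n) ^ a)).comp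
          (LinearMap.funLeft (MvPolynomial (Fin n) k) (MvPolynomial (Fin n) k)
            (Fin.cast hβ1.symm))
      | _ + 1 => 0, ?_, ?_⟩
    · intro i u v
      rcases i with _ | i
      · show ((X (⟨0, hn⟩ : Fin n) : MvPolynomial (Fin n) k) ^ a *
          (Pi.single v (1 : MvPolynomial (Fin n) k) : Fin (β (0 + 1)) → _)
            (Fin.cast _ u)).IsHomogeneous _
        rw [Pi.single_apply]
        split_ifs
        · rw [mul_one]
          exact isHomogeneous_X_pow _ _
        · rw [mul_zero]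
          exact isHomogeneous_zero _ _ _
      · exact isHomogeneous_zero _ _ _
    · intro i
      have hr : ∀ f : (Fin (β (i + 1 + 1)) → MvPolynomial (Fin n) k) →ₗ[MvPolynomial (Fin n) k]
          (Fin (β (i + 1)) → MvPolynomial (Fin n) k), LinearMap.range f = ⊥ := by
        intro f
        rw [eq_bot_iff]
        rintro _ ⟨x, rfl⟩
        have h1 : x = 0 := by
          funext v
          have := hβ0 (i + 1 + 1) (by omega)
          exact absurd v.2 (by omega)
        rw [h1, map_zero]
        exact Submodule.zero_mem _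
      rw [hr]
      symm
      rw [eq_bot_iff]
      intro x hx
      rw [Submodule.mem_bot]
      rcases i with _ | i
      · funext v
        have h1 := congrFun hx (Fin.cast hβ1 v)
        have h2 : (X (⟨0, hn⟩ : Fin n) : MvPolynomial (Fin n) k) ^ a * x v = 0 := h1
        rcases mul_eq_zero.1 h2 with h3 | h3
        · exact absurd h3 (pow_ne_zero _ (X_ne_zero _))
        · exact h3
      · funext v
        have := hβ0 (i + 1 + 1) (by omega)
        exact absurd v.2 (by omega)

theorem main_thm (k : Type) [Field k] (n s : ℕ) (d : ℕ → ℤ) (hsn : s ≤ n)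
    (hd : ∀ i < s, d i < d (i + 1))
    (hblock : ∃ (r : ℤ) (j : ℕ), 0 < r ∧ j ≤ 2 ∧ (∀ i ≤ s, r ∣ d i - d 0) ∧
      ∀ i, j ≤ i → i + 2 < j + s → d (i + 1) = d i + r) :
    ∃ N : ℕ, ∀ β : ℕ → ℕ, (∀ i, s < i → β i = 0) → 0 < β 0 → N ≤ β 0 → Ray s d β →
      HasPure k n d β := by
  rcases Nat.lt_or_ge s 2 with hs | hs
  · exact ⟨0, fun β hβ0 _ _ hβ => small_s (by omega) hsn hβ0 hd hβ⟩
  obtain ⟨r, j, hr, hj, hdiv, hF⟩ := hblock
  obtain ⟨r, rfl⟩ : ∃ r' : ℕ, r = r' := ⟨r.toNat, (Int.toNat_of_nonneg hr.le).symm⟩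
  have hr1 : 1 ≤ r := by exact_mod_cast hr
  set e : ℕ → ℤ := fun i => (d i - d 0) / r with he
  have hde : ∀ i ≤ s, d i - d 0 = r * e i := fun i hi => (Int.mul_ediv_cancel' (hdiv i hi)).symm
  have he0 : e 0 = 0 := by rw [he]; simp
  have hestr : ∀ i < s, e i < e (i + 1) := by
    intro i hi
    have h1 := hde i (by omega)
    have h2 := hde (i + 1) (by omega)
    have h3 := hd i hi
    have h4 : (r : ℤ) * e i < r * e (i + 1) := by linarith
    exact lt_of_mul_lt_mul_left h4 (by omega)
  obtain ⟨N, hN⟩ := core_one k hs hestr (j := min j (s + 1)) (by omega) (by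
    intro i h1 h2
    have h3 : min j (s + 1) = j := by omega
    rw [h3] at h1 h2
    have h4 := hF i h1 h2
    have h5 := hde i (by omega)
    have h6 := hde (i + 1) (by omega)
    have h7 : (r : ℤ) * e (i + 1) = r * (e i + 1) := by
      rw [← h6, h4, mul_add, ← h5]; ring
    exact mul_left_cancel₀ (by omega) h7)
  refine ⟨N, fun β hβ0 _ hβN hβ => ?_⟩
  have hRay : Ray s e β := by
    have key : ∀ i ≤ s, ∏ j ∈ (Finset.range (s + 1)).erase i, |d j - d i| =
        (r : ℤ) ^ s * ∏ j ∈ (Finset.range (s + 1)).erase i, |e j - e i| := by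
      intro i hi
      have h1 : ∀ j ∈ (Finset.range (s + 1)).erase i, |d j - d i| = (r : ℤ) * |e j - e i| := by
        intro j hj
        rw [Finset.mem_erase, Finset.mem_range] at hj
        have h2 := hde i hi
        have h3 := hde j (by omega)
        have h4 : d j - d i = r * (e j - e i) := by linarith
        rw [h4, abs_mul, abs_of_pos hr]
      rw [Finset.prod_congr rfl h1, Finset.prod_mul_distrib, Finset.prod_const,
        Finset.card_erase_of_mem (Finset.mem_range.2 (by omega)), Finset.card_range,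
        Nat.add_sub_cancel]
    intro i hi i' hi'
    have h5 := hβ i hi i' hi'
    rw [key i hi, key i' hi'] at h5
    have h6 : ((r : ℤ) ^ s) ≠ 0 := pow_ne_zero _ (by omega)
    apply mul_left_cancel₀ h6
    linarith
  obtain ⟨dd, hdd, hPM⟩ := hN β hβ0 hβN hRay
  obtain ⟨D, hD, hex⟩ := PM_scale hr1 hPM
  refine assemble hsn (dd := fun i => r * dd i) ?_ hβ0 D hD hex
  intro i hi
  rw [hde i hi]
  push_cast
  rw [hdd i hi, he0, sub_zero]

end Run7.h869
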